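import Pool.Agent.Lib.MP_c77da8_nt.Sv3
import Pool.Agent.Lib.MP_c77da8_nt.Mert

/-!
# The sieve with dyadically shrinking blocks of primes
-/

set_option autoImplicit false

namespace Pool.Agent.Lib.MP_c77da8_nt.Sv

open Finset Mert

theorem R_ge (a : ℕ) (ha : 1 ≤ a) : Real.log a - 2 ≤ R a := by
  have h1 : 2 ≤ 2 ^ a := by
    calc 2 = 2 ^ 1 := by norm_num
      _ ≤ 2 ^ a := Nat.pow_le_pow_right (by norm_num) ha
  have h2 := sum_inv_ge (2 ^ a) h1
  have h3 : ∑ p ∈ Nat.primesBelow (2 ^ a), (1 : ℝ) / p ≤ R a := by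
    unfold R
    refine sum_le_sum_of_subset_of_nonneg ?_ fun _ _ _ => by positivity
    intro p hp
    rw [Nat.mem_primesLE]
    exact ⟨(Nat.lt_of_mem_primesBelow hp).le, Nat.prime_of_mem_primesBelow hp⟩
  have ha' : (0 : ℝ) < a := by exact_mod_cast ha
  have hl : (0.69 : ℝ) < Real.log 2 := by have := Real.log_two_gt_d9; linarith
  have h4 : Real.log ((2 ^ a : ℕ) : ℝ) = a * Real.log 2 := by
    push_cast
    rw [Real.log_pow]
  rw [h4, Real.log_mul ha'.ne' (by linarith)] at h2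
  have h5 : -1 ≤ Real.log (Real.log 2) := by
    rw [Real.le_log_iff_exp_le (by linarith), Real.exp_neg, inv_le_comm₀ (Real.exp_pos _) (by linarith)]
    have := Real.exp_one_gt_d9
    have h6 : (Real.log 2)⁻¹ ≤ 1 / 0.69 := by
      rw [inv_eq_one_div]
      exact one_div_le_one_div_of_le (by norm_num) hl.le
    refine h6.trans ?_
    norm_num
    linarith
  linarith

theorem R_diff (a b : ℕ) (ha : 1 ≤ a) (hab : a ≤ b) : R b - R a ≤ Real.log ((b : ℝ) / a) + 8 := by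
  have h1 := R_le b (ha.trans hab)
  have h2 := R_ge a ha
  have ha' : (0 : ℝ) < a := by exact_mod_cast ha
  have hb' : (0 : ℝ) < b := by exact_mod_cast (ha.trans hab)
  rw [Real.log_div hb'.ne' ha'.ne']
  linarith

/-- `∑_{p ≤ 2^J} 1/p²` -/
noncomputable def R2 (J : ℕ) : ℝ := ∑ p ∈ Nat.primesLE (2 ^ J), (1 : ℝ) / (p : ℝ) ^ 2

theorem primesLE_mono {a b : ℕ} (h : a ≤ b) : Nat.primesLE (2 ^ a) ⊆ Nat.primesLE (2 ^ b) := by
  intro p hp
  rw [Nat.mem_primesLE] at hp ⊢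
  exact ⟨hp.1.trans (Nat.pow_le_pow_right (by norm_num) h), hp.2⟩

theorem sum_sdiff_eq (f : ℕ → ℝ) {a b : ℕ} (h : a ≤ b) :
    ∑ p ∈ Nat.primesLE (2 ^ b) \ Nat.primesLE (2 ^ a), f p =
      ∑ p ∈ Nat.primesLE (2 ^ b), f p - ∑ p ∈ Nat.primesLE (2 ^ a), f p := by
  have := sum_sdiff (f := f) (primesLE_mono h)
  linarith

theorem R2_diff (a b : ℕ) (hab : a ≤ b) : R2 b - R2 a ≤ 1 / 2 ^ a := by
  unfold R2
  rw [← sum_sdiff_eq _ hab]
  have h1 : ∑ p ∈ Nat.primesLE (2 ^ b) \ Nat.primesLE (2 ^ a), (1 : ℝ) / (p : ℝ) ^ 2 ≤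
      ∑ i ∈ Ioc (2 ^ a) (2 ^ b), (((i : ℕ) : ℝ) ^ 2)⁻¹ := by
    simp_rw [one_div]
    refine sum_le_sum_of_subset_of_nonneg ?_ fun _ _ _ => by positivity
    intro p hp
    rw [mem_sdiff, Nat.mem_primesLE, Nat.mem_primesLE] at hp
    rw [mem_Ioc]
    refine ⟨?_, hp.1.1⟩
    by_contra h
    exact hp.2 ⟨not_lt.1 h, hp.1.2⟩
  have h2 := sum_Ioc_inv_sq_le_sub (α := ℝ) (k := 2 ^ a) (n := 2 ^ b) (by positivity)
    (Nat.pow_le_pow_right (by norm_num) hab)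
  refine h1.trans (h2.trans ?_)
  have : (0 : ℝ) ≤ (((2 ^ b : ℕ)) : ℝ)⁻¹ := by positivity
  push_cast at this ⊢
  rw [one_div]
  linarith

/-- the `j`-th block of primes -/
def blk (u t : ℕ) (j : Fin t) : Finset ℕ :=
  Nat.primesLE (2 ^ (u * 2 ^ (t - (j : ℕ)))) \ Nat.primesLE (2 ^ (u * 2 ^ (t - ((j : ℕ) + 1))))

theorem mem_blk {u t : ℕ} {j : Fin t} {q : ℕ} :
    q ∈ blk u t j ↔ q.Prime ∧ 2 ^ (u * 2 ^ (t - ((j : ℕ) + 1))) < q ∧
      q ≤ 2 ^ (u * 2 ^ (t - (j : ℕ))) := by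
  unfold blk
  rw [mem_sdiff, Nat.mem_primesLE, Nat.mem_primesLE]
  constructor
  · rintro ⟨⟨h1, h2⟩, h3⟩
    refine ⟨h2, ?_, h1⟩
    by_contra h
    exact h3 ⟨not_lt.1 h, h2⟩
  · rintro ⟨h1, h2, h3⟩
    exact ⟨⟨h3, h1⟩, fun h => absurd h.1 (not_le.2 h2)⟩

theorem blk_disj (u t : ℕ) (i j : Fin t) (hij : i ≠ j) : Disjoint (blk u t i) (blk u t j) := by
  have key : ∀ i j : Fin t, (i : ℕ) < j → ∀ q ∈ blk u t i, q ∉ blk u t j := by
    intro i j h q hq hq'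
    rw [mem_blk] at hq hq'
    have h1 : 2 ^ (u * 2 ^ (t - (j : ℕ))) ≤ 2 ^ (u * 2 ^ (t - ((i : ℕ) + 1))) := by
      refine Nat.pow_le_pow_right (by norm_num) (Nat.mul_le_mul_left _ ?_)
      exact Nat.pow_le_pow_right (by norm_num) (by omega)
    have := hq.2.1
    have := hq'.2.2
    omega
  rw [Finset.disjoint_left]
  intro q hq hq'
  rcases lt_or_gt_of_ne (fun h : (i : ℕ) = j => hij (Fin.ext h)) with h | h
  · exact key i j h q hq hq'
  · exact key j i h q hq' hq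

theorem exists_blk {u t : ℕ} {q : ℕ} (hq : q.Prime) (h1 : 2 ^ u < q) (h2 : q ≤ 2 ^ (u * 2 ^ t)) :
    ∃ j : Fin t, q ∈ blk u t j := by
  -- the least exponent `e` with `q ≤ 2^(u 2^e)`
  have hex : ∃ e, q ≤ 2 ^ (u * 2 ^ e) := ⟨t, h2⟩
  classical
  have he := Nat.find_spec hex
  have het : Nat.find hex ≤ t := Nat.find_min' hex h2
  have he0 : Nat.find hex ≠ 0 := by
    intro h
    rw [h] at he
    simp at he
    omega
  have he1 : ¬ q ≤ 2 ^ (u * 2 ^ (Nat.find hex - 1)) := Nat.find_min hex (by omega)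
  set e := Nat.find hex with hedef
  refine ⟨⟨t - e, by omega⟩, ?_⟩
  rw [mem_blk]
  refine ⟨hq, ?_, ?_⟩
  · have : t - (t - e + 1) = e - 1 := by omega
    simp only [this]
    exact not_le.1 he1
  · have : t - (t - e) = e := by omega
    simp only [this]
    exact he

theorem blk_gt {u t : ℕ} {j : Fin t} {q : ℕ} (hq : q ∈ blk u t j) : 2 ^ u < q := by
  rw [mem_blk] at hq
  refine lt_of_le_of_lt ?_ hq.2.1
  refine Nat.pow_le_pow_right (by norm_num) ?_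
  exact Nat.le_mul_of_pos_right u (by positivity)

theorem blk_le {u t : ℕ} {j : Fin t} {q : ℕ} (hq : q ∈ blk u t j) : q ≤ 2 ^ (u * 2 ^ t) := by
  rw [mem_blk] at hq
  refine hq.2.2.trans ?_
  refine Nat.pow_le_pow_right (by norm_num) (Nat.mul_le_mul_left _ ?_)
  exact Nat.pow_le_pow_right (by norm_num) (by omega)

theorem sum_blk (f : ℕ → ℝ) (u t : ℕ) (j : Fin t) :
    ∑ q ∈ blk u t j, f q = ∑ p ∈ Nat.primesLE (2 ^ (u * 2 ^ (t - (j : ℕ)))), f p -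
      ∑ p ∈ Nat.primesLE (2 ^ (u * 2 ^ (t - ((j : ℕ) + 1)))), f p := by
  unfold blk
  refine sum_sdiff_eq f (Nat.mul_le_mul_left _ ?_)
  exact Nat.pow_le_pow_right (by norm_num) (by omega)

theorem sum_all_blk (f : ℕ → ℝ) (u t : ℕ) :
    ∑ j : Fin t, ∑ q ∈ blk u t j, f q = ∑ p ∈ Nat.primesLE (2 ^ (u * 2 ^ t)), f p -
      ∑ p ∈ Nat.primesLE (2 ^ u), f p := by
  simp_rw [sum_blk]
  rw [Fin.sum_univ_eq_sum_range (fun j => ∑ p ∈ Nat.primesLE (2 ^ (u * 2 ^ (t - j))), f p -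
      ∑ p ∈ Nat.primesLE (2 ^ (u * 2 ^ (t - (j + 1)))), f p) t]
  rw [Finset.sum_range_sub' (fun j => ∑ p ∈ Nat.primesLE (2 ^ (u * 2 ^ (t - j))), f p) t]
  simp

theorem blk_inv_le (u t : ℕ) (hu : 1 ≤ u) (j : Fin t) : ∑ q ∈ blk u t j, (1 : ℝ) / q ≤ 9 := by
  rw [sum_blk]
  have h1 : 1 ≤ u * 2 ^ (t - ((j : ℕ) + 1)) := Nat.mul_pos hu (by positivity)
  have h2 : u * 2 ^ (t - ((j : ℕ) + 1)) ≤ u * 2 ^ (t - (j : ℕ)) :=
    Nat.mul_le_mul_left _ (Nat.pow_le_pow_right (by norm_num) (by omega))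
  have h3 := R_diff _ _ h1 h2
  have h4 : ((u * 2 ^ (t - (j : ℕ)) : ℕ) : ℝ) / ((u * 2 ^ (t - ((j : ℕ) + 1)) : ℕ) : ℝ) = 2 := by
    have h5 : t - (j : ℕ) = (t - ((j : ℕ) + 1)) + 1 := by
      have := j.2
      omega
    have hu' : (0 : ℝ) < u := by exact_mod_cast hu
    rw [h5]
    push_cast
    rw [pow_succ]
    field_simp
  rw [h4] at h3
  have h6 := Real.log_two_lt_d9
  unfold R at h3
  linarith

/-- the lengths of the truncations -/
def sf (k t : ℕ) (j : Fin t) : ℕ := 48 * k + 2 * (j : ℕ) + 1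

theorem sf_odd (k t : ℕ) (j : Fin t) : Odd (sf k t j) := ⟨24 * k + j, by unfold sf; ring⟩

theorem sum_sf (k : ℕ) (hk : 1 ≤ k) (t : ℕ) :
    ∑ j ∈ range t, 2 ^ (t - j) * (48 * k + 2 * j + 1) ≤ 2 ^ t * (102 * k) := by
  have h : ∀ t : ℕ, ∑ j ∈ range t, 2 ^ (t - j) * (48 * k + 2 * j + 1) + (4 * t + 96 * k + 6) =
      2 ^ t * (96 * k + 6) := by
    intro t
    induction t with
    | zero => simp
    | succ t ih =>
      rw [sum_range_succ]
      have h1 : ∑ j ∈ range t, 2 ^ (t + 1 - j) * (48 * k + 2 * j + 1) =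
          2 * ∑ j ∈ range t, 2 ^ (t - j) * (48 * k + 2 * j + 1) := by
        rw [mul_sum]
        refine sum_congr rfl fun j hj => ?_
        have : t + 1 - j = (t - j) + 1 := by
          have := mem_range.1 hj
          omega
        rw [this, pow_succ]
        ring
      rw [h1]
      have h2 : t + 1 - t = 1 := by omega
      rw [h2, pow_one, pow_succ]
      linear_combination 2 * ih
  have h1 := h t
  have h2 : 2 ^ t * (96 * k + 6) ≤ 2 ^ t * (102 * k) := Nat.mul_le_mul_left _ (by omega)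
  omega

theorem rem_le (k u t : ℕ) (hk : 1 ≤ k) (hu : 2 * k ≤ 2 ^ u) (B : ℕ → Finset ℕ)
    (hB : ∀ j, ∀ q ∈ blk u t j, (B q).card ≤ k) :
    ∏ j, (1 + ∑ q ∈ blk u t j, ((B q).card : ℝ)) ^ sf k t j ≤ 2 ^ (204 * k * (u * 2 ^ t)) := by
  have h1 : ∀ j : Fin t, 1 + ∑ q ∈ blk u t j, ((B q).card : ℝ) ≤
      2 ^ (2 * (u * 2 ^ (t - (j : ℕ)))) := by
    intro j
    have h2 : ∑ q ∈ blk u t j, (B q).card ≤ k * 2 ^ (u * 2 ^ (t - (j : ℕ))) := by
      calc ∑ q ∈ blk u t j, (B q).card ≤ ∑ q ∈ blk u t j, k := sum_le_sum (hB j)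
        _ = (blk u t j).card * k := by rw [sum_const, smul_eq_mul]
        _ ≤ 2 ^ (u * 2 ^ (t - (j : ℕ))) * k := by
            refine Nat.mul_le_mul_right _ ?_
            have h3 : blk u t j ⊆ Ioc 0 (2 ^ (u * 2 ^ (t - (j : ℕ)))) := by
              intro q hq
              rw [mem_blk] at hq
              rw [mem_Ioc]
              exact ⟨hq.1.pos, hq.2.2⟩
            have := card_le_card h3
            simpa using this
        _ = _ := mul_comm _ _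
    have h3 : 1 + ∑ q ∈ blk u t j, (B q).card ≤ 2 ^ (2 * (u * 2 ^ (t - (j : ℕ)))) := by
      have h4 : 1 ≤ k * 2 ^ (u * 2 ^ (t - (j : ℕ))) := Nat.mul_pos hk (by positivity)
      have h5 : 2 ^ u ≤ 2 ^ (u * 2 ^ (t - (j : ℕ))) :=
        Nat.pow_le_pow_right (by norm_num) (Nat.le_mul_of_pos_right u (by positivity))
      calc 1 + ∑ q ∈ blk u t j, (B q).card ≤ 2 * k * 2 ^ (u * 2 ^ (t - (j : ℕ))) := by
            nlinarith
        _ ≤ 2 ^ (u * 2 ^ (t - (j : ℕ))) * 2 ^ (u * 2 ^ (t - (j : ℕ))) :=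
            Nat.mul_le_mul_right _ (hu.trans h5)
        _ = _ := by rw [two_mul, pow_add]
    exact_mod_cast h3
  calc ∏ j, (1 + ∑ q ∈ blk u t j, ((B q).card : ℝ)) ^ sf k t j
      ≤ ∏ j : Fin t, ((2 : ℝ) ^ (2 * (u * 2 ^ (t - (j : ℕ))))) ^ sf k t j := by
        refine prod_le_prod (fun j _ => ?_) fun j _ => ?_
        · have : (0 : ℝ) ≤ ∑ q ∈ blk u t j, ((B q).card : ℝ) :=
            sum_nonneg fun _ _ => Nat.cast_nonneg _
          positivity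
        · refine pow_le_pow_left₀ ?_ (h1 j) _
          have : (0 : ℝ) ≤ ∑ q ∈ blk u t j, ((B q).card : ℝ) :=
            sum_nonneg fun _ _ => Nat.cast_nonneg _
          linarith
    _ = (2 : ℝ) ^ (2 * u * ∑ j ∈ range t, 2 ^ (t - j) * (48 * k + 2 * j + 1)) := by
        unfold sf
        rw [mul_sum, ← prod_pow_eq_pow_sum,
          Fin.prod_univ_eq_prod_range
            (fun j => ((2 : ℝ) ^ (2 * (u * 2 ^ (t - j)))) ^ (48 * k + 2 * j + 1)) t]
        refine prod_congr rfl fun j _ => ?_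
        rw [← pow_mul]
        congr 1
        ring
    _ ≤ 2 ^ (204 * k * (u * 2 ^ t)) := by
        refine pow_le_pow_right₀ (by norm_num) ?_
        have := sum_sf k hk t
        nlinarith

theorem one_sub_ge2 (x : ℝ) (h0 : 0 ≤ x) (h1 : x ≤ 1 / 2) : Real.exp (-(x + x ^ 2)) ≤ 1 - x := by
  have h2 := Real.quadratic_le_exp_of_nonneg (show 0 ≤ x + x ^ 2 by positivity)
  have h3 : 0 < Real.exp (x + x ^ 2) := Real.exp_pos _
  rw [Real.exp_neg, inv_le_iff_one_le_mul₀ h3]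
  have h4 : 1 ≤ (1 - x) * (1 + (x + x ^ 2) + (x + x ^ 2) ^ 2 / 2) := by
    have h5 : (1 - x) * (1 + (x + x ^ 2) + (x + x ^ 2) ^ 2 / 2) - 1 =
        x ^ 2 / 2 * ((1 - x) * (1 + x) ^ 2 - 2 * x) := by ring
    have h6 : 0 ≤ (1 - x) * (1 + x) ^ 2 - 2 * x := by nlinarith
    have h7 : 0 ≤ x ^ 2 / 2 := by positivity
    nlinarith
  nlinarith

theorem V_lower (k u t : ℕ) (hk : 1 ≤ k) (hu : 2 * k ≤ 2 ^ u) (hu1 : 1 ≤ u) (B : ℕ → Finset ℕ)
    (hB : ∀ j, ∀ q ∈ blk u t j, (B q).card ≤ k) :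
    1 / 2 ^ ((t + 13) * k) ≤ ∏ j, ∏ q ∈ blk u t j, (1 - ((B q).card : ℝ) / q) := by
  have hk' : (0 : ℝ) < k := by exact_mod_cast hk
  have h1 : ∀ j, ∏ q ∈ blk u t j, Real.exp (-(k * ((1 : ℝ) / q) + k ^ 2 * ((1 : ℝ) / (q : ℝ) ^ 2))) ≤
      ∏ q ∈ blk u t j, (1 - ((B q).card : ℝ) / q) := by
    intro j
    refine prod_le_prod (fun _ _ => (Real.exp_pos _).le) fun q hq => ?_
    have hq1 := blk_gt hq
    have hq2 : 2 * k < q := lt_of_le_of_lt hu hq1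
    have hq3 : (2 * k : ℝ) < q := by exact_mod_cast hq2
    have hq0 : (0 : ℝ) < q := by linarith
    have hb : ((B q).card : ℝ) ≤ k := by exact_mod_cast hB j q hq
    have h2 : (k : ℝ) / q ≤ 1 / 2 := by
      rw [div_le_div_iff₀ hq0 (by norm_num)]
      linarith
    have h3 := one_sub_ge2 ((k : ℝ) / q) (by positivity) h2
    have h4 : ((B q).card : ℝ) / q ≤ (k : ℝ) / q := by gcongr
    calc Real.exp (-(k * ((1 : ℝ) / q) + k ^ 2 * ((1 : ℝ) / (q : ℝ) ^ 2)))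
        = Real.exp (-((k : ℝ) / q + ((k : ℝ) / q) ^ 2)) := by
          congr 2
          rw [div_pow]
          ring
      _ ≤ 1 - (k : ℝ) / q := h3
      _ ≤ _ := by linarith
  refine le_trans ?_ (prod_le_prod (fun j _ => prod_nonneg fun _ _ => (Real.exp_pos _).le)
    fun j _ => h1 j)
  simp_rw [← Real.exp_sum]
  have h2 : ∑ j : Fin t, ∑ q ∈ blk u t j,
      (-(k * ((1 : ℝ) / q) + k ^ 2 * ((1 : ℝ) / (q : ℝ) ^ 2))) =
      -(k * (R (u * 2 ^ t) - R u) + k ^ 2 * (R2 (u * 2 ^ t) - R2 u)) := by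
    rw [sum_all_blk]
    unfold R R2
    rw [sum_neg_distrib, sum_neg_distrib, sum_add_distrib, sum_add_distrib, ← mul_sum, ← mul_sum,
      ← mul_sum, ← mul_sum]
    ring
  rw [h2]
  have hut : u ≤ u * 2 ^ t := Nat.le_mul_of_pos_right u (by positivity)
  have h3 := R_diff u (u * 2 ^ t) hu1 hut
  have h4 := R2_diff u (u * 2 ^ t) hut
  have hu' : (0 : ℝ) < u := by exact_mod_cast hu1
  have h5 : Real.log (((u * 2 ^ t : ℕ) : ℝ) / u) = t * Real.log 2 := by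
    have : ((u * 2 ^ t : ℕ) : ℝ) / u = 2 ^ t := by
      push_cast
      field_simp
    rw [this, Real.log_pow]
  rw [h5] at h3
  have h6 : (k : ℝ) ^ 2 * (R2 (u * 2 ^ t) - R2 u) ≤ k := by
    have h7 : (2 * k : ℝ) ≤ 2 ^ u := by exact_mod_cast hu
    calc (k : ℝ) ^ 2 * (R2 (u * 2 ^ t) - R2 u) ≤ (k : ℝ) ^ 2 * (1 / 2 ^ u) := by gcongr
      _ ≤ (k : ℝ) ^ 2 * (1 / (2 * k)) := by gcongr
      _ = k / 2 := by field_simp
      _ ≤ k := by linarith
  have h7 : (k : ℝ) * (R (u * 2 ^ t) - R u) + k ^ 2 * (R2 (u * 2 ^ t) - R2 u) ≤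
      k * (t * Real.log 2 + 8) + k := by
    have := mul_le_mul_of_nonneg_left h3 hk'.le
    linarith
  have h8 : Real.exp 9 ≤ 2 ^ 13 := by
    have : Real.exp 9 = Real.exp 1 ^ 9 := by
      rw [← Real.exp_nat_mul]; norm_num
    rw [this]
    have he := Real.exp_one_lt_d9
    calc Real.exp 1 ^ 9 ≤ 2.7182818286 ^ 9 := by gcongr
      _ ≤ 2 ^ 13 := by norm_num
  calc (1 : ℝ) / 2 ^ ((t + 13) * k) = ((2 : ℝ) ^ ((t + 13) * k))⁻¹ := one_div _
    _ ≤ (Real.exp (k * (t * Real.log 2 + 8) + k))⁻¹ := by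
        refine inv_anti₀ (Real.exp_pos _) ?_
        have h9 : Real.exp (k * (t * Real.log 2 + 8) + k) =
            ((2 : ℝ) ^ t * Real.exp 9) ^ k := by
          have h10 : (2 : ℝ) ^ t = Real.exp (t * Real.log 2) := by
            rw [← Real.log_pow, Real.exp_log (by positivity)]
          rw [h10, ← Real.exp_add, ← Real.exp_nat_mul]
          congr 1
          ring
        rw [h9]
        calc ((2 : ℝ) ^ t * Real.exp 9) ^ k ≤ ((2 : ℝ) ^ t * 2 ^ 13) ^ k := by gcongr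
          _ = _ := by rw [← pow_add, ← pow_mul]
    _ = Real.exp (-(k * (t * Real.log 2 + 8) + k)) := (Real.exp_neg _).symm
    _ ≤ _ := by
        apply Real.exp_le_exp.2
        linarith

/-- The sieve with blocks. -/
theorem sieve_blk (k u t : ℕ) (hk : 1 ≤ k) (hu : 2 * k ≤ 2 ^ u) (hu1 : 1 ≤ u) (B : ℕ → Finset ℕ)
    (hB : ∀ j, ∀ q ∈ blk u t j, (B q).card ≤ k)
    (hBq : ∀ j, ∀ q ∈ blk u t j, ∀ b ∈ B q, b < q) (N M v : ℕ) (hM : 0 < M)
    (hcop : ∀ j, ∀ q ∈ blk u t j, Nat.Coprime M q) :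
    1 / 2 * ((N : ℝ) / M * ∏ j, ∏ q ∈ blk u t j, (1 - ((B q).card : ℝ) / q)) -
        (t + 1) * 2 ^ (204 * k * (u * 2 ^ t)) ≤
      (((range N).filter fun m => m ≡ v [MOD M] ∧
        ∀ j, ∀ q ∈ blk u t j, m % q ∉ B q).card : ℝ) ∧
    (((range N).filter fun m => m ≡ v [MOD M] ∧
        ∀ j, ∀ q ∈ blk u t j, m % q ∉ B q).card : ℝ) ≤
      2 * ((N : ℝ) / M * ∏ j, ∏ q ∈ blk u t j, (1 - ((B q).card : ℝ) / q)) +
        2 ^ (204 * k * (u * 2 ^ t)) := by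
  have hk' : (0 : ℝ) < k := by exact_mod_cast hk
  have hle : ∀ j, ∀ q ∈ blk u t j, ((B q).card : ℝ) / q ≤ k * (1 / q) := by
    intro j q hq
    have hb : ((B q).card : ℝ) ≤ k := by exact_mod_cast hB j q hq
    rw [mul_one_div]
    gcongr
  have h1 := sieve N M v t hM B (blk u t) (fun j q hq => (mem_blk.1 hq).1) hBq hcop
    (blk_disj u t) (by
      intro j q hq
      refine (hle j q hq).trans ?_
      have hq2 : 2 * k < q := lt_of_le_of_lt hu (blk_gt hq)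
      have hq3 : (2 * k : ℝ) < q := by exact_mod_cast hq2
      have hq0 : (0 : ℝ) < q := by linarith
      rw [mul_one_div, div_le_div_iff₀ hq0 (by norm_num)]
      linarith) (sf k t) (sf_odd k t) (by
      intro j
      have h2 : ∑ q ∈ blk u t j, ((B q).card : ℝ) / q ≤ k * 9 := by
        calc ∑ q ∈ blk u t j, ((B q).card : ℝ) / q ≤ ∑ q ∈ blk u t j, (k : ℝ) * (1 / q) :=
              sum_le_sum (hle j)
          _ = k * ∑ q ∈ blk u t j, (1 : ℝ) / q := (mul_sum _ _ _).symm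
          _ ≤ k * 9 := by
              have := blk_inv_le u t hu1 j
              gcongr
      unfold sf
      push_cast
      have h3 : (1 : ℝ) ≤ k := by exact_mod_cast hk
      have h4 : (0 : ℝ) ≤ ((j : ℕ) : ℝ) := Nat.cast_nonneg _
      linarith)
  have h2 := rem_le k u t hk hu B hB
  have h3 : (0 : ℝ) ≤ (t : ℝ) + 1 := by positivity
  have h4 := mul_le_mul_of_nonneg_left h2 h3
  constructor
  · linarith [h1.1]
  · linarith [h1.2]

end Pool.Agent.Lib.MP_c77da8_nt.Sv
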