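import Pool.Agent.Lib.MP_c77da8_nt.Sv7

/-!
# Almost prime Cunningham chains, uniformly in the length

For all `k ≥ 1` and all `x ≥ (k+1)^(C(k+1))` at least `x (c k log(k+1)/log x)^k` numbers `p ≤ x`
have the property that each of `p, 2p+1, 4p+3, ..., 2^(k-1)(p+1)-1` has at most `C log(k+1)` prime
factors, all of them at least `x^(1/(Ck))`.
-/

set_option autoImplicit false

namespace Pool.Agent.Lib.MP_c77da8_nt.AlmostPrimeChainsResult

open Finset ArithmeticFunction Pool.Agent.Lib.MP_c77da8_nt.Sv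

theorem base_le {k L t : ℕ} {x : ℝ} (hk : 1 ≤ k) (hx : (2 : ℝ) ^ L ≤ x)
    (hA : 400 * k * ((Nat.log 2 k + 2) * 2 ^ t) ≤ L) :
    1 / 2 ^ 15 * (k : ℝ) * Real.log (k + 1) / Real.log x ≤ 1 / 2 ^ (t + 23) := by
  have hk' : (1 : ℝ) ≤ k := by exact_mod_cast hk
  have hl2 : 0 < Real.log 2 := Real.log_pos (by norm_num)
  have hlk : 0 < Real.log ((k : ℝ) + 1) := Real.log_pos (by linarith)
  have h1 : (L : ℝ) * Real.log 2 ≤ Real.log x := by
    rw [← Real.log_pow]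
    exact Real.log_le_log (by positivity) hx
  have h2 : Real.log ((k : ℝ) + 1) ≤ ((Nat.log 2 k + 2 : ℕ) : ℝ) * Real.log 2 := by
    rw [← Real.log_pow]
    refine Real.log_le_log (by linarith) ?_
    have h3 : k < 2 ^ (Nat.log 2 k + 1) := Nat.lt_pow_succ_log_self (by norm_num) k
    have h4 : k + 1 ≤ 2 ^ (Nat.log 2 k + 2) := by
      rw [show Nat.log 2 k + 2 = (Nat.log 2 k + 1) + 1 by ring, pow_succ]
      omega
    exact_mod_cast h4
  have h3 : (400 : ℝ) * k * (((Nat.log 2 k + 2 : ℕ) : ℝ) * 2 ^ t) ≤ L := by exact_mod_cast hA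
  have h4 : 400 * (k : ℝ) * Real.log (k + 1) * 2 ^ t ≤ Real.log x := by
    calc 400 * (k : ℝ) * Real.log (k + 1) * 2 ^ t
        ≤ 400 * (k : ℝ) * (((Nat.log 2 k + 2 : ℕ) : ℝ) * Real.log 2) * 2 ^ t := by gcongr
      _ = (400 : ℝ) * k * (((Nat.log 2 k + 2 : ℕ) : ℝ) * 2 ^ t) * Real.log 2 := by ring
      _ ≤ L * Real.log 2 := by gcongr
      _ ≤ Real.log x := h1
  have hpos : 0 < Real.log x := lt_of_lt_of_le (by positivity) h4
  rw [div_le_div_iff₀ hpos (by positivity)]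
  have h5 : (2 : ℝ) ^ (t + 23) = 2 ^ 8 * 2 ^ 15 * 2 ^ t := by rw [pow_add]; ring
  rw [h5]
  have h6 : (1 / 2 ^ 15 * (k : ℝ) * Real.log (k + 1)) * (2 ^ 8 * 2 ^ 15 * 2 ^ t) =
      256 * (k : ℝ) * Real.log (k + 1) * 2 ^ t := by ring
  rw [h6, one_mul]
  refine le_trans ?_ h4
  gcongr
  norm_num

theorem omega_le {k n : ℕ} (hk : 1 ≤ k) (h : n < 4 * (96 + 5 * Nat.log 2 k)) :
    (n : ℝ) ≤ ((1200 : ℕ) : ℝ) * Real.log (k + 1) := by
  have hk' : (1 : ℝ) ≤ k := by exact_mod_cast hk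
  have hl : (0.69 : ℝ) < Real.log 2 := by have := Real.log_two_gt_d9; linarith
  have h1 : (n : ℝ) ≤ 384 + 20 * (Nat.log 2 k : ℕ) := by
    have : n ≤ 384 + 20 * Nat.log 2 k := by omega
    exact_mod_cast this
  have h2 : Real.log 2 ≤ Real.log ((k : ℝ) + 1) := Real.log_le_log (by norm_num) (by linarith)
  have h3 : ((Nat.log 2 k : ℕ) : ℝ) * Real.log 2 ≤ Real.log ((k : ℝ) + 1) := by
    rw [← Real.log_pow]
    refine Real.log_le_log (by positivity) ?_
    have h4 := Nat.pow_log_le_self 2 (x := k) (by omega)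
    have h5 : ((2 : ℝ)) ^ (Nat.log 2 k) ≤ k := by exact_mod_cast h4
    linarith
  have h4 : (0 : ℝ) ≤ ((Nat.log 2 k : ℕ) : ℝ) := Nat.cast_nonneg _
  push_cast
  nlinarith

/-- The main theorem. -/
theorem result : ∃ (C : ℕ) (c : ℝ), 0 < c ∧ ∀ k : ℕ, 1 ≤ k → ∀ x : ℝ,
    ((k : ℝ) + 1) ^ (C * (k + 1)) ≤ x →
    x * (c * k * Real.log (k + 1) / Real.log x) ^ k ≤
      ({p : ℕ | 2 ≤ p ∧ (p : ℝ) ≤ x ∧ ∀ i < k,
        (ArithmeticFunction.cardFactors (2 ^ i * (p + 1) - 1) : ℝ) ≤ C * Real.log (k + 1) ∧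
        ∀ q : ℕ, q.Prime → q ∣ 2 ^ i * (p + 1) - 1 → x ≤ (q : ℝ) ^ (C * k)}.ncard : ℝ) := by
  refine ⟨1200, 1 / 2 ^ 15, by positivity, fun k hk x hx => ?_⟩
  have hk' : (1 : ℝ) ≤ k := by exact_mod_cast hk
  set X := ⌊x⌋₊ with hX
  have hx0 : 0 ≤ x := le_trans (by positivity) hx
  have hXge : (k + 1) ^ (1200 * (k + 1)) ≤ X := by
    rw [hX]
    apply Nat.le_floor
    exact_mod_cast hx
  have hXpos : X ≠ 0 := by
    have : 0 < (k + 1) ^ (1200 * (k + 1)) := by positivity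
    omega
  have hXx : (X : ℝ) ≤ x := Nat.floor_le hx0
  have hxX : x < X + 1 := Nat.lt_floor_add_one x
  set L := Nat.log 2 X with hL
  have hL1 : 2 ^ L ≤ X := Nat.pow_log_le_self 2 hXpos
  have hL2 : X < 2 ^ (L + 1) := Nat.lt_pow_succ_log_self (by norm_num) X
  have hkL : 400 * k * (Nat.log 2 k + 2) ≤ L := by
    refine Nat.le_log_of_pow_le (by norm_num) (le_trans ?_ hXge)
    have h1 : 2 ^ (Nat.log 2 k + 2) ≤ (k + 1) ^ 2 := by
      have := Nat.pow_log_le_self 2 (x := k) (by omega)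
      rw [pow_add]
      nlinarith
    calc 2 ^ (400 * k * (Nat.log 2 k + 2)) = (2 ^ (Nat.log 2 k + 2)) ^ (400 * k) := by
          rw [← pow_mul, mul_comm]
      _ ≤ ((k + 1) ^ 2) ^ (400 * k) := Nat.pow_le_pow_left h1 _
      _ = (k + 1) ^ (2 * (400 * k)) := (pow_mul _ _ _).symm
      _ ≤ (k + 1) ^ (1200 * (k + 1)) := Nat.pow_le_pow_right (by omega) (by omega)
  obtain ⟨t, hA, hB, hcard⟩ := main_nat k L X hk hL1 hL2 hkL
  set u := Nat.log 2 k + 2 with hu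
  set M := M0 u with hM
  have hu1 : 1 ≤ u := by omega
  set G := GS k u t (96 + 5 * Nat.log 2 k) (X / M + 1) with hG
  set S := {p : ℕ | 2 ≤ p ∧ (p : ℝ) ≤ x ∧ ∀ i < k,
        (ArithmeticFunction.cardFactors (2 ^ i * (p + 1) - 1) : ℝ) ≤
          ((1200 : ℕ) : ℝ) * Real.log (k + 1) ∧
        ∀ q : ℕ, q.Prime → q ∣ 2 ^ i * (p + 1) - 1 → x ≤ (q : ℝ) ^ (1200 * k)} with hS
  have hfin : S.Finite := by
    refine (Set.finite_Iic X).subset fun p hp => ?_
    rw [Set.mem_Iic, hX]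
    exact Nat.le_floor hp.2.1
  have hM3 : 3 ≤ M := by
    refine Nat.le_of_dvd (M0_pos u) (dvd_M0 Nat.prime_three ?_)
    calc 3 ≤ 2 ^ 2 := by norm_num
      _ ≤ 2 ^ u := Nat.pow_le_pow_right (by norm_num) (by omega)
  have himg : ∀ m ∈ G, M * m - 1 ∈ S := by
    intro m hm
    rw [hG, mem_GS] at hm
    obtain ⟨hm1, hm2, hm3⟩ := hm
    have hMm : 3 ≤ M * m := by nlinarith
    have hMX : M * m ≤ X := by
      calc M * m ≤ M * (X / M) := Nat.mul_le_mul_left _ (by omega)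
        _ ≤ X := Nat.mul_div_le _ _
    have hp1 : M * m - 1 + 1 = M * m := by omega
    refine ⟨by omega, ?_, fun i hi => ?_⟩
    · refine le_trans ?_ hXx
      exact_mod_cast (by omega : M * m - 1 ≤ X)
    · rw [hp1]
      obtain ⟨h1, h2⟩ := hm3 i hi
      refine ⟨omega_le hk h2, fun q hq hqd => ?_⟩
      have h3 := h1 q hq hqd
      have h4 : x ≤ 2 ^ (800 * k * (u * 2 ^ t)) := by
        have h5 : X + 1 ≤ 2 ^ (800 * k * (u * 2 ^ t)) :=
          (Nat.succ_le_of_lt hL2).trans (Nat.pow_le_pow_right (by norm_num) hB)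
        have h6 : ((X : ℝ) + 1) ≤ 2 ^ (800 * k * (u * 2 ^ t)) := by exact_mod_cast h5
        linarith
      have h5 : ((2 : ℝ) ^ (u * 2 ^ t)) ≤ q := by exact_mod_cast h3.le
      have hq1 : (1 : ℝ) ≤ q := by exact_mod_cast hq.one_lt.le
      calc x ≤ 2 ^ (800 * k * (u * 2 ^ t)) := h4
        _ = ((2 : ℝ) ^ (u * 2 ^ t)) ^ (800 * k) := by
            rw [← pow_mul]
            congr 1
            ring
        _ ≤ (q : ℝ) ^ (800 * k) := pow_le_pow_left₀ (by positivity) h5 _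
        _ ≤ (q : ℝ) ^ (1200 * k) := pow_le_pow_right₀ hq1 (by omega)
  have hinj : Set.InjOn (fun m => M * m - 1) (G : Set ℕ) := by
    intro m hm n hn hmn
    rw [mem_coe, hG, mem_GS] at hm hn
    have h1 : 3 ≤ M * m := by nlinarith [hm.2.1]
    have h2 : 3 ≤ M * n := by nlinarith [hn.2.1]
    have h3 : M * m = M * n := by
      simp only at hmn
      omega
    exact Nat.eq_of_mul_eq_mul_left (by omega) h3
  have hle : G.card ≤ S.ncard := by
    have h1 := hinj.ncard_image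
    rw [Set.ncard_coe_finset] at h1
    rw [← h1]
    refine Set.ncard_le_ncard ?_ hfin
    rintro _ ⟨m, hm, rfl⟩
    exact himg m hm
  have hle' : (G.card : ℝ) ≤ S.ncard := by exact_mod_cast hle
  refine le_trans ?_ (hcard.trans hle')
  have hxL : (2 : ℝ) ^ L ≤ x := le_trans (by exact_mod_cast hL1) hXx
  have hb := base_le hk hxL hA
  have hlx : 0 ≤ Real.log x := by
    refine Real.log_nonneg (le_trans ?_ hxL)
    exact one_le_pow₀ (by norm_num)
  have hlk : 0 ≤ Real.log ((k : ℝ) + 1) := Real.log_nonneg (by linarith)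
  have hb0 : 0 ≤ 1 / 2 ^ 15 * (k : ℝ) * Real.log (k + 1) / Real.log x := by positivity
  calc x * (1 / 2 ^ 15 * (k : ℝ) * Real.log (k + 1) / Real.log x) ^ k
      ≤ (X + 1) * (1 / 2 ^ (t + 23)) ^ k := by
        refine mul_le_mul hxX.le (pow_le_pow_left₀ hb0 hb k) (by positivity) (by positivity)
    _ = (X + 1) * (1 / 2 ^ ((t + 23) * k)) := by rw [one_div_pow, ← pow_mul]

end Pool.Agent.Lib.MP_c77da8_nt.AlmostPrimeChainsResult
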