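import Mathlib
import Pool.Agent.Lib.MP_c77da8_nt.LargeSieve

/-!
# An arithmetic large sieve inequality

If a finite set `A ⊆ [1, N]` misses at least `w` residue classes modulo each prime of some
disjoint blocks of primes, then `|A| ∏ (∑_{q in block} w / q) ≤ Q² + 4 π N`.
-/

set_option autoImplicit false

namespace Pool.Agent.Lib.MP_c77da8_nt

open Finset LargeSieve

/-- square modulus of `∑_{n ∈ A} e(n x)` -/
noncomputable def F1 (A : Finset ℕ) (x : ℝ) : ℝ := Fs A (fun _ => 1) x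

theorem F1_nonneg (A : Finset ℕ) (x : ℝ) : 0 ≤ F1 A x := Fs_nonneg _ _ _

theorem F1_eq (A : Finset ℕ) (x : ℝ) :
    F1 A x = ∑ m ∈ A, ∑ n ∈ A, Real.cos (2 * Real.pi * ((m : ℝ) - n) * x) := by
  unfold F1
  rw [Fs_eq]
  simp

theorem F1_zero (A : Finset ℕ) : F1 A 0 = (A.card : ℝ) ^ 2 := by
  rw [F1_eq]
  simp [sq]

theorem F1_add_int (A : Finset ℕ) (x : ℝ) (k : ℤ) : F1 A (x + k) = F1 A x := by
  rw [F1_eq, F1_eq]
  refine Finset.sum_congr rfl (fun m _ => Finset.sum_congr rfl (fun n _ => ?_))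
  rw [show 2 * Real.pi * ((m : ℝ) - n) * (x + k)
    = 2 * Real.pi * ((m : ℝ) - n) * x + (((m : ℤ) - n) * k : ℤ) * (2 * Real.pi) by push_cast; ring]
  exact Real.cos_add_int_mul_two_pi _ _

theorem cos_shift_sum (q : ℕ) (hq : 0 < q) (k : ℤ) (φ : ℝ) :
    ∑ b ∈ range q, Real.cos (φ + 2 * Real.pi * k * ((b : ℝ) / q))
      = if (q : ℤ) ∣ k then (q : ℝ) * Real.cos φ else 0 := by
  have hqr : (q : ℝ) ≠ 0 := by exact_mod_cast hq.ne'
  have hqc : (q : ℂ) ≠ 0 := by exact_mod_cast hq.ne'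
  split_ifs with h
  · obtain ⟨c, rfl⟩ := h
    have : ∀ b ∈ range q, Real.cos (φ + 2 * Real.pi * ((q * c : ℤ) : ℝ) * ((b : ℝ) / q))
        = Real.cos φ := by
      intro b _
      rw [show φ + 2 * Real.pi * ((q * c : ℤ) : ℝ) * ((b : ℝ) / q)
        = φ + ((c * b : ℤ) : ℝ) * (2 * Real.pi) by push_cast; field_simp]
      exact Real.cos_add_int_mul_two_pi _ _
    rw [Finset.sum_congr rfl this]
    simp
  · set ζ : ℂ := Complex.exp (2 * Real.pi * Complex.I * (k / q)) with hζ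
    have h1 : ∀ b : ℕ, Real.cos (φ + 2 * Real.pi * k * ((b : ℝ) / q))
        = (Complex.exp (φ * Complex.I) * ζ ^ b).re := by
      intro b
      rw [hζ, ← Complex.exp_nat_mul, ← Complex.exp_add]
      have : (φ : ℂ) * Complex.I + (b : ℂ) * (2 * Real.pi * Complex.I * (k / q))
          = ((φ + 2 * Real.pi * k * ((b : ℝ) / q) : ℝ) : ℂ) * Complex.I := by
        push_cast; ring
      rw [this, Complex.exp_ofReal_mul_I_re]
    simp_rw [h1]
    rw [← Complex.re_sum, ← Finset.mul_sum]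
    have hne : ζ ≠ 1 := by
      intro h2
      rw [hζ, Complex.exp_eq_one_iff] at h2
      obtain ⟨n, hn⟩ := h2
      apply h
      have hpi : (2 * Real.pi * Complex.I : ℂ) ≠ 0 := by
        simp [Real.pi_ne_zero, Complex.I_ne_zero]
      have h3 : (k : ℂ) / q = n := by
        have : (2 * Real.pi * Complex.I : ℂ) * (k / q) = (2 * Real.pi * Complex.I) * n := by
          rw [hn]; ring
        exact mul_left_cancel₀ hpi this
      rw [div_eq_iff hqc] at h3
      refine ⟨n, ?_⟩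
      have : (k : ℂ) = ((q * n : ℤ) : ℂ) := by rw [h3]; push_cast; ring
      exact_mod_cast this
    have hpow : ζ ^ q = 1 := by
      rw [hζ, ← Complex.exp_nat_mul]
      have : (q : ℂ) * (2 * Real.pi * Complex.I * (k / q)) = k * (2 * Real.pi * Complex.I) := by
        field_simp
      rw [this, Complex.exp_int_mul_two_pi_mul_I]
    rw [geom_sum_eq hne, hpow]
    simp

/-- the part of `A` in the residue class `h` modulo `q` -/
def cls (A : Finset ℕ) (q h : ℕ) : Finset ℕ := A.filter (fun n => n % q = h)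

theorem shift_sum (A : Finset ℕ) (q : ℕ) (hq : 0 < q) (x : ℝ) :
    ∑ b ∈ range q, F1 A (x + (b : ℝ) / q)
      = q * ∑ h ∈ A.image (fun n => n % q), F1 (cls A q h) x := by
  have h1 : ∑ b ∈ range q, F1 A (x + (b : ℝ) / q)
      = ∑ m ∈ A, ∑ n ∈ A, if (q : ℤ) ∣ (m : ℤ) - n then
          (q : ℝ) * Real.cos (2 * Real.pi * ((m : ℝ) - n) * x) else 0 := by
    simp_rw [F1_eq]
    rw [Finset.sum_comm]
    refine Finset.sum_congr rfl (fun m _ => ?_)
    rw [Finset.sum_comm]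
    refine Finset.sum_congr rfl (fun n _ => ?_)
    rw [← cos_shift_sum q hq]
    refine Finset.sum_congr rfl (fun b _ => ?_)
    congr 1
    push_cast
    ring
  rw [h1, Finset.mul_sum]
  have h2 : ∀ h ∈ A.image (fun n => n % q), (q : ℝ) * F1 (cls A q h) x
      = ∑ m ∈ A, if m % q = h then (∑ n ∈ A, if n % q = h then
          (q : ℝ) * Real.cos (2 * Real.pi * ((m : ℝ) - n) * x) else 0) else 0 := by
    intro h _
    rw [F1_eq]
    unfold cls
    rw [Finset.mul_sum, Finset.sum_filter]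
    refine Finset.sum_congr rfl (fun m _ => ?_)
    split_ifs with hm
    · rw [Finset.mul_sum, Finset.sum_filter]
    · rfl
  rw [Finset.sum_congr rfl h2]
  conv_rhs => rw [Finset.sum_comm]
  refine Finset.sum_congr rfl (fun m hm => ?_)
  rw [Finset.sum_ite_eq, if_pos (Finset.mem_image_of_mem _ hm)]
  refine Finset.sum_congr rfl (fun n _ => ?_)
  have : ((q : ℤ) ∣ (m : ℤ) - n) ↔ n % q = m % q := by
    rw [← Int.modEq_iff_dvd, Int.natCast_modEq_iff]
    rfl
  simp only [this]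

theorem F1_le (A : Finset ℕ) (q : ℕ) (x : ℝ) :
    F1 A x ≤ (A.image (fun n => n % q)).card * ∑ h ∈ A.image (fun n => n % q), F1 (cls A q h) x := by
  have hc : ∀ f : ℕ → ℝ, ∑ n ∈ A, f n
      = ∑ h ∈ A.image (fun n => n % q), ∑ n ∈ cls A q h, f n := by
    intro f
    unfold cls
    exact (Finset.sum_fiberwise_of_maps_to (fun n hn => Finset.mem_image_of_mem _ hn) f).symm
  have h1 : Cc A (fun _ => 1) x = ∑ h ∈ A.image (fun n => n % q), Cc (cls A q h) (fun _ => 1) x := by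
    unfold Cc; exact hc _
  have h2 : Ds A (fun _ => 1) x = ∑ h ∈ A.image (fun n => n % q), Ds (cls A q h) (fun _ => 1) x := by
    unfold Ds; exact hc _
  unfold F1 Fs
  rw [Finset.sum_add_distrib, mul_add, h1, h2]
  exact add_le_add sq_sum_le_card_mul_sum_sq sq_sum_le_card_mul_sum_sq

theorem per_prime (A : Finset ℕ) (q w : ℕ) (hq : 0 < q)
    (hw : (A.image (fun n => n % q)).card + w ≤ q) (x : ℝ) :
    (w : ℝ) / q * F1 A x ≤ ∑ b ∈ Ico 1 q, F1 A (x + (b : ℝ) / q) := by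
  have h1 := shift_sum A q hq x
  have h2 := F1_le A q x
  set T := ∑ h ∈ A.image (fun n => n % q), F1 (cls A q h) x with hT
  have hT0 : 0 ≤ T := Finset.sum_nonneg (fun _ _ => F1_nonneg _ _)
  have h3 : ∑ b ∈ range q, F1 A (x + (b : ℝ) / q)
      = F1 A x + ∑ b ∈ Ico 1 q, F1 A (x + (b : ℝ) / q) := by
    rw [Finset.range_eq_Ico, Finset.sum_eq_sum_Ico_succ_bot hq]
    simp
  have hqr : (0 : ℝ) < q := by exact_mod_cast hq
  have hcw : ((A.image (fun n => n % q)).card : ℝ) ≤ q - w := by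
    have : ((A.image (fun n => n % q)).card : ℝ) + w ≤ q := by exact_mod_cast hw
    linarith
  have h4 : F1 A x ≤ (q - w) * T := h2.trans (mul_le_mul_of_nonneg_right hcw hT0)
  have h5 : ∑ b ∈ Ico 1 q, F1 A (x + (b : ℝ) / q) = q * T - F1 A x := by linarith
  rw [h5, div_mul_eq_mul_div, div_le_iff₀ hqr]
  have hw0 : (0 : ℝ) ≤ w := Nat.cast_nonneg w
  have h6 : (w + q : ℝ) * F1 A x ≤ (w + q) * ((q - w) * T) :=
    mul_le_mul_of_nonneg_left h4 (by positivity)
  nlinarith [mul_nonneg (mul_nonneg hw0 hw0) hT0]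

/-- pairs `(q, b)` with `q ∈ B` and `1 ≤ b < q` -/
def J (B : Finset ℕ) : Finset (Σ _ : ℕ, ℕ) := B.sigma (fun q => Ico 1 q)

/-- cons as an embedding -/
def consEmb : ((Σ _ : ℕ, ℕ) × List (Σ _ : ℕ, ℕ)) ↪ List (Σ _ : ℕ, ℕ) :=
  ⟨fun p => p.1 :: p.2, by
    rintro ⟨a, l⟩ ⟨b, m⟩ h
    simp only [List.cons.injEq] at h
    exact Prod.ext h.1 h.2⟩

/-- tuples of pairs, one from each block -/
def I : List (Finset ℕ) → Finset (List (Σ _ : ℕ, ℕ))
  | [] => {[]}
  | B :: Bs => (J B ×ˢ I Bs).map consEmb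

theorem I_cons (B : Finset ℕ) (Bs : List (Finset ℕ)) :
    I (B :: Bs) = (J B ×ˢ I Bs).map consEmb := rfl

theorem mem_I_cons (B : Finset ℕ) (Bs : List (Finset ℕ)) (l : List (Σ _ : ℕ, ℕ)) :
    l ∈ I (B :: Bs) ↔ ∃ a t, l = a :: t ∧ a ∈ J B ∧ t ∈ I Bs := by
  rw [I_cons]
  simp only [mem_map, mem_product, consEmb]
  constructor
  · rintro ⟨⟨a, t⟩, ⟨h1, h2⟩, rfl⟩
    exact ⟨a, t, rfl, h1, h2⟩
  · rintro ⟨a, t, rfl, h1, h2⟩
    exact ⟨⟨a, t⟩, ⟨h1, h2⟩, rfl⟩

/-- the value `∑ b / q` of a tuple -/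
def v : List (Σ _ : ℕ, ℕ) → ℚ
  | [] => 0
  | a :: l => (a.2 : ℚ) / a.1 + v l

/-- the product of the moduli -/
def D : List (Σ _ : ℕ, ℕ) → ℕ
  | [] => 1
  | a :: l => a.1 * D l

theorem sum_I_cons (B : Finset ℕ) (Bs : List (Finset ℕ)) (f : List (Σ _ : ℕ, ℕ) → ℝ) :
    ∑ l ∈ I (B :: Bs), f l = ∑ q ∈ B, ∑ b ∈ Ico 1 q, ∑ l ∈ I Bs, f (⟨q, b⟩ :: l) := by
  rw [I_cons, Finset.sum_map, Finset.sum_product]
  unfold J
  rw [Finset.sum_sigma]
  rfl

/-- the weight `∑_{q ∈ B} w / q` of a block -/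
noncomputable def wt (w : ℕ) (B : Finset ℕ) : ℝ := ∑ q ∈ B, (w : ℝ) / (q : ℝ)

theorem wt_nonneg (w : ℕ) (B : Finset ℕ) : 0 ≤ wt w B :=
  Finset.sum_nonneg (fun _ _ => by positivity)

theorem lower (w : ℕ) (A : Finset ℕ) : ∀ (Bs : List (Finset ℕ)),
    (∀ B ∈ Bs, ∀ q ∈ B, 0 < q ∧ (A.image (fun n => n % q)).card + w ≤ q) → ∀ x : ℝ,
    (Bs.map (wt w)).prod * F1 A x ≤ ∑ l ∈ I Bs, F1 A (x + (v l : ℝ))
  | [], _, x => by simp [I, v]
  | B :: Bs, h, x => by
    rw [sum_I_cons]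
    have ih := lower w A Bs (fun B' hB' => h B' (List.mem_cons_of_mem _ hB'))
    have hp : 0 ≤ (Bs.map (wt w)).prod := by
      refine List.prod_nonneg (fun y hy => ?_)
      simp only [List.mem_map] at hy
      obtain ⟨B', _, rfl⟩ := hy
      exact wt_nonneg w B'
    rw [List.map_cons, List.prod_cons]
    calc wt w B * (Bs.map (wt w)).prod * F1 A x
        = (Bs.map (wt w)).prod * ∑ q ∈ B, (w : ℝ) / (q : ℝ) * F1 A x := by
          rw [← Finset.sum_mul, wt]; ring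
      _ ≤ (Bs.map (wt w)).prod *
            ∑ q ∈ B, ∑ b ∈ Ico 1 q, F1 A (x + (b : ℝ) / q) := by
          refine mul_le_mul_of_nonneg_left (Finset.sum_le_sum (fun q hq => ?_)) hp
          obtain ⟨h1, h2⟩ := h B (by simp) q hq
          exact per_prime A q w h1 h2 x
      _ = ∑ q ∈ B, ∑ b ∈ Ico 1 q, (Bs.map (wt w)).prod *
            F1 A (x + (b : ℝ) / q) := by
          rw [Finset.mul_sum]
          refine Finset.sum_congr rfl (fun q _ => ?_)
          rw [Finset.mul_sum]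
      _ ≤ _ := by
          refine Finset.sum_le_sum (fun q _ => Finset.sum_le_sum (fun b _ => ?_))
          refine (ih (x + (b : ℝ) / q)).trans (le_of_eq ?_)
          refine Finset.sum_congr rfl (fun l _ => ?_)
          congr 1
          simp only [v]
          push_cast
          ring

theorem v_den : ∀ (l : List (Σ _ : ℕ, ℕ)), (∀ a ∈ l, a.1 ≠ 0) → (v l).den ∣ D l
  | [], _ => by simp [v, D]
  | a :: l, h => by
    have h1 := v_den l (fun b hb => h b (List.mem_cons_of_mem _ hb))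
    have h2 : ((a.2 : ℚ) / a.1).den ∣ a.1 := by
      have := Rat.den_dvd (a.2 : ℤ) (a.1 : ℤ)
      rw [Rat.divInt_eq_div] at this
      push_cast at this
      exact_mod_cast this
    exact (Rat.add_den_dvd _ _).trans (Nat.mul_dvd_mul h2 h1)

theorem den_frac (q b : ℕ) (hq : q.Prime) (h1 : 1 ≤ b) (h2 : b < q) : ((b : ℚ) / q).den = q := by
  have hc : Nat.Coprime (b : ℤ).natAbs (q : ℤ).natAbs := by
    simp only [Int.natAbs_natCast]
    exact (Nat.coprime_of_lt_prime (by omega) h2 hq).symm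
  have := Rat.den_div_eq_of_coprime (a := (b : ℤ)) (b := (q : ℤ)) (by exact_mod_cast hq.pos) hc
  push_cast at this
  exact_mod_cast this

theorem den_one_sub {r s : ℚ} (hr : r.den = 1) : (r - s).den ∣ s.den := by
  have := Rat.sub_den_dvd r s
  rwa [hr, one_mul] at this

theorem den_sub_one {r s : ℚ} (hs : s.den = 1) : (r - s).den ∣ r.den := by
  have := Rat.sub_den_dvd r s
  rwa [hs, mul_one] at this

theorem mem_J (B : Finset ℕ) (a : Σ _ : ℕ, ℕ) : a ∈ J B ↔ a.1 ∈ B ∧ 1 ≤ a.2 ∧ a.2 < a.1 := by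
  unfold J
  simp [Finset.mem_sigma]

theorem I_mem : ∀ (Bs : List (Finset ℕ)) (l : List (Σ _ : ℕ, ℕ)), l ∈ I Bs → ∀ a ∈ l,
    ∃ B ∈ Bs, a ∈ J B
  | [], l, hl, a, ha => by
    simp only [I, Finset.mem_singleton] at hl
    subst hl
    simp at ha
  | B :: Bs, l, hl, a, ha => by
    rw [mem_I_cons] at hl
    obtain ⟨b, t, rfl, h1, h2⟩ := hl
    rcases List.mem_cons.mp ha with rfl | ha
    · exact ⟨B, by simp, h1⟩
    · obtain ⟨B', h3, h4⟩ := I_mem Bs t h2 a ha
      exact ⟨B', List.mem_cons_of_mem _ h3, h4⟩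

theorem D_le (z : ℕ) (hz : 0 < z) : ∀ (Bs : List (Finset ℕ)) (l : List (Σ _ : ℕ, ℕ)), l ∈ I Bs →
    (∀ B ∈ Bs, ∀ q ∈ B, q ≤ z) → D l ≤ z ^ Bs.length
  | [], l, hl, _ => by
    simp only [I, Finset.mem_singleton] at hl
    subst hl
    simp [D]
  | B :: Bs, l, hl, h => by
    rw [mem_I_cons] at hl
    obtain ⟨b, t, rfl, h1, h2⟩ := hl
    have ih := D_le z hz Bs t h2 (fun B' hB' => h B' (List.mem_cons_of_mem _ hB'))
    have h3 := h B (by simp) b.1 ((mem_J B b).mp h1).1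
    rw [List.length_cons, pow_succ']
    exact Nat.mul_le_mul h3 ih

theorem D_ne_zero : ∀ m : List (Σ _ : ℕ, ℕ), (∀ a ∈ m, a.1 ≠ 0) → D m ≠ 0
  | [], _ => by simp [D]
  | a :: t, h => by
    simp only [D]
    exact Nat.mul_ne_zero (h a (by simp))
      (D_ne_zero t (fun b hb => h b (List.mem_cons_of_mem _ hb)))

theorem D_pos (Bs : List (Finset ℕ)) (hp : ∀ B ∈ Bs, ∀ q ∈ B, q.Prime)
    (l : List (Σ _ : ℕ, ℕ)) (hl : l ∈ I Bs) : ∀ a ∈ l, a.1 ≠ 0 := by
  intro a ha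
  obtain ⟨B, hB, h⟩ := I_mem Bs l hl a ha
  exact (hp B hB a.1 ((mem_J B a).mp h).1).pos.ne'

theorem coprime_D (q : ℕ) (hq : q.Prime) : ∀ (Bs : List (Finset ℕ)) (l : List (Σ _ : ℕ, ℕ)),
    l ∈ I Bs → (∀ B ∈ Bs, ∀ q ∈ B, q.Prime) → (∀ B ∈ Bs, q ∉ B) → Nat.Coprime q (D l)
  | [], l, hl, _, _ => by
    simp only [I, Finset.mem_singleton] at hl
    subst hl
    simp [D]
  | B :: Bs, l, hl, hp, h => by
    rw [mem_I_cons] at hl
    obtain ⟨b, t, rfl, h1, h2⟩ := hl
    have ih := coprime_D q hq Bs t h2 (fun B' hB' => hp B' (List.mem_cons_of_mem _ hB'))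
      (fun B' hB' => h B' (List.mem_cons_of_mem _ hB'))
    have h3 := ((mem_J B b).mp h1).1
    have h4 := hp B (by simp) b.1 h3
    refine Nat.Coprime.mul_right ?_ ih
    rw [Nat.coprime_primes hq h4]
    rintro rfl
    exact h B (by simp) h3

theorem inj_aux : ∀ (Bs : List (Finset ℕ)), (∀ B ∈ Bs, ∀ q ∈ B, q.Prime) →
    Bs.Pairwise Disjoint → ∀ l ∈ I Bs, ∀ l' ∈ I Bs, (v l - v l').den = 1 → l = l'
  | [], _, _, l, hl, l', hl', _ => by
    simp only [I, Finset.mem_singleton] at hl hl'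
    rw [hl, hl']
  | B :: Bs, hp, hd, l, hl, l', hl', h => by
    rw [mem_I_cons] at hl hl'
    obtain ⟨a, t, rfl, ha, ht⟩ := hl
    obtain ⟨a', t', rfl, ha', ht'⟩ := hl'
    have hp' : ∀ B ∈ Bs, ∀ q ∈ B, q.Prime := fun B' hB' => hp B' (List.mem_cons_of_mem _ hB')
    rw [List.pairwise_cons] at hd
    obtain ⟨hd1, hd2⟩ := hd
    obtain ⟨ha1, ha2, ha3⟩ := (mem_J B a).mp ha
    obtain ⟨ha1', ha2', ha3'⟩ := (mem_J B a').mp ha'
    have hpa := hp B (by simp) a.1 ha1
    have hpa' := hp B (by simp) a'.1 ha1'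
    have hnot : ∀ q ∈ B, ∀ B' ∈ Bs, q ∉ B' := fun q hq B' hB' hq' =>
      (Finset.disjoint_left.mp (hd1 B' hB')) hq hq'
    set r : ℚ := (a.2 : ℚ) / a.1 - (a'.2 : ℚ) / a'.1 with hr
    have hr2 : r = (v (a :: t) - v (a' :: t')) - (v t - v t') := by
      simp only [v, hr]; ring
    have hden1 : r.den ∣ D t * D t' := by
      rw [hr2]
      refine (den_one_sub h).trans ((Rat.sub_den_dvd _ _).trans (Nat.mul_dvd_mul ?_ ?_))
      · exact v_den t (D_pos Bs hp' t ht)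
      · exact v_den t' (D_pos Bs hp' t' ht')
    have hden2 : r.den ∣ a.1 * a'.1 := by
      have := Rat.sub_den_dvd ((a.2 : ℚ) / a.1) ((a'.2 : ℚ) / a'.1)
      rwa [den_frac _ _ hpa ha2 ha3, den_frac _ _ hpa' ha2' ha3'] at this
    have hcop : Nat.Coprime (a.1 * a'.1) (D t * D t') := by
      refine Nat.Coprime.mul_left ?_ ?_
      · exact Nat.Coprime.mul_right (coprime_D a.1 hpa Bs t ht hp' (hnot _ ha1))
          (coprime_D a.1 hpa Bs t' ht' hp' (hnot _ ha1))
      · exact Nat.Coprime.mul_right (coprime_D a'.1 hpa' Bs t ht hp' (hnot _ ha1'))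
          (coprime_D a'.1 hpa' Bs t' ht' hp' (hnot _ ha1'))
    have hr1 : r.den = 1 := Nat.eq_one_of_dvd_coprimes hcop hden2 hden1
    have h1 : a.1 = a'.1 := by
      have h3 : ((a.2 : ℚ) / a.1).den ∣ a'.1 := by
        have h4 : ((a.2 : ℚ) / a.1) = (r + (a'.2 : ℚ) / a'.1) := by rw [hr]; ring
        rw [h4]
        have h5 := Rat.add_den_dvd r ((a'.2 : ℚ) / a'.1)
        rwa [hr1, one_mul, den_frac _ _ hpa' ha2' ha3'] at h5
      rw [den_frac _ _ hpa ha2 ha3] at h3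
      exact (Nat.prime_dvd_prime_iff_eq hpa hpa').mp h3
    have h2 : a.2 = a'.2 := by
      have h3 : r = ((a.2 : ℤ) - (a'.2 : ℤ) : ℤ) / (a.1 : ℚ) := by
        rw [hr, h1]; push_cast; ring
      have h4 : (r.num : ℚ) = r := by
        have := Rat.num_div_den r
        rw [hr1] at this
        simpa using this
      have hq0 : (a.1 : ℚ) ≠ 0 := by exact_mod_cast hpa.pos.ne'
      have h5 : ((a.2 : ℤ) - (a'.2 : ℤ) : ℤ) = r.num * (a.1 : ℤ) := by
        have h6 : (((a.2 : ℤ) - (a'.2 : ℤ) : ℤ) : ℚ) = r * a.1 := by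
          rw [h3]; field_simp
        rw [← h4] at h6
        exact_mod_cast h6
      have h6 : (a.1 : ℤ) ∣ (a.2 : ℤ) - (a'.2 : ℤ) := ⟨r.num, by rw [h5]; ring⟩
      have h7 : (a.2 : ℤ) - (a'.2 : ℤ) = 0 := by
        refine Int.eq_zero_of_abs_lt_dvd h6 ?_
        rw [abs_lt]
        constructor
        · have : (a'.2 : ℤ) < a.1 := by rw [h1]; exact_mod_cast ha3'
          have h8 : (0 : ℤ) ≤ a.2 := by positivity
          linarith
        · have : (a.2 : ℤ) < a.1 := by exact_mod_cast ha3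
          have h8 : (0 : ℤ) ≤ a'.2 := by positivity
          linarith
      have : (a.2 : ℤ) = a'.2 := by linarith
      exact_mod_cast this
    have haa : a = a' := by
      obtain ⟨x, y⟩ := a
      obtain ⟨x', y'⟩ := a'
      simp only at h1 h2
      subst h1 h2
      rfl
    subst haa
    have ht2 : (v t - v t').den = 1 := by
      have : v t - v t' = v (a :: t) - v (a :: t') := by simp only [v]; ring
      rw [this]; exact h
    rw [inj_aux Bs hp' hd2 t ht t' ht' ht2]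

theorem nonint (B : Finset ℕ) (Bs : List (Finset ℕ)) (hp : ∀ B' ∈ B :: Bs, ∀ q ∈ B', q.Prime)
    (hd : (B :: Bs).Pairwise Disjoint) (l : List (Σ _ : ℕ, ℕ)) (hl : l ∈ I (B :: Bs)) :
    (v l).den ≠ 1 := by
  intro h
  rw [mem_I_cons] at hl
  obtain ⟨a, t, rfl, ha, ht⟩ := hl
  have hp' : ∀ B ∈ Bs, ∀ q ∈ B, q.Prime := fun B' hB' => hp B' (List.mem_cons_of_mem _ hB')
  rw [List.pairwise_cons] at hd
  obtain ⟨ha1, ha2, ha3⟩ := (mem_J B a).mp ha
  have hpa := hp B (by simp) a.1 ha1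
  have h1 : (a.2 : ℚ) / a.1 = v (a :: t) - v t := by simp only [v]; ring
  have h2 : ((a.2 : ℚ) / a.1).den ∣ D t := by
    rw [h1]
    exact (den_one_sub h).trans (v_den t (D_pos Bs hp' t ht))
  rw [den_frac _ _ hpa ha2 ha3] at h2
  have h3 := coprime_D a.1 hpa Bs t ht hp' (fun B' hB' hq' =>
    (Finset.disjoint_left.mp (hd.1 B' hB')) ha1 hq')
  have h4 := Nat.Coprime.eq_one_of_dvd h3 h2
  exact hpa.one_lt.ne' h4

theorem rat_lower (r : ℚ) (hr : r ≠ 0) (M : ℕ) (hM : r.den ≤ M) : 1 / (M : ℝ) ≤ |(r : ℝ)| := by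
  have h1 : (0 : ℝ) < r.den := by exact_mod_cast r.den_pos
  have h2 : (1 : ℝ) / M ≤ 1 / r.den :=
    one_div_le_one_div_of_le h1 (by exact_mod_cast hM)
  refine h2.trans ?_
  have h3 : (r : ℝ) = (r.num : ℝ) / r.den := by
    exact_mod_cast (Rat.cast_def r : ((r : ℚ) : ℝ) = (r.num : ℝ) / (r.den : ℝ))
  rw [h3, abs_div, abs_of_pos h1]
  refine div_le_div_of_nonneg_right ?_ h1.le
  have h4 : r.num ≠ 0 := Rat.num_ne_zero.mpr hr
  have h5 : (1 : ℤ) ≤ |r.num| := Int.one_le_abs h4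
  exact_mod_cast h5

/-- The large sieve inequality for blocks of primes. -/
theorem sieve_blocks (A : Finset ℕ) (N : ℝ) (hN : 0 < N) (hA : ∀ n ∈ A, (n : ℝ) ≤ N) (z w : ℕ)
    (B : Finset ℕ) (Bs : List (Finset ℕ)) (hp : ∀ B' ∈ B :: Bs, ∀ q ∈ B', q.Prime)
    (hd : (B :: Bs).Pairwise Disjoint) (hz : ∀ B' ∈ B :: Bs, ∀ q ∈ B', q ≤ z) (hz0 : 0 < z)
    (hocc : ∀ B' ∈ B :: Bs, ∀ q ∈ B', (A.image (fun n => n % q)).card + w ≤ q) :
    ((B :: Bs).map (wt w)).prod * (A.card : ℝ) ≤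
      ((z : ℝ) ^ (B :: Bs).length) ^ 2 + 4 * Real.pi * N := by
  set Q : ℕ := z ^ (B :: Bs).length with hQ
  have hQ0 : 0 < Q := pow_pos hz0 _
  have hQr : (1 : ℝ) ≤ Q := by exact_mod_cast hQ0
  have hQr0 : (0 : ℝ) < Q := by linarith
  set y : List (Σ _ : ℕ, ℕ) → ℚ := fun l => Int.fract (v l) with hy
  have hyd : ∀ l ∈ I (B :: Bs), (y l).den ≤ Q := by
    intro l hl
    have h1 : (y l).den = (v l).den := by
      rw [hy]; exact Rat.den_intFract _
    rw [h1]
    exact (Nat.le_of_dvd (Nat.pos_of_ne_zero (D_ne_zero l (D_pos _ hp l hl)))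
      (v_den l (D_pos _ hp l hl))).trans (D_le z hz0 _ l hl hz)
  have hy0 : ∀ l, 0 ≤ y l := fun l => Int.fract_nonneg _
  have hy1 : ∀ l, y l < 1 := fun l => Int.fract_lt_one _
  have hyne : ∀ l ∈ I (B :: Bs), y l ≠ 0 := by
    intro l hl h
    apply nonint B Bs hp hd l hl
    have h1 : v l = ((⌊v l⌋ : ℤ) : ℚ) := by
      have := Int.floor_add_fract (v l)
      have h2 : Int.fract (v l) = 0 := h
      rw [h2, add_zero] at this
      exact this.symm
    rw [h1]
    exact Rat.den_intCast _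
  have key := large_sieve (I (B :: Bs)) (fun l => (y l : ℝ)) ((Q : ℝ) ^ 2)⁻¹ (by positivity)
    ?_ ?_ ?_ A (fun _ => 1) N hN hA
  · have h1 : ∑ l ∈ I (B :: Bs), Fs A (fun _ => 1) (y l : ℝ)
        = ∑ l ∈ I (B :: Bs), F1 A (0 + (v l : ℝ)) := by
      refine Finset.sum_congr rfl (fun l _ => ?_)
      change F1 A (y l : ℝ) = _
      have h2 : (y l : ℝ) = 0 + (v l : ℝ) + ((-⌊v l⌋ : ℤ) : ℝ) := by
        rw [hy]
        simp only [Int.fract]
        push_cast
        ring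
      rw [h2, F1_add_int]
    rw [h1] at key
    have h2 := lower w A (B :: Bs) (fun B' hB' q hq => ⟨(hp B' hB' q hq).pos, hocc B' hB' q hq⟩) 0
    have h3 := h2.trans key
    rw [F1_zero, inv_inv] at h3
    simp only [one_pow, Finset.sum_const, nsmul_eq_mul, mul_one] at h3
    rcases Nat.eq_zero_or_pos A.card with h0 | h0
    · rw [h0]
      have := Real.pi_pos
      simp only [Nat.cast_zero, mul_zero]
      positivity
    · have h4 : (0 : ℝ) < A.card := by exact_mod_cast h0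
      have h5 : ((B :: Bs).map (wt w)).prod * (A.card : ℝ) * A.card
          ≤ ((Q : ℝ) ^ 2 + 4 * Real.pi * N) * A.card := by
        calc _ = ((B :: Bs).map (wt w)).prod * (A.card : ℝ) ^ 2 := by ring
          _ ≤ _ := h3
      have h6 := le_of_mul_le_mul_right h5 h4
      rw [hQ] at h6
      push_cast at h6
      exact h6
  · intro l hl
    have h1 := rat_lower (y l) (hyne l hl) Q (hyd l hl)
    rw [abs_of_nonneg (by exact_mod_cast hy0 l)] at h1
    refine le_trans ?_ h1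
    rw [← one_div, div_div]
    exact one_div_le_one_div_of_le hQr0 (by nlinarith)
  · intro l hl
    have hne : (1 - y l) ≠ 0 := by
      have := hy1 l
      intro h
      linarith
    have hd' : (1 - y l).den ≤ Q := by
      have h1 : (1 - y l).den ∣ (y l).den := den_one_sub rfl
      exact (Nat.le_of_dvd (y l).den_pos h1).trans (hyd l hl)
    have h1 := rat_lower (1 - y l) hne Q hd'
    push_cast at h1
    have h2 : (y l : ℝ) < 1 := by exact_mod_cast hy1 l
    rw [abs_of_nonneg (by linarith)] at h1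
    have h3 : ((Q : ℝ) ^ 2)⁻¹ / 2 ≤ 1 / Q := by
      rw [← one_div, div_div]
      exact one_div_le_one_div_of_le hQr0 (by nlinarith)
    linarith
  · intro l hl l' hl' hne
    have hne' : y l - y l' ≠ 0 := by
      intro h
      apply hne
      refine inj_aux _ hp hd l hl l' hl' ?_
      have h1 : v l - v l' = ((⌊v l⌋ - ⌊v l'⌋ : ℤ) : ℚ) := by
        have e1 := Int.floor_add_fract (v l)
        have e2 := Int.floor_add_fract (v l')
        have e3 : Int.fract (v l) = Int.fract (v l') := sub_eq_zero.mp h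
        push_cast
        linarith
      rw [h1]
      exact Rat.den_intCast _
    have hd' : (y l - y l').den ≤ Q ^ 2 := by
      have h1 := Rat.sub_den_dvd (y l) (y l')
      have h2 := Nat.le_of_dvd (Nat.mul_pos (y l).den_pos (y l').den_pos) h1
      refine h2.trans ?_
      rw [sq]
      exact Nat.mul_le_mul (hyd l hl) (hyd l' hl')
    have h1 := rat_lower (y l - y l') hne' (Q ^ 2) hd'
    push_cast at h1
    rwa [← one_div]

end Pool.Agent.Lib.MP_c77da8_nt
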