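import Mathlib
import Pool.Agent.Lib.MP_c77da8_nt.Arith

/-!
# Cunningham chains and the large sieve
-/

set_option autoImplicit false

namespace Pool.Agent.Lib.MP_c77da8_nt

open Finset LargeSieve

theorem exists_block (f : ℕ → ℝ) (α τ : ℝ) (hα : 0 ≤ α) (hτ : 0 ≤ τ) (P : Finset ℕ) :
    (∀ q ∈ P, 0 ≤ f q ∧ f q ≤ α) → τ ≤ ∑ q ∈ P, f q →
    ∃ B ⊆ P, τ ≤ ∑ q ∈ B, f q ∧ ∑ q ∈ B, f q ≤ τ + α := by
  induction P using Finset.induction_on with
  | empty =>
    intro _ h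
    exact ⟨∅, Finset.Subset.refl _, h, by simp; linarith⟩
  | insert a P ha ih =>
    intro hf h
    by_cases h1 : τ ≤ ∑ q ∈ P, f q
    · obtain ⟨B, hB, h2, h3⟩ := ih (fun q hq => hf q (Finset.mem_insert_of_mem hq)) h1
      exact ⟨B, hB.trans (Finset.subset_insert _ _), h2, h3⟩
    · refine ⟨insert a P, Finset.Subset.refl _, h, ?_⟩
      rw [Finset.sum_insert ha]
      have := (hf a (Finset.mem_insert_self _ _)).2
      linarith [not_le.mp h1]

theorem exists_blocks (f : ℕ → ℝ) (α τ : ℝ) (hα : 0 ≤ α) (hτ : 0 ≤ τ) : ∀ (k : ℕ) (P : Finset ℕ),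
    (∀ q ∈ P, 0 ≤ f q ∧ f q ≤ α) → (k : ℝ) * (τ + α) ≤ ∑ q ∈ P, f q →
    ∃ Bs : List (Finset ℕ), Bs.length = k ∧ (∀ B ∈ Bs, B ⊆ P ∧ τ ≤ ∑ q ∈ B, f q) ∧
      Bs.Pairwise Disjoint
  | 0, P, _, _ => ⟨[], rfl, by simp, by simp⟩
  | k + 1, P, hf, h => by
    have h1 : τ ≤ ∑ q ∈ P, f q := by
      push_cast at h
      have : (0 : ℝ) ≤ k * (τ + α) := by positivity
      linarith
    obtain ⟨B, hB, h2, h3⟩ := exists_block f α τ hα hτ P hf h1
    have h4 : ∑ q ∈ P, f q = ∑ q ∈ P \ B, f q + ∑ q ∈ B, f q := (Finset.sum_sdiff hB).symm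
    obtain ⟨Bs, h5, h6, h7⟩ := exists_blocks f α τ hα hτ k (P \ B)
      (fun q hq => hf q (Finset.mem_sdiff.mp hq).1) (by push_cast at h; linarith)
    refine ⟨B :: Bs, by simp [h5], ?_, ?_⟩
    · intro B' hB'
      rcases List.mem_cons.mp hB' with rfl | hB'
      · exact ⟨hB, h2⟩
      · exact ⟨(h6 B' hB').1.trans Finset.sdiff_subset, (h6 B' hB').2⟩
    · rw [List.pairwise_cons]
      refine ⟨fun B' hB' => ?_, h7⟩
      exact (Finset.disjoint_sdiff).mono_right (h6 B' hB').1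

theorem pow_le_list_prod (c : ℝ) (hc : 0 ≤ c) : ∀ (l : List ℝ), (∀ y ∈ l, c ≤ y) →
    c ^ l.length ≤ l.prod
  | [], _ => by simp
  | a :: l, h => by
    rw [List.length_cons, List.prod_cons, pow_succ']
    exact mul_le_mul (h a (by simp)) (pow_le_list_prod c hc l
      (fun y hy => h y (List.mem_cons_of_mem _ hy))) (pow_nonneg hc _)
      (hc.trans (h a (by simp)))

/-- The large sieve with blocks chosen by total weight. -/
theorem sieve_final (A : Finset ℕ) (N : ℝ) (hN : 0 < N) (hA : ∀ n ∈ A, (n : ℝ) ≤ N) (z w : ℕ)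
    (P : Finset ℕ) (hp : ∀ q ∈ P, q.Prime) (hz : ∀ q ∈ P, q ≤ z) (hz0 : 0 < z)
    (hocc : ∀ q ∈ P, (A.image (fun n => n % q)).card + w ≤ q)
    (k : ℕ) (hk : 1 ≤ k) (α τ : ℝ) (hα : ∀ q ∈ P, 1 / (q : ℝ) ≤ α) (hα0 : 0 ≤ α) (hτ : 0 ≤ τ)
    (hsum : (k : ℝ) * (τ + α) ≤ ∑ q ∈ P, 1 / (q : ℝ)) :
    ((w : ℝ) * τ) ^ k * (A.card : ℝ) ≤ ((z : ℝ) ^ k) ^ 2 + 4 * Real.pi * N := by
  obtain ⟨Bs, h1, h2, h3⟩ := exists_blocks (fun q => 1 / (q : ℝ)) α τ hα0 hτ k P
    (fun q hq => ⟨by positivity, hα q hq⟩) hsum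
  match Bs, h1, h2, h3 with
  | [], h1, _, _ =>
    simp at h1
    omega
  | B :: Bs, h1, h2, h3 =>
    have key := sieve_blocks A N hN hA z w B Bs
      (fun B' hB' q hq => hp q ((h2 B' hB').1 hq)) h3
      (fun B' hB' q hq => hz q ((h2 B' hB').1 hq)) hz0
      (fun B' hB' q hq => hocc q ((h2 B' hB').1 hq))
    rw [h1] at key
    refine le_trans ?_ key
    refine mul_le_mul_of_nonneg_right ?_ (by positivity)
    have h4 : ((B :: Bs).map (wt w)).length = k := by rw [List.length_map, h1]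
    rw [← h4]
    refine pow_le_list_prod _ (by positivity) _ ?_
    intro y hy
    rw [List.mem_map] at hy
    obtain ⟨B', hB', rfl⟩ := hy
    have h5 := (h2 B' hB').2
    unfold wt
    calc (w : ℝ) * τ ≤ w * ∑ q ∈ B', 1 / (q : ℝ) := mul_le_mul_of_nonneg_left h5 (by positivity)
      _ = ∑ q ∈ B', (w : ℝ) / q := by
        rw [Finset.mul_sum]
        refine Finset.sum_congr rfl (fun q _ => ?_)
        ring

theorem isOfFinOrder_two (q : ℕ) (hq : q.Prime) (h3 : 3 ≤ q) : IsOfFinOrder (2 : ZMod q) := by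
  have : Fact q.Prime := ⟨hq⟩
  rw [isOfFinOrder_iff_pow_eq_one]
  refine ⟨q - 1, by omega, ZMod.pow_card_sub_one_eq_one ?_⟩
  intro h
  have h2 : ((2 : ℕ) : ZMod q) = 0 := by exact_mod_cast h
  rw [ZMod.natCast_eq_zero_iff] at h2
  have := Nat.le_of_dvd (by norm_num) h2
  omega

theorem two_ne_zero' (q : ℕ) (h3 : 3 ≤ q) : (2 : ZMod q) ≠ 0 := by
  intro h
  have h2 : ((2 : ℕ) : ZMod q) = 0 := by exact_mod_cast h
  rw [ZMod.natCast_eq_zero_iff] at h2
  have := Nat.le_of_dvd (by norm_num) h2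
  omega

theorem card_primeFactors_lt (d : ℕ) (hd : 1 ≤ d) : (2 ^ d - 1).primeFactors.card ≤ d := by
  have hpos : 0 < 2 ^ d - 1 := by
    have : 2 ^ 1 ≤ 2 ^ d := Nat.pow_le_pow_right (by norm_num) hd
    omega
  have h1 : 2 ^ (2 ^ d - 1).primeFactors.card ≤ ∏ p ∈ (2 ^ d - 1).primeFactors, p := by
    rw [← Finset.prod_const]
    exact Finset.prod_le_prod' (fun p hp => (Nat.prime_of_mem_primeFactors hp).two_le)
  have h2 : ∏ p ∈ (2 ^ d - 1).primeFactors, p ≤ 2 ^ d - 1 :=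
    Nat.le_of_dvd hpos (Nat.prod_primeFactors_dvd _)
  have h3 : 2 ^ (2 ^ d - 1).primeFactors.card ≤ 2 ^ d := by omega
  exact (Nat.pow_le_pow_iff_right (by norm_num)).mp h3

/-- few primes have a small order of `2` -/
theorem card_small_order (S : Finset ℕ) (hS : ∀ q ∈ S, q.Prime ∧ 3 ≤ q) (w : ℕ) :
    (S.filter (fun q => orderOf (2 : ZMod q) < w)).card ≤ w * w := by
  have h1 : S.filter (fun q => orderOf (2 : ZMod q) < w)
      ⊆ (Ico 1 w).biUnion (fun d => (2 ^ d - 1).primeFactors) := by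
    intro q hq
    rw [mem_filter] at hq
    obtain ⟨hqS, hqo⟩ := hq
    obtain ⟨hqp, hq3⟩ := hS q hqS
    rw [mem_biUnion]
    have hfin := isOfFinOrder_two q hqp hq3
    have hpos : 0 < orderOf (2 : ZMod q) := hfin.orderOf_pos
    refine ⟨orderOf (2 : ZMod q), by rw [mem_Ico]; omega, ?_⟩
    have h2 : 1 ≤ 2 ^ orderOf (2 : ZMod q) := Nat.one_le_two_pow
    rw [Nat.mem_primeFactors]
    refine ⟨hqp, ?_, ?_⟩
    · rw [← ZMod.natCast_eq_zero_iff, Nat.cast_sub h2]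
      push_cast
      rw [pow_orderOf_eq_one, sub_self]
    · have : 2 ^ 1 ≤ 2 ^ orderOf (2 : ZMod q) := Nat.pow_le_pow_right (by norm_num) hpos
      omega
  refine (Finset.card_le_card h1).trans ?_
  refine Finset.card_biUnion_le.trans ?_
  calc ∑ d ∈ Ico 1 w, (2 ^ d - 1).primeFactors.card ≤ ∑ d ∈ Ico 1 w, w := by
        refine Finset.sum_le_sum (fun d hd => ?_)
        rw [mem_Ico] at hd
        exact (card_primeFactors_lt d hd.1).trans hd.2.le
    _ ≤ w * w := by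
        rw [Finset.sum_const, smul_eq_mul, Nat.card_Ico]
        exact Nat.mul_le_mul_right _ (by omega)

/-- the sifted set: the `n ≤ X`, `n > z + 1`, for which `2^i n - 1` is prime for all `i < L` -/
def sifted (X z L : ℕ) : Finset ℕ :=
  (Icc 1 X).filter (fun n => z + 1 < n ∧ ∀ i < L, (2 ^ i * n - 1).Prime)

theorem sifted_occ (X z L w : ℕ) (hw : w ≤ L) (q : ℕ) (hq : q.Prime) (h3 : 3 ≤ q) (hqz : q ≤ z)
    (hord : w ≤ orderOf (2 : ZMod q)) :
    ((sifted X z L).image (fun n => n % q)).card + w ≤ q := by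
  have : Fact q.Prime := ⟨hq⟩
  have : NeZero q := ⟨hq.pos.ne'⟩
  set R : Finset ℕ := (range w).image (fun i => (((2 : ZMod q) ^ i)⁻¹).val) with hR
  have hRcard : R.card = w := by
    rw [hR, Finset.card_image_of_injOn, card_range]
    intro i hi j hj hij
    simp only [coe_range, Set.mem_Iio] at hi hj
    have h1 : ((2 : ZMod q) ^ i)⁻¹ = ((2 : ZMod q) ^ j)⁻¹ := ZMod.val_injective q hij
    have h2 : (2 : ZMod q) ^ i = (2 : ZMod q) ^ j := inv_injective h1
    exact pow_injOn_Iio_orderOf (Set.mem_Iio.mpr (by omega)) (Set.mem_Iio.mpr (by omega)) h2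
  have hdis : Disjoint ((sifted X z L).image (fun n => n % q)) R := by
    rw [Finset.disjoint_left]
    intro r hr hr'
    rw [mem_image] at hr
    rw [hR, mem_image] at hr'
    obtain ⟨n, hn, rfl⟩ := hr
    obtain ⟨i, hi, hi'⟩ := hr'
    rw [mem_range] at hi
    unfold sifted at hn
    rw [mem_filter] at hn
    obtain ⟨_, hzn, hprime⟩ := hn
    have h1 := hprime i (by omega)
    have h2 : (n : ZMod q) = ((2 : ZMod q) ^ i)⁻¹ := by
      have : ((n % q : ℕ) : ZMod q) = ((2 : ZMod q) ^ i)⁻¹ := by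
        rw [← hi', ZMod.natCast_val, ZMod.cast_id]
      rw [← this, ZMod.natCast_mod]
    have hne : ((2 : ZMod q) ^ i) ≠ 0 := pow_ne_zero _ (two_ne_zero' q h3)
    have h4 : 1 ≤ 2 ^ i * n := Nat.one_le_iff_ne_zero.mpr (Nat.mul_ne_zero (by positivity) (by omega))
    have h5 : q ∣ 2 ^ i * n - 1 := by
      rw [← ZMod.natCast_eq_zero_iff, Nat.cast_sub h4]
      push_cast
      rw [h2, mul_inv_cancel₀ hne, sub_self]
    have h6 : q = 2 ^ i * n - 1 := (Nat.prime_dvd_prime_iff_eq hq h1).mp h5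
    have h7 : n ≤ 2 ^ i * n := Nat.le_mul_of_pos_left _ (by positivity)
    omega
  have hsub : ((sifted X z L).image (fun n => n % q)) ∪ R ⊆ range q := by
    intro r hr
    rw [mem_union] at hr
    rw [mem_range]
    rcases hr with hr | hr
    · rw [mem_image] at hr
      obtain ⟨n, _, rfl⟩ := hr
      exact Nat.mod_lt _ hq.pos
    · rw [hR, mem_image] at hr
      obtain ⟨i, _, rfl⟩ := hr
      exact ZMod.val_lt _
  have := Finset.card_le_card hsub
  rw [Finset.card_union_of_disjoint hdis, hRcard, card_range] at this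
  exact this

end Pool.Agent.Lib.MP_c77da8_nt
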