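import Mathlib
import Pool.Agent.Lib.MP_c77da8_nt.Chains
import Pool.Agent.Lib.MP_c77da8_nt.Cheb

/-!
# The main upper bound for the number of starting points of long chains
-/

set_option autoImplicit false

namespace Pool.Agent.Lib.MP_c77da8_nt

open Finset LargeSieve Filter

theorem log_four_lt : Real.log 4 < 3 / 2 := by
  have h4 : Real.log 4 = 2 * Real.log 2 := by
    rw [show (4 : ℝ) = 2 ^ 2 by norm_num, Real.log_pow]; norm_num
  have := Real.log_two_lt_d9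
  linarith

/-- the primes in `(4^a, 4^b]` -/
def PP (a b : ℕ) : Finset ℕ := (Ioc (4 ^ a) (4 ^ b)).filter Nat.Prime

theorem recip_one : ∃ J0 : ℕ, ∀ j : ℕ, J0 ≤ j → 1 / (6 * ((j : ℝ) + 1)) ≤
    ∑ q ∈ PP j (j + 1), 1 / (q : ℝ) := by
  have h1 := Cheb.card_P4
  have h2 : Tendsto (fun j : ℕ => 4 ^ (j + 1)) atTop atTop :=
    (tendsto_pow_atTop_atTop_of_one_lt (by norm_num : 1 < 4)).comp (tendsto_add_atTop_nat 1)
  have h3 := h2.eventually h1
  rw [Filter.eventually_atTop] at h3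
  obtain ⟨J0, hJ⟩ := h3
  refine ⟨J0, fun j hj => ?_⟩
  have h4 := hJ j hj
  have h5 : Cheb.P4 (4 ^ (j + 1)) = PP j (j + 1) := by
    unfold Cheb.P4 PP
    rw [pow_succ 4 j, Nat.mul_div_cancel _ (by norm_num)]
  rw [h5] at h4
  have h6 : ((PP j (j + 1)).card : ℝ) / 4 ^ (j + 1) ≤ ∑ q ∈ PP j (j + 1), 1 / (q : ℝ) := by
    rw [div_eq_mul_one_div, ← nsmul_eq_mul, ← Finset.sum_const]
    refine Finset.sum_le_sum (fun q hq => ?_)
    unfold PP at hq
    rw [mem_filter, mem_Ioc] at hq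
    have h7 : (q : ℝ) ≤ 4 ^ (j + 1) := by exact_mod_cast hq.1.2
    exact one_div_le_one_div_of_le (by exact_mod_cast hq.2.pos) h7
  refine le_trans ?_ h6
  push_cast at h4
  rw [Real.log_pow] at h4
  push_cast at h4
  have h8 := log_four_lt
  have h9 : (0 : ℝ) < 4 ^ (j + 1) := by positivity
  have h10 : (0 : ℝ) < (j : ℝ) + 1 := by positivity
  rw [div_le_div_iff₀ (by positivity) h9]
  have h11 : (0 : ℝ) ≤ ((PP j (j + 1)).card : ℝ) := by positivity
  have h12 : ((PP j (j + 1)).card : ℝ) * (((j : ℝ) + 1) * Real.log 4)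
      ≤ ((PP j (j + 1)).card : ℝ) * (((j : ℝ) + 1) * (3 / 2)) := by
    refine mul_le_mul_of_nonneg_left ?_ h11
    exact mul_le_mul_of_nonneg_left h8.le h10.le
  nlinarith

theorem recip_range : ∃ J0 : ℕ, ∀ a b : ℕ, J0 ≤ a → a ≤ b → ((b : ℝ) - a) / (6 * b) ≤
    ∑ q ∈ PP a b, 1 / (q : ℝ) := by
  obtain ⟨J0, hJ⟩ := recip_one
  refine ⟨J0, fun a b ha hab => ?_⟩
  rcases Nat.eq_zero_or_pos b with hb | hb
  · subst hb
    simp only [CharP.cast_eq_zero, mul_zero, div_zero]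
    exact Finset.sum_nonneg (fun _ _ => by positivity)
  have hbr : (0 : ℝ) < b := by exact_mod_cast hb
  have h1 : ∑ j ∈ Ico a b, (1 / (6 * (b : ℝ))) ≤ ∑ j ∈ Ico a b, ∑ q ∈ PP j (j + 1), 1 / (q : ℝ) := by
    refine Finset.sum_le_sum (fun j hj => ?_)
    rw [mem_Ico] at hj
    refine le_trans ?_ (hJ j (by omega))
    refine one_div_le_one_div_of_le (by positivity) ?_
    have : (j : ℝ) + 1 ≤ b := by exact_mod_cast hj.2
    linarith
  have h2 : ∑ j ∈ Ico a b, ∑ q ∈ PP j (j + 1), 1 / (q : ℝ) ≤ ∑ q ∈ PP a b, 1 / (q : ℝ) := by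
    rw [← Finset.sum_biUnion]
    · refine Finset.sum_le_sum_of_subset_of_nonneg ?_ (fun _ _ _ => by positivity)
      intro q hq
      rw [mem_biUnion] at hq
      obtain ⟨j, hj, hq⟩ := hq
      unfold PP at hq ⊢
      rw [mem_filter, mem_Ioc] at hq ⊢
      rw [mem_Ico] at hj
      have e1 : 4 ^ a ≤ 4 ^ j := Nat.pow_le_pow_right (by norm_num) hj.1
      have e2 : 4 ^ (j + 1) ≤ 4 ^ b := Nat.pow_le_pow_right (by norm_num) hj.2
      exact ⟨⟨by omega, by omega⟩, hq.2⟩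
    · intro i _ j _ hij
      rw [Function.onFun, Finset.disjoint_left]
      intro q hq hq'
      unfold PP at hq hq'
      rw [mem_filter, mem_Ioc] at hq hq'
      rcases Nat.lt_or_gt_of_ne hij with h | h
      · have : 4 ^ (i + 1) ≤ 4 ^ j := Nat.pow_le_pow_right (by norm_num) h
        omega
      · have : 4 ^ (j + 1) ≤ 4 ^ i := Nat.pow_le_pow_right (by norm_num) h
        omega
  refine le_trans (le_of_eq ?_) (h1.trans h2)
  rw [Finset.sum_const, nsmul_eq_mul, Nat.card_Ico, Nat.cast_sub hab]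
  ring

/-- the primes of `(4^a, 4^b]` for which `2` has order at least `w` -/
noncomputable def PO (a b w : ℕ) : Finset ℕ := (PP a b).filter (fun q => w ≤ orderOf (2 : ZMod q))

theorem PO_sum (a b w : ℕ) (ha : 1 ≤ a) :
    ∑ q ∈ PP a b, 1 / (q : ℝ) - (w : ℝ) ^ 2 / 4 ^ a ≤ ∑ q ∈ PO a b w, 1 / (q : ℝ) := by
  have h1 := Finset.sum_filter_add_sum_filter_not (PP a b) (fun q => w ≤ orderOf (2 : ZMod q))
    (fun q => 1 / (q : ℝ))
  have h2 : ∑ q ∈ (PP a b).filter (fun q => ¬ w ≤ orderOf (2 : ZMod q)), 1 / (q : ℝ)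
      ≤ (w : ℝ) ^ 2 / 4 ^ a := by
    have h3 : ∑ q ∈ (PP a b).filter (fun q => ¬ w ≤ orderOf (2 : ZMod q)), 1 / (q : ℝ)
        ≤ ∑ q ∈ (PP a b).filter (fun q => ¬ w ≤ orderOf (2 : ZMod q)), 1 / (4 : ℝ) ^ a := by
      refine Finset.sum_le_sum (fun q hq => ?_)
      rw [mem_filter] at hq
      have h4 := hq.1
      unfold PP at h4
      rw [mem_filter, mem_Ioc] at h4
      refine one_div_le_one_div_of_le (by positivity) ?_
      exact_mod_cast h4.1.1.le
    refine h3.trans ?_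
    rw [Finset.sum_const, nsmul_eq_mul]
    have h5 : (PP a b).filter (fun q => ¬ w ≤ orderOf (2 : ZMod q))
        = (PP a b).filter (fun q => orderOf (2 : ZMod q) < w) := by
      refine Finset.filter_congr (fun q _ => not_le)
    have h6 := card_small_order (PP a b) (by
      intro q hq
      unfold PP at hq
      rw [mem_filter, mem_Ioc] at hq
      refine ⟨hq.2, ?_⟩
      have : 4 ^ 1 ≤ 4 ^ a := Nat.pow_le_pow_right (by norm_num) ha
      omega) w
    rw [h5]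
    have h7 : (((PP a b).filter (fun q => orderOf (2 : ZMod q) < w)).card : ℝ) ≤ (w : ℝ) ^ 2 := by
      rw [sq]
      exact_mod_cast h6
    calc _ ≤ (w : ℝ) ^ 2 * (1 / 4 ^ a) := mul_le_mul_of_nonneg_right h7 (by positivity)
      _ = _ := by ring
  unfold PO
  linarith

theorem good_primes (η : ℝ) (hη : 0 < η) : ∃ W : ℝ, 0 < W ∧ ∃ L0 : ℕ, 2 ≤ L0 ∧ ∀ L : ℕ, L0 ≤ L →
    ∃ a b : ℕ, 1 ≤ a ∧ (L : ℝ) ^ 2 ≤ 4 ^ a ∧ (4 : ℝ) ^ b ≤ (L : ℝ) ^ (2 + η) ∧
      W ≤ ∑ q ∈ PO a b L, 1 / (q : ℝ) := by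
  obtain ⟨J0, hJ⟩ := recip_range
  set W : ℝ := η / (48 * (2 + η)) with hW
  have hW0 : 0 < W := by positivity
  refine ⟨W, hW0, ?_⟩
  have hl4 : 0 < Real.log 4 := Real.log_pos (by norm_num)
  have ht : Tendsto (fun L : ℕ => Real.log L / Real.log 4) atTop atTop :=
    (Real.tendsto_log_atTop.comp tendsto_natCast_atTop_atTop).atTop_div_const hl4
  have hsmall : Tendsto (fun L : ℕ => (L : ℝ) ^ (-(η / 2))) atTop (nhds 0) :=
    (tendsto_rpow_neg_atTop (by positivity : 0 < η / 2)).comp tendsto_natCast_atTop_atTop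
  have e1 := ht.eventually_ge_atTop (8 / η)
  have e2 := ht.eventually_ge_atTop (J0 + 1 : ℝ)
  have e3 := hsmall.eventually (eventually_le_nhds hW0)
  have e4 := (eventually_ge_atTop 2 : ∀ᶠ L : ℕ in atTop, 2 ≤ L)
  obtain ⟨L0, hL0⟩ := Filter.eventually_atTop.mp (e1.and (e2.and (e3.and e4)))
  refine ⟨max L0 2, le_max_right _ _, fun L hL => ?_⟩
  obtain ⟨h1, h2, h3, h4⟩ := hL0 L ((le_max_left _ _).trans hL)
  set t : ℝ := Real.log L / Real.log 4 with htt
  have hLr : (0 : ℝ) < L := by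
    have : (2 : ℝ) ≤ L := by exact_mod_cast h4
    linarith
  have ht0 : 0 < t := lt_of_lt_of_le (by positivity) h1
  have h4t : (4 : ℝ) ^ t = L := by
    rw [Real.rpow_def_of_pos (by norm_num : (0 : ℝ) < 4), htt, mul_div_cancel₀ _ hl4.ne',
      Real.exp_log hLr]
  have h4c : ∀ c : ℝ, (4 : ℝ) ^ (c * t) = (L : ℝ) ^ c := by
    intro c
    rw [mul_comm, Real.rpow_mul (by norm_num : (0 : ℝ) ≤ 4), h4t]
  set a : ℕ := ⌈(2 + η / 2) * t⌉₊ with ha
  set b : ℕ := ⌊(2 + η) * t⌋₊ with hb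
  have ha1 : (2 + η / 2) * t ≤ a := Nat.le_ceil _
  have ha2 : (a : ℝ) < (2 + η / 2) * t + 1 := Nat.ceil_lt_add_one (by positivity)
  have hb1 : (b : ℝ) ≤ (2 + η) * t := Nat.floor_le (by positivity)
  have hb2 : (2 + η) * t < b + 1 := Nat.lt_floor_add_one _
  have hηt : 8 ≤ η * t := by
    rw [div_le_iff₀ hη] at h1
    linarith
  have hba : η / 4 * t ≤ (b : ℝ) - a := by nlinarith
  have hab : a ≤ b := by
    have : (a : ℝ) ≤ b := by nlinarith
    exact_mod_cast this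
  have haJ : J0 + 1 ≤ a := by
    have : ((J0 + 1 : ℕ) : ℝ) ≤ a := by
      push_cast
      nlinarith
    exact_mod_cast this
  have h4a : (L : ℝ) ^ (2 + η / 2) ≤ 4 ^ a := by
    rw [← h4c, ← Real.rpow_natCast 4 a]
    exact Real.rpow_le_rpow_of_exponent_le (by norm_num) ha1
  have h4b : (4 : ℝ) ^ b ≤ (L : ℝ) ^ (2 + η) := by
    rw [← h4c, ← Real.rpow_natCast 4 b]
    exact Real.rpow_le_rpow_of_exponent_le (by norm_num) hb1
  have hL1 : (1 : ℝ) ≤ L := by exact_mod_cast (by omega : 1 ≤ L)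
  have hL2 : (L : ℝ) ^ 2 ≤ 4 ^ a := by
    refine le_trans ?_ h4a
    rw [← Real.rpow_natCast (L : ℝ) 2]
    exact Real.rpow_le_rpow_of_exponent_le hL1 (by push_cast; linarith)
  refine ⟨a, b, by omega, hL2, h4b, ?_⟩
  have hs1 := PO_sum a b L (by omega)
  have hs2 := hJ a b (by omega) hab
  have hbpos : (0 : ℝ) < b := by
    have : (1 : ℝ) ≤ a := by exact_mod_cast (by omega : 1 ≤ a)
    have : (a : ℝ) ≤ b := by exact_mod_cast hab
    linarith
  have hs3 : 2 * W ≤ ((b : ℝ) - a) / (6 * b) := by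
    rw [le_div_iff₀ (by positivity)]
    calc 2 * W * (6 * b) ≤ 2 * W * (6 * ((2 + η) * t)) := by
          refine mul_le_mul_of_nonneg_left ?_ (by positivity)
          linarith
      _ = η / 4 * t := by rw [hW]; field_simp; ring
      _ ≤ _ := hba
  have hs4 : (L : ℝ) ^ 2 / 4 ^ a ≤ W := by
    refine le_trans ?_ h3
    rw [div_le_iff₀ (by positivity)]
    calc (L : ℝ) ^ 2 = (L : ℝ) ^ (-(η / 2)) * (L : ℝ) ^ (2 + η / 2) := by
          rw [← Real.rpow_add hLr, ← Real.rpow_natCast (L : ℝ) 2]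
          congr 1
          push_cast
          ring
      _ ≤ _ := mul_le_mul_of_nonneg_left h4a (by positivity)
  linarith

/-- The number of `n ≤ X` such that `2^i n - 1` is prime for all `i < L`. -/
theorem core (η : ℝ) (hη : 0 < η) : ∃ W : ℝ, 0 < W ∧ ∃ L0 : ℕ, 2 ≤ L0 ∧ ∀ L : ℕ, L0 ≤ L →
    ∀ k X : ℕ, 1 ≤ k → 1 ≤ X → 2 * (k : ℝ) * ((2 + η) * Real.log L) ≤ Real.log X →
    2 * (k : ℝ) ≤ W * L ^ 2 →
    (((Icc 1 X).filter (fun n => ∀ i < L, (2 ^ i * n - 1).Prime)).card : ℝ) ≤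
      2 * (L : ℝ) ^ (2 + η) + (1 + 4 * Real.pi) * X * (2 * k / (W * L)) ^ k := by
  obtain ⟨W, hW, L0, hL02, h⟩ := good_primes η hη
  refine ⟨W, hW, L0, hL02, fun L hL k X hk hX hlog hkW => ?_⟩
  obtain ⟨a, b, ha, hL2, h4b, hsum⟩ := h L hL
  have hLr : (2 : ℝ) ≤ L := by exact_mod_cast hL02.trans hL
  have hLr0 : (0 : ℝ) < L := by linarith
  have hkr : (1 : ℝ) ≤ k := by exact_mod_cast hk
  have hXr : (1 : ℝ) ≤ X := by exact_mod_cast hX
  set z : ℕ := 4 ^ b with hz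
  have hzr : (z : ℝ) = 4 ^ b := by rw [hz]; push_cast; rfl
  have hz0 : 0 < z := by positivity
  have hz1 : (1 : ℝ) ≤ z := by exact_mod_cast hz0
  set A := sifted X z L with hA
  have hPO : ∀ q ∈ PO a b L, q.Prime ∧ 3 ≤ q ∧ q ≤ z ∧ L ≤ orderOf (2 : ZMod q) ∧
      1 / (q : ℝ) ≤ 1 / (L : ℝ) ^ 2 := by
    intro q hq
    unfold PO PP at hq
    rw [mem_filter, mem_filter, mem_Ioc] at hq
    obtain ⟨⟨⟨h1, h2⟩, h3⟩, h4⟩ := hq
    have h5 : 4 ^ 1 ≤ 4 ^ a := Nat.pow_le_pow_right (by norm_num) ha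
    refine ⟨h3, by omega, h2, h4, ?_⟩
    refine one_div_le_one_div_of_le (by positivity) (hL2.trans ?_)
    exact_mod_cast h1.le
  have hτ : (k : ℝ) * (W / (2 * k) + 1 / (L : ℝ) ^ 2) ≤ ∑ q ∈ PO a b L, 1 / (q : ℝ) := by
    refine le_trans ?_ hsum
    have e1 : (k : ℝ) * (W / (2 * k) + 1 / (L : ℝ) ^ 2) = W / 2 + k / (L : ℝ) ^ 2 := by
      field_simp
    rw [e1]
    have e2 : (k : ℝ) / (L : ℝ) ^ 2 ≤ W / 2 := by
      rw [div_le_iff₀ (by positivity)]
      linarith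
    linarith
  have key := sieve_final A X (by linarith) (by
      intro n hn
      rw [hA] at hn
      unfold sifted at hn
      rw [mem_filter, mem_Icc] at hn
      exact_mod_cast hn.1.2) z L (PO a b L) (fun q hq => (hPO q hq).1)
      (fun q hq => (hPO q hq).2.2.1) hz0
      (fun q hq => sifted_occ X z L L le_rfl q (hPO q hq).1 (hPO q hq).2.1 (hPO q hq).2.2.1
        (hPO q hq).2.2.2.1) k hk (1 / (L : ℝ) ^ 2) (W / (2 * k))
      (fun q hq => (hPO q hq).2.2.2.2) (by positivity) (by positivity) hτ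
  have hzk : ((z : ℝ) ^ k) ^ 2 ≤ X := by
    have e1 : Real.log (((z : ℝ) ^ k) ^ 2) ≤ Real.log X := by
      rw [Real.log_pow, Real.log_pow]
      have e2 : Real.log z ≤ (2 + η) * Real.log L := by
        rw [hzr, ← Real.log_rpow hLr0]
        exact Real.log_le_log (by positivity) h4b
      calc ((2 : ℕ) : ℝ) * ((k : ℝ) * Real.log z) = 2 * k * Real.log z := by push_cast; ring
        _ ≤ 2 * k * ((2 + η) * Real.log L) := mul_le_mul_of_nonneg_left e2 (by positivity)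
        _ ≤ _ := hlog
    exact (Real.log_le_log_iff (by positivity) (by linarith)).mp e1
  have hpi := Real.pi_pos
  have hAcard : (A.card : ℝ) ≤ (1 + 4 * Real.pi) * X * (2 * k / (W * L)) ^ k := by
    have e1 : ((L : ℝ) * (W / (2 * k))) ^ k * (A.card : ℝ) ≤ (1 + 4 * Real.pi) * X := by
      refine key.trans ?_
      linarith
    have e2 : ((L : ℝ) * (W / (2 * k))) * (2 * k / (W * L)) = 1 := by field_simp
    have e3 : (0 : ℝ) < (2 * k / (W * L)) ^ k := by positivity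
    calc (A.card : ℝ) = (((L : ℝ) * (W / (2 * k))) * (2 * k / (W * L))) ^ k * A.card := by
          rw [e2, one_pow, one_mul]
      _ = (((L : ℝ) * (W / (2 * k))) ^ k * (A.card : ℝ)) * (2 * k / (W * L)) ^ k := by
          rw [mul_pow]; ring
      _ ≤ _ := mul_le_mul_of_nonneg_right e1 e3.le
  have hcover : (Icc 1 X).filter (fun n => ∀ i < L, (2 ^ i * n - 1).Prime)
      ⊆ range (z + 2) ∪ A := by
    intro n hn
    rw [mem_filter] at hn
    rw [mem_union, mem_range, hA]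
    by_cases h1 : z + 1 < n
    · right
      unfold sifted
      rw [mem_filter]
      exact ⟨hn.1, h1, hn.2⟩
    · left; omega
  have hc1 := Finset.card_le_card hcover
  have hc2 := Finset.card_union_le (range (z + 2)) A
  rw [card_range] at hc2
  have hc3 : (((Icc 1 X).filter (fun n => ∀ i < L, (2 ^ i * n - 1).Prime)).card : ℝ)
      ≤ z + 2 + A.card := by
    exact_mod_cast hc1.trans hc2
  have hz2 : (z : ℝ) + 2 ≤ 2 * (L : ℝ) ^ (2 + η) := by
    have e1 : (z : ℝ) ≤ (L : ℝ) ^ (2 + η) := by rw [hzr]; exact h4b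
    have e2 : (2 : ℝ) ≤ (L : ℝ) ^ (2 + η) := by
      calc (2 : ℝ) ≤ L := hLr
        _ = (L : ℝ) ^ (1 : ℝ) := (Real.rpow_one _).symm
        _ ≤ _ := Real.rpow_le_rpow_of_exponent_le (by linarith) (by linarith)
    linarith
  linarith

end Pool.Agent.Lib.MP_c77da8_nt
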