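import Mathlib
import Pool.Agent.Lib.MP_c77da8_nt.Core

/-!
# Cunningham chains in the families `2^s n - 1`, `s ≥ 0`

There is a constant `C` such that for all `k ≥ 2`, `r ≥ 1` and `x ≥ k^(2r)` at most
`C x (C r log k / √k)^r` natural numbers `n ≤ x` have this property: the sequence `2^s n - 1`,
`s = 0, 1, 2, ...`, contains `k` consecutive terms each of which is a prime or has no prime factor
`≤ k`; in particular (all `k` terms prime) the number `2^s n - 1` starts a Cunningham chain of the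
first kind of length `k` for some `s` for at most so many `n ≤ x`.
-/

set_option autoImplicit false

namespace Pool.Agent.Lib.MP_c77da8_nt.FamilyBoundResult

open Filter Finset Pool.Agent.Lib.MP_c77da8_nt

open Classical in
/-- the sifted set -/
noncomputable def fam (X k : ℕ) : Finset ℕ :=
  (Icc 1 X).filter (fun n => k + 1 < n ∧ ∃ s : ℕ, ∀ i < k, ∀ q : ℕ, q.Prime → q ≤ k →
    ¬ q ∣ 2 ^ (s + i) * n - 1)

theorem mem_fam (X k n : ℕ) : n ∈ fam X k ↔ (1 ≤ n ∧ n ≤ X) ∧ k + 1 < n ∧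
    ∃ s : ℕ, ∀ i < k, ∀ q : ℕ, q.Prime → q ≤ k → ¬ q ∣ 2 ^ (s + i) * n - 1 := by
  classical
  unfold fam
  rw [mem_filter, mem_Icc]

theorem fam_occ (X k w q : ℕ) (hq : q.Prime) (h3 : 3 ≤ q) (hqk : q ≤ k)
    (hord : w ≤ orderOf (2 : ZMod q)) : ((fam X k).image (fun n => n % q)).card + w ≤ q := by
  have : Fact q.Prime := ⟨hq⟩
  have : NeZero q := ⟨hq.pos.ne'⟩
  set o := orderOf (2 : ZMod q) with ho
  have ho0 : 0 < o := (isOfFinOrder_two q hq h3).orderOf_pos
  have hoq : o ≤ q - 1 := Nat.le_of_dvd (by omega)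
    (orderOf_dvd_of_pow_eq_one (ZMod.pow_card_sub_one_eq_one (two_ne_zero' q h3)))
  set R : Finset ℕ := (range w).image (fun i => (((2 : ZMod q) ^ i)⁻¹).val) with hR
  have hRcard : R.card = w := by
    rw [hR, Finset.card_image_of_injOn, card_range]
    intro i hi j hj hij
    simp only [coe_range, Set.mem_Iio] at hi hj
    have h1 : ((2 : ZMod q) ^ i)⁻¹ = ((2 : ZMod q) ^ j)⁻¹ := ZMod.val_injective q hij
    have h2 : (2 : ZMod q) ^ i = (2 : ZMod q) ^ j := inv_injective h1
    exact pow_injOn_Iio_orderOf (Set.mem_Iio.mpr (by omega)) (Set.mem_Iio.mpr (by omega)) h2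
  have hdis : Disjoint ((fam X k).image (fun n => n % q)) R := by
    rw [Finset.disjoint_left]
    intro a ha ha'
    rw [mem_image] at ha
    rw [hR, mem_image] at ha'
    obtain ⟨n, hn, rfl⟩ := ha
    obtain ⟨i, hi, hi'⟩ := ha'
    rw [mem_range] at hi
    rw [mem_fam] at hn
    obtain ⟨_, hkn, s, hprime⟩ := hn
    set t := (i + (o - s % o)) % o with ht
    have hto : t < o := Nat.mod_lt _ ho0
    have h1 := hprime t (by omega) q hq hqk
    have hmod : s + t ≡ i [MOD o] := by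
      have e1 : t ≡ i + (o - s % o) [MOD o] := Nat.mod_modEq _ _
      have e2 : s + (i + (o - s % o)) = i + o * (s / o + 1) := by
        have e3 := Nat.div_add_mod s o
        have e4 := Nat.mod_lt s ho0
        rw [mul_add, mul_one]
        omega
      have e5 : s + t ≡ i + o * (s / o + 1) [MOD o] := by
        rw [← e2]
        exact Nat.ModEq.add_left s e1
      refine e5.trans ?_
      unfold Nat.ModEq
      rw [Nat.add_mul_mod_self_left]
    have hpow : (2 : ZMod q) ^ (s + t) = 2 ^ i := by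
      rw [← pow_mod_orderOf (2 : ZMod q) (s + t), ← ho, hmod, ho, pow_mod_orderOf]
    have h2 : (n : ZMod q) = ((2 : ZMod q) ^ i)⁻¹ := by
      have : ((n % q : ℕ) : ZMod q) = ((2 : ZMod q) ^ i)⁻¹ := by
        rw [← hi', ZMod.natCast_val, ZMod.cast_id]
      rw [← this, ZMod.natCast_mod]
    have hne : ((2 : ZMod q) ^ i) ≠ 0 := pow_ne_zero _ (two_ne_zero' q h3)
    have h4 : 1 ≤ 2 ^ (s + t) * n :=
      Nat.one_le_iff_ne_zero.mpr (Nat.mul_ne_zero (by positivity) (by omega))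
    have h5 : q ∣ 2 ^ (s + t) * n - 1 := by
      rw [← ZMod.natCast_eq_zero_iff, Nat.cast_sub h4]
      push_cast
      rw [hpow, h2, mul_inv_cancel₀ hne, sub_self]
    exact h1 h5
  have hsub : ((fam X k).image (fun n => n % q)) ∪ R ⊆ range q := by
    intro a ha
    rw [mem_union] at ha
    rw [mem_range]
    rcases ha with ha | ha
    · rw [mem_image] at ha
      obtain ⟨n, _, rfl⟩ := ha
      exact Nat.mod_lt _ hq.pos
    · rw [hR, mem_image] at ha
      obtain ⟨i, _, rfl⟩ := ha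
      exact ZMod.val_lt _
  have := Finset.card_le_card hsub
  rw [Finset.card_union_of_disjoint hdis, hRcard, card_range] at this
  exact this

/-- few primes of `(k/4, k]` divide `2^d - 1` -/
theorem card_div (k d : ℕ) (hk : 16 ≤ k) (hd : 1 ≤ d) :
    ((((Cheb.P4 k).filter (fun q => q ∣ 2 ^ d - 1)).card : ℕ) : ℝ) * Real.log (k / 4) ≤
      d * Real.log 2 := by
  set S := (Cheb.P4 k).filter (fun q => q ∣ 2 ^ d - 1) with hS
  have hkr : (16 : ℝ) ≤ k := by exact_mod_cast hk
  have hpos : 0 < 2 ^ d - 1 := by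
    have : 2 ^ 1 ≤ 2 ^ d := Nat.pow_le_pow_right (by norm_num) hd
    omega
  have h1 : ((k : ℝ) / 4) ^ S.card ≤ ∏ q ∈ S, (q : ℝ) := by
    rw [← Finset.prod_const]
    refine Finset.prod_le_prod (fun _ _ => by positivity) fun q hq => ?_
    rw [hS, mem_filter] at hq
    unfold Cheb.P4 at hq
    rw [mem_filter, mem_Ioc] at hq
    have h2 : k < q * 4 := (Nat.div_lt_iff_lt_mul (by norm_num)).1 hq.1.1.1
    have h3 : (k : ℝ) < q * 4 := by exact_mod_cast h2
    linarith
  have h2 : ∏ q ∈ S, (q : ℝ) ≤ 2 ^ d := by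
    have h3 : ∏ q ∈ S, q ∣ 2 ^ d - 1 := by
      refine Finset.prod_primes_dvd _ ?_ ?_
      · intro q hq
        rw [hS, mem_filter] at hq
        unfold Cheb.P4 at hq
        rw [mem_filter] at hq
        exact hq.1.2.prime
      · intro q hq
        rw [hS, mem_filter] at hq
        exact hq.2
    have h4 := Nat.le_of_dvd hpos h3
    have h5 : ∏ q ∈ S, q ≤ 2 ^ d := by omega
    rw [← Nat.cast_prod]
    exact_mod_cast h5
  have h3 : ((k : ℝ) / 4) ^ S.card ≤ 2 ^ d := h1.trans h2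
  have h4 := Real.log_le_log (by positivity) h3
  rwa [Real.log_pow, Real.log_pow] at h4

/-- few primes of `(k/4, k]` have a small order of `2` -/
theorem card_small (k w : ℕ) (hk : 16 ≤ k) :
    ((((Cheb.P4 k).filter (fun q => orderOf (2 : ZMod q) < w)).card : ℕ) : ℝ) *
      Real.log (k / 4) ≤ (w : ℝ) ^ 2 * Real.log 2 := by
  have hkr : (16 : ℝ) ≤ k := by exact_mod_cast hk
  have hlog : 0 < Real.log (k / 4) := Real.log_pos (by linarith)
  have h1 : (Cheb.P4 k).filter (fun q => orderOf (2 : ZMod q) < w)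
      ⊆ (Ico 1 w).biUnion (fun d => (Cheb.P4 k).filter (fun q => q ∣ 2 ^ d - 1)) := by
    intro q hq
    rw [mem_filter] at hq
    obtain ⟨hqS, hqo⟩ := hq
    have hqS' := hqS
    unfold Cheb.P4 at hqS'
    rw [mem_filter, mem_Ioc] at hqS'
    obtain ⟨⟨hq1, _⟩, hqp⟩ := hqS'
    have hq3 : 3 ≤ q := by omega
    rw [mem_biUnion]
    have hpos : 0 < orderOf (2 : ZMod q) := (isOfFinOrder_two q hqp hq3).orderOf_pos
    refine ⟨orderOf (2 : ZMod q), by rw [mem_Ico]; omega, ?_⟩
    have h2 : 1 ≤ 2 ^ orderOf (2 : ZMod q) := Nat.one_le_two_pow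
    rw [mem_filter]
    refine ⟨hqS, ?_⟩
    rw [← ZMod.natCast_eq_zero_iff, Nat.cast_sub h2]
    push_cast
    rw [pow_orderOf_eq_one, sub_self]
  have h2 : (((Cheb.P4 k).filter (fun q => orderOf (2 : ZMod q) < w)).card : ℝ) ≤
      ∑ d ∈ Ico 1 w, (((Cheb.P4 k).filter (fun q => q ∣ 2 ^ d - 1)).card : ℝ) := by
    exact_mod_cast (Finset.card_le_card h1).trans Finset.card_biUnion_le
  calc _ ≤ (∑ d ∈ Ico 1 w, (((Cheb.P4 k).filter (fun q => q ∣ 2 ^ d - 1)).card : ℝ)) *
        Real.log (k / 4) := mul_le_mul_of_nonneg_right h2 hlog.le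
    _ = ∑ d ∈ Ico 1 w, (((Cheb.P4 k).filter (fun q => q ∣ 2 ^ d - 1)).card : ℝ) *
        Real.log (k / 4) := by rw [Finset.sum_mul]
    _ ≤ ∑ d ∈ Ico 1 w, (w : ℝ) * Real.log 2 := by
        refine Finset.sum_le_sum fun d hd => ?_
        rw [mem_Ico] at hd
        refine (card_div k d hk hd.1).trans ?_
        have : (d : ℝ) ≤ w := by exact_mod_cast hd.2.le
        exact mul_le_mul_of_nonneg_right this (Real.log_nonneg (by norm_num))
    _ ≤ (w : ℝ) ^ 2 * Real.log 2 := by
        rw [Finset.sum_const, nsmul_eq_mul, Nat.card_Ico, ← mul_assoc, sq]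
        refine mul_le_mul_of_nonneg_right ?_ (Real.log_nonneg (by norm_num))
        refine mul_le_mul_of_nonneg_right ?_ (Nat.cast_nonneg _)
        exact_mod_cast Nat.sub_le w 1

theorem main : ∃ K0 : ℕ, 64 ≤ K0 ∧ ∀ k : ℕ, K0 ≤ k → ∀ r : ℕ, 1 ≤ r → ∀ x : ℝ,
    (k : ℝ) ^ (2 * r) ≤ x → 64 * r * Real.log k ≤ k →
    ((fam ⌊x⌋₊ k).card : ℝ) ≤ 14 * x * (128 * r * Real.log k / √k) ^ r := by
  obtain ⟨K1, hK1⟩ := Filter.eventually_atTop.1 Cheb.card_P4
  refine ⟨max K1 64, le_max_right _ _, fun k hk r hr x hx hrk => ?_⟩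
  have hk64 : 64 ≤ k := (le_max_right _ _).trans hk
  have hcheb := hK1 k ((le_max_left _ _).trans hk)
  have hkr : (64 : ℝ) ≤ k := by exact_mod_cast hk64
  have hk0 : (0 : ℝ) < k := by linarith
  have hlk : 0 < Real.log k := Real.log_pos (by linarith)
  have hrr : (1 : ℝ) ≤ r := by exact_mod_cast hr
  have hsq : 0 < √(k : ℝ) := Real.sqrt_pos.2 hk0
  have hsq2 : √(k : ℝ) ^ 2 = k := Real.sq_sqrt hk0.le
  have hsq8 : 8 ≤ √(k : ℝ) := by
    rw [Real.le_sqrt (by norm_num) hk0.le]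
    linarith
  set w : ℕ := ⌊√(k : ℝ) / 4⌋₊ with hw
  have hw1 : (w : ℝ) ≤ √(k : ℝ) / 4 := Nat.floor_le (by positivity)
  have hw2 : √(k : ℝ) / 4 < w + 1 := Nat.lt_floor_add_one _
  have hw3 : √(k : ℝ) / 8 ≤ w := by linarith
  set P := (Cheb.P4 k).filter (fun q => w ≤ orderOf (2 : ZMod q)) with hP
  have hlog4 : Real.log k / 2 ≤ Real.log (k / 4) := by
    have e1 : Real.log k / 2 = Real.log (√k) := by rw [Real.log_sqrt hk0.le]
    rw [e1]
    refine Real.log_le_log hsq ?_
    nlinarith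
  have hlk4 : 0 < Real.log (k / 4) := by linarith
  have hPcard : (k : ℝ) / (8 * Real.log k) ≤ P.card := by
    have e1 := Finset.card_filter_add_card_filter_not (s := Cheb.P4 k)
      (fun q => w ≤ orderOf (2 : ZMod q))
    have e2 : (Cheb.P4 k).filter (fun q => ¬ w ≤ orderOf (2 : ZMod q)) =
        (Cheb.P4 k).filter (fun q => orderOf (2 : ZMod q) < w) :=
      Finset.filter_congr fun q _ => not_le
    rw [e2] at e1
    have e3 := card_small k w (by omega)
    have e4 : (((Cheb.P4 k).filter (fun q => orderOf (2 : ZMod q) < w)).card : ℝ) ≤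
        k / (8 * Real.log k) := by
      have hl2 := Real.log_two_lt_d9
      rw [le_div_iff₀ (by positivity)]
      have e5 : (w : ℝ) ^ 2 ≤ (k : ℝ) / 16 := by
        calc (w : ℝ) ^ 2 ≤ (√(k : ℝ) / 4) ^ 2 := by gcongr
          _ = (k : ℝ) / 16 := by rw [div_pow, hsq2]; norm_num
      set M := (((Cheb.P4 k).filter (fun q => orderOf (2 : ZMod q) < w)).card : ℝ) with hM
      have hM0 : 0 ≤ M := Nat.cast_nonneg _
      have e6 : M * (Real.log k / 2) ≤ M * Real.log (k / 4) := mul_le_mul_of_nonneg_left hlog4 hM0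
      have e7 : (w : ℝ) ^ 2 * Real.log 2 ≤ k / 16 * 0.7 := by
        refine mul_le_mul e5 (by linarith) (Real.log_nonneg (by norm_num)) (by positivity)
      nlinarith
    have e5 : (k : ℝ) / (4 * Real.log k) ≤ (Cheb.P4 k).card := by
      rw [div_le_iff₀ (by positivity)]
      linarith
    have e6 : (k : ℝ) / (4 * Real.log k) = k / (8 * Real.log k) + k / (8 * Real.log k) := by
      field_simp
      norm_num
    have e7 : (P.card : ℝ) + (((Cheb.P4 k).filter (fun q => orderOf (2 : ZMod q) < w)).card : ℝ) =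
        (Cheb.P4 k).card := by exact_mod_cast e1
    linarith
  have hPmem : ∀ q ∈ P, q.Prime ∧ 3 ≤ q ∧ q ≤ k ∧ w ≤ orderOf (2 : ZMod q) ∧ (k : ℝ) ≤ 4 * q := by
    intro q hq
    rw [hP, mem_filter] at hq
    unfold Cheb.P4 at hq
    rw [mem_filter, mem_Ioc] at hq
    have h2 : k < q * 4 := (Nat.div_lt_iff_lt_mul (by norm_num)).1 hq.1.1.1
    have h3 : (k : ℝ) < q * 4 := by exact_mod_cast h2
    exact ⟨hq.1.2, by omega, hq.1.1.2, hq.2, by linarith⟩
  have hsum : 1 / (8 * Real.log k) ≤ ∑ q ∈ P, 1 / (q : ℝ) := by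
    have e1 : ∑ q ∈ P, 1 / (k : ℝ) ≤ ∑ q ∈ P, 1 / (q : ℝ) := by
      refine Finset.sum_le_sum fun q hq => ?_
      refine one_div_le_one_div_of_le (by exact_mod_cast (hPmem q hq).1.pos) ?_
      exact_mod_cast (hPmem q hq).2.2.1
    refine le_trans ?_ e1
    rw [Finset.sum_const, nsmul_eq_mul]
    calc 1 / (8 * Real.log k) = k / (8 * Real.log k) * (1 / k) := by field_simp
      _ ≤ P.card * (1 / k) := by gcongr
  have hx1 : (1 : ℝ) ≤ x := le_trans (one_le_pow₀ (by linarith)) hx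
  set A := fam ⌊x⌋₊ k with hA
  have key := sieve_final A x (by linarith) (by
      intro n hn
      rw [hA, mem_fam] at hn
      exact (Nat.le_floor_iff (by linarith)).1 hn.1.2) k w P (fun q hq => (hPmem q hq).1)
      (fun q hq => (hPmem q hq).2.2.1) (by omega)
      (fun q hq => fam_occ _ k w q (hPmem q hq).1 (hPmem q hq).2.1 (hPmem q hq).2.2.1
        (hPmem q hq).2.2.2.1) r hr (4 / k) (1 / (16 * r * Real.log k))
      (fun q hq => by
        have hq0 : (0 : ℝ) < q := by exact_mod_cast (hPmem q hq).1.pos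
        rw [div_le_div_iff₀ hq0 hk0]
        linarith [(hPmem q hq).2.2.2.2]) (by positivity) (by positivity) (by
        refine le_trans ?_ hsum
        have e1 : (r : ℝ) * (1 / (16 * r * Real.log k) + 4 / k) =
            1 / (16 * Real.log k) + 4 * r / k := by field_simp
        have e2 : 4 * (r : ℝ) / k ≤ 1 / (16 * Real.log k) := by
          rw [div_le_div_iff₀ hk0 (by positivity)]
          linarith
        have e3 : 1 / (8 * Real.log k) = 1 / (16 * Real.log k) + 1 / (16 * Real.log k) := by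
          field_simp
          norm_num
        rw [e1, e3]
        linarith)
  have hpi := Real.pi_lt_d2
  have hpi0 := Real.pi_pos
  have hrhs : ((k : ℝ) ^ r) ^ 2 + 4 * Real.pi * x ≤ 14 * x := by
    have e1 : ((k : ℝ) ^ r) ^ 2 ≤ x := by
      rw [← pow_mul, mul_comm r 2]
      exact hx
    nlinarith
  have e1 : 1 ≤ (w * (1 / (16 * r * Real.log k))) * (128 * r * Real.log k / √k) := by
    have e2 : (w * (1 / (16 * r * Real.log k))) * (128 * r * Real.log k / √k) = 8 * w / √k := by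
      field_simp
      ring
    rw [e2, le_div_iff₀ hsq]
    linarith
  calc (A.card : ℝ) = 1 ^ r * A.card := by rw [one_pow, one_mul]
    _ ≤ ((w * (1 / (16 * r * Real.log k))) * (128 * r * Real.log k / √k)) ^ r * A.card := by
        gcongr
    _ = ((w * (1 / (16 * r * Real.log k))) ^ r * A.card) * (128 * r * Real.log k / √k) ^ r := by
        rw [mul_pow]; ring
    _ ≤ (14 * x) * (128 * r * Real.log k / √k) ^ r := by
        refine mul_le_mul_of_nonneg_right (key.trans hrhs) (by positivity)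

theorem result : ∃ C : ℝ, 0 < C ∧ ∀ k r : ℕ, 2 ≤ k → 1 ≤ r → ∀ x : ℝ, (k : ℝ) ^ (2 * r) ≤ x →
    (Set.ncard {n : ℕ | (n : ℝ) ≤ x ∧ ∃ s : ℕ, ∀ i < k, (2 ^ (s + i) * n - 1).Prime ∨
      ∀ q : ℕ, q.Prime → q ≤ k → ¬ q ∣ 2 ^ (s + i) * n - 1} : ℝ) ≤
      C * x * (C * r * Real.log k / √k) ^ r := by
  obtain ⟨K0, hK64, hmain⟩ := main
  set C : ℝ := 2 * K0 + 128 with hC
  have hK0 : (64 : ℝ) ≤ K0 := by exact_mod_cast hK64
  refine ⟨C, by positivity, fun k r hk hr x hx => ?_⟩
  set T := {n : ℕ | (n : ℝ) ≤ x ∧ ∃ s : ℕ, ∀ i < k, (2 ^ (s + i) * n - 1).Prime ∨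
      ∀ q : ℕ, q.Prime → q ≤ k → ¬ q ∣ 2 ^ (s + i) * n - 1} with hT
  have hkr : (2 : ℝ) ≤ k := by exact_mod_cast hk
  have hk0 : (0 : ℝ) < k := by linarith
  have hrr : (1 : ℝ) ≤ r := by exact_mod_cast hr
  have hl2 := Real.log_two_gt_d9
  have hlk : Real.log 2 ≤ Real.log k := Real.log_le_log (by norm_num) hkr
  have hlk0 : 0 < Real.log k := by linarith
  have hsq : 0 < √(k : ℝ) := Real.sqrt_pos.2 hk0
  have hsq2 : √(k : ℝ) ^ 2 = k := Real.sq_sqrt hk0.le
  have hsq1 : 1 ≤ √(k : ℝ) := by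
    rw [Real.le_sqrt (by norm_num) hk0.le]
    linarith
  have hx1 : (1 : ℝ) ≤ x := le_trans (one_le_pow₀ (by linarith)) hx
  have hTpos : ∀ n ∈ T, 1 ≤ n := by
    rintro n ⟨_, s, h1⟩
    rcases Nat.eq_zero_or_pos n with h | h
    · subst h
      rcases h1 0 (by omega) with h2 | h2
      · simp only [mul_zero, Nat.zero_sub] at h2
        exact absurd h2 Nat.not_prime_zero
      · exact absurd (by simp) (h2 2 Nat.prime_two hk)
    · exact h
  have hTsub : T ⊆ ((Icc 1 ⌊x⌋₊ : Finset ℕ) : Set ℕ) := by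
    intro n hn
    rw [Finset.mem_coe, mem_Icc]
    exact ⟨hTpos n hn, Nat.le_floor hn.1⟩
  rcases le_or_gt 1 (C * r * Real.log k / √k) with htriv | hnt
  · have h1 := Set.ncard_le_ncard hTsub (Finset.finite_toSet _)
    rw [Set.ncard_coe_finset, Nat.card_Icc, Nat.add_sub_cancel] at h1
    have h2 : (T.ncard : ℝ) ≤ x :=
      le_trans (by exact_mod_cast h1) (Nat.floor_le (by linarith : (0 : ℝ) ≤ x))
    have h3 : 1 ≤ (C * r * Real.log k / √k) ^ r := one_le_pow₀ htriv
    have h4 : x ≤ C * x := by nlinarith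
    nlinarith
  rw [div_lt_one hsq] at hnt
  have hCr : C * 0.69 ≤ C * r * Real.log k := by
    have h1 : C * 1 ≤ C * r := by gcongr
    have h2 : C * 1 * 0.69 ≤ C * r * Real.log k := by
      gcongr
      linarith
    linarith
  have hkK : K0 ≤ k := by
    have h1 : (K0 : ℝ) ≤ √k := by
      rw [hC] at hCr
      linarith
    have h2 : (K0 : ℝ) ≤ k := by nlinarith
    exact_mod_cast h2
  have hrk : 64 * r * Real.log k ≤ k := by
    have h1 : 64 * r * Real.log k ≤ C * r * Real.log k := by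
      gcongr
      rw [hC]
      linarith
    nlinarith
  have h1 := hmain k hkK r hr x hx hrk
  have hcov : T ⊆ ((range (k + 2) ∪ fam ⌊x⌋₊ k : Finset ℕ) : Set ℕ) := by
    intro n hn
    rw [Finset.mem_coe, mem_union, mem_range]
    by_cases h2 : k + 1 < n
    · right
      obtain ⟨h3, s, h5⟩ := hn
      rw [mem_fam]
      refine ⟨⟨by omega, Nat.le_floor h3⟩, h2, s, fun i hi q hq hqk hdvd => ?_⟩
      rcases h5 i hi with h6 | h6
      · have h7 : q = 2 ^ (s + i) * n - 1 := (Nat.prime_dvd_prime_iff_eq hq h6).mp hdvd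
        have h8 : n ≤ 2 ^ (s + i) * n := Nat.le_mul_of_pos_left _ (by positivity)
        omega
      · exact h6 q hq hqk hdvd
    · left
      omega
  have h2 := Set.ncard_le_ncard hcov (Finset.finite_toSet _)
  rw [Set.ncard_coe_finset] at h2
  have h3 : (T.ncard : ℝ) ≤ (k + 2) + (fam ⌊x⌋₊ k).card := by
    have := h2.trans (Finset.card_union_le _ _)
    rw [card_range] at this
    exact_mod_cast this
  have h4 : (k : ℝ) + 2 ≤ x * (128 * r * Real.log k / √k) ^ r := by
    have e1 : (k : ℝ) ≤ (k : ℝ) ^ 2 * (128 * r * Real.log k / √k) := by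
      have e2 : (k : ℝ) ^ 2 * (128 * r * Real.log k / √k) =
          k * √k * (128 * r * Real.log k) := by
        field_simp
        rw [hsq2]
      rw [e2]
      have e3 : 1 ≤ √(k : ℝ) * (128 * r * Real.log k) := by
        have e4 : 1 ≤ 128 * r * Real.log k := by nlinarith
        nlinarith
      nlinarith
    have e1' : (k : ℝ) + 2 ≤ (k : ℝ) ^ 2 * (128 * r * Real.log k / √k) := by
      have e2 : (k : ℝ) ^ 2 * (128 * r * Real.log k / √k) =
          k * √k * (128 * r * Real.log k) := by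
        field_simp
        rw [hsq2]
      rw [e2]
      have e3 : 2 ≤ √(k : ℝ) * (128 * r * Real.log k) := by
        have e4 : 2 ≤ 128 * r * Real.log k := by nlinarith
        nlinarith
      nlinarith
    have e5 : 1 ≤ (k : ℝ) ^ 2 * (128 * r * Real.log k / √k) := by linarith
    calc (k : ℝ) + 2 ≤ (k : ℝ) ^ 2 * (128 * r * Real.log k / √k) := e1'
      _ ≤ ((k : ℝ) ^ 2 * (128 * r * Real.log k / √k)) ^ r := le_self_pow₀ e5 (by omega)
      _ = (k : ℝ) ^ (2 * r) * (128 * r * Real.log k / √k) ^ r := by rw [mul_pow, ← pow_mul]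
      _ ≤ x * (128 * r * Real.log k / √k) ^ r := by gcongr
  have h5 : (128 * r * Real.log k / √k) ^ r ≤ (C * r * Real.log k / √k) ^ r := by
    have : (128 : ℝ) ≤ C := by rw [hC]; linarith
    gcongr
  have h6 : 0 ≤ (C * r * Real.log k / √k) ^ r := by positivity
  calc (T.ncard : ℝ) ≤ (k + 2) + (fam ⌊x⌋₊ k).card := h3
    _ ≤ x * (128 * r * Real.log k / √k) ^ r + 14 * x * (128 * r * Real.log k / √k) ^ r :=
        add_le_add h4 h1
    _ = 15 * x * (128 * r * Real.log k / √k) ^ r := by ring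
    _ ≤ C * x * (C * r * Real.log k / √k) ^ r := by
        have : (15 : ℝ) ≤ C := by rw [hC]; linarith
        gcongr

end Pool.Agent.Lib.MP_c77da8_nt.FamilyBoundResult
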