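import Mathlib
import Pool.Agent.Lib.MP_c77da8_nt.Arith

/-!
# The arithmetic large sieve with all squarefree moduli
-/

set_option autoImplicit false

namespace Pool.Agent.Lib.MP_c77da8_nt.Full

open Finset LargeSieve

/-- reduced residues modulo `m` -/
def Fr (m : ℕ) : Finset ℕ := (range m).filter (fun a => Nat.Coprime a m)

/-- the sum of `F1` over the reduced fractions with denominator `m` -/
noncomputable def T (A : Finset ℕ) (m : ℕ) : ℝ := ∑ a ∈ Fr m, F1 A ((a : ℝ) / m)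

theorem per_prime' (A : Finset ℕ) (q w : ℕ) (hq : 0 < q)
    (hw : (A.image (fun n => n % q)).card + w ≤ q) (x : ℝ) :
    (w : ℝ) * F1 A x ≤ ((q : ℝ) - w) * ∑ b ∈ Ico 1 q, F1 A (x + (b : ℝ) / q) := by
  have h1 := shift_sum A q hq x
  have h2 := F1_le A q x
  set U := ∑ h ∈ A.image (fun n => n % q), F1 (cls A q h) x with hU
  have hU0 : 0 ≤ U := Finset.sum_nonneg (fun _ _ => F1_nonneg _ _)
  have h3 : ∑ b ∈ range q, F1 A (x + (b : ℝ) / q)
      = F1 A x + ∑ b ∈ Ico 1 q, F1 A (x + (b : ℝ) / q) := by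
    rw [Finset.range_eq_Ico, Finset.sum_eq_sum_Ico_succ_bot hq]
    simp
  have hqr : (0 : ℝ) < q := by exact_mod_cast hq
  have hcw : ((A.image (fun n => n % q)).card : ℝ) ≤ q - w := by
    have : ((A.image (fun n => n % q)).card : ℝ) + w ≤ q := by exact_mod_cast hw
    linarith
  have h4 : F1 A x ≤ (q - w) * U := h2.trans (mul_le_mul_of_nonneg_right hcw hU0)
  have h5 : ∑ b ∈ Ico 1 q, F1 A (x + (b : ℝ) / q) = q * U - F1 A x := by linarith
  rw [h5]
  nlinarith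

theorem T_one (A : Finset ℕ) : T A 1 = (A.card : ℝ) ^ 2 := by
  have h : Fr 1 = {0} := by decide
  unfold T
  rw [h]
  simp [F1_zero]

theorem F1_mod (A : Finset ℕ) (c m : ℕ) (hm : 0 < m) :
    F1 A (((c % m : ℕ) : ℝ) / m) = F1 A ((c : ℝ) / m) := by
  have hmr : (m : ℝ) ≠ 0 := by exact_mod_cast hm.ne'
  have h1 : (c : ℝ) = (m : ℝ) * ((c / m : ℕ) : ℝ) + ((c % m : ℕ) : ℝ) := by
    exact_mod_cast (Nat.div_add_mod c m).symm
  have h2 : (c : ℝ) / m = ((c % m : ℕ) : ℝ) / m + (((c / m : ℕ) : ℤ) : ℝ) := by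
    rw [Int.cast_natCast]
    conv_lhs => rw [h1]
    field_simp
    ring
  rw [h2, F1_add_int]

theorem T_mul (A : Finset ℕ) (m q w : ℕ) (hm : 0 < m) (hq : q.Prime) (hqm : ¬ q ∣ m)
    (hw : (A.image (fun n => n % q)).card + w ≤ q) :
    (w : ℝ) * T A m ≤ ((q : ℝ) - w) * T A (q * m) := by
  have hqw : (0 : ℝ) ≤ (q : ℝ) - w := by
    have : (w : ℝ) ≤ q := by exact_mod_cast (by omega : w ≤ q)
    linarith
  have hq0 := hq.pos
  have hqr : (q : ℝ) ≠ 0 := by exact_mod_cast hq0.ne'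
  have hmr : (m : ℝ) ≠ 0 := by exact_mod_cast hm.ne'
  have hcop : Nat.Coprime q m := (Nat.Prime.coprime_iff_not_dvd hq).2 hqm
  have h1 : (w : ℝ) * T A m ≤
      ∑ a ∈ Fr m, ((q : ℝ) - w) * ∑ b ∈ Ico 1 q, F1 A ((a : ℝ) / m + (b : ℝ) / q) := by
    unfold T
    rw [Finset.mul_sum]
    exact Finset.sum_le_sum fun a _ => per_prime' A q w hq0 hw _
  refine h1.trans ?_
  rw [← Finset.mul_sum]
  refine mul_le_mul_of_nonneg_left ?_ hqw
  rw [← Finset.sum_product']
  have h2 : ∀ p ∈ Fr m ×ˢ Ico 1 q, F1 A ((p.1 : ℝ) / m + (p.2 : ℝ) / q) =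
      F1 A (((((p.1 * q + p.2 * m) % (q * m) : ℕ)) : ℝ) / ((q * m : ℕ) : ℝ)) := by
    intro p _
    rw [F1_mod A _ _ (Nat.mul_pos hq0 hm)]
    congr 1
    push_cast
    field_simp
  rw [Finset.sum_congr rfl h2]
  have hinj : Set.InjOn (fun p : ℕ × ℕ => (p.1 * q + p.2 * m) % (q * m))
      ((Fr m ×ˢ Ico 1 q : Finset (ℕ × ℕ)) : Set (ℕ × ℕ)) := by
    rintro ⟨a, b⟩ hab ⟨a', b'⟩ hab' h
    simp only [Finset.coe_product, Set.mem_prod, Finset.mem_coe, Fr, mem_filter, mem_range,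
      mem_Ico] at hab hab'
    obtain ⟨⟨ha, _⟩, hb1, hb2⟩ := hab
    obtain ⟨⟨ha', _⟩, hb1', hb2'⟩ := hab'
    have h3 : (a * q + b * m) ≡ (a' * q + b' * m) [MOD q * m] := h
    have h4 : b * m ≡ b' * m [MOD q] := by
      have h5 := h3.of_mul_right m
      have h6 : a * q + b * m ≡ b * m [MOD q] := by
        have : a * q ≡ 0 [MOD q] := by
          rw [Nat.modEq_zero_iff_dvd]; exact Dvd.intro_left a rfl
        simpa only [Nat.zero_add] using this.add_right (b * m)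
      have h7 : a' * q + b' * m ≡ b' * m [MOD q] := by
        have : a' * q ≡ 0 [MOD q] := by
          rw [Nat.modEq_zero_iff_dvd]; exact Dvd.intro_left a' rfl
        simpa only [Nat.zero_add] using this.add_right (b' * m)
      exact h6.symm.trans (h5.trans h7)
    have h8 : b ≡ b' [MOD q] := Nat.ModEq.cancel_right_of_coprime hcop h4
    have h9 : a * q ≡ a' * q [MOD m] := by
      have h5 := h3.of_mul_left q
      have h6 : a * q + b * m ≡ a * q [MOD m] := by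
        have : b * m ≡ 0 [MOD m] := by
          rw [Nat.modEq_zero_iff_dvd]; exact Dvd.intro_left b rfl
        simpa only [Nat.add_zero] using this.add_left (a * q)
      have h7 : a' * q + b' * m ≡ a' * q [MOD m] := by
        have : b' * m ≡ 0 [MOD m] := by
          rw [Nat.modEq_zero_iff_dvd]; exact Dvd.intro_left b' rfl
        simpa only [Nat.add_zero] using this.add_left (a' * q)
      exact h6.symm.trans (h5.trans h7)
    have h10 : a ≡ a' [MOD m] := Nat.ModEq.cancel_right_of_coprime hcop.symm h9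
    have e1 : b = b' := Nat.ModEq.eq_of_lt_of_lt h8 hb2 hb2'
    have e2 : a = a' := Nat.ModEq.eq_of_lt_of_lt h10 ha ha'
    rw [e1, e2]
  rw [← Finset.sum_image (f := fun c : ℕ => F1 A ((c : ℝ) / ((q * m : ℕ) : ℝ))) hinj]
  refine Finset.sum_le_sum_of_subset_of_nonneg ?_ (fun _ _ _ => F1_nonneg _ _)
  intro c hc
  rw [mem_image] at hc
  obtain ⟨⟨a, b⟩, hab, rfl⟩ := hc
  simp only [mem_product, Fr, mem_filter, mem_range, mem_Ico] at hab ⊢
  obtain ⟨⟨_, hac⟩, hb1, hb2⟩ := hab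
  refine ⟨Nat.mod_lt _ (Nat.mul_pos hq0 hm), ?_⟩
  have h3 : Nat.Coprime (a * q + b * m) (q * m) := by
    refine Nat.Coprime.mul_right ?_ ?_
    · rw [Nat.coprime_comm]
      have h4 : Nat.Coprime q (b * m) :=
        Nat.Coprime.mul_right (Nat.coprime_of_lt_prime (by omega) hb2 hq) hcop
      rw [add_comm]
      exact (Nat.coprime_add_mul_right_right q (b * m) a).2 h4
    · rw [Nat.coprime_comm]
      have h4 : Nat.Coprime m (a * q) := Nat.Coprime.mul_right hac.symm hcop.symm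
      exact (Nat.coprime_add_mul_right_right m (a * q) b).2 h4
  have h5 : Nat.gcd ((a * q + b * m) % (q * m)) (q * m) = Nat.gcd (a * q + b * m) (q * m) := by
    exact (Nat.mod_modEq _ _).gcd_eq
  unfold Nat.Coprime at h3 ⊢
  rw [h5]
  exact h3

/-- the weight of a set of primes -/
noncomputable def hw (w : ℕ) (S : Finset ℕ) : ℝ := ∏ q ∈ S, (w : ℝ) / ((q : ℝ) - w)

theorem T_prod (A : Finset ℕ) (w : ℕ) (S : Finset ℕ)
    (hS : ∀ q ∈ S, q.Prime ∧ w < q ∧ (A.image (fun n => n % q)).card + w ≤ q) :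
    hw w S * (A.card : ℝ) ^ 2 ≤ T A (∏ q ∈ S, q) := by
  induction S using Finset.induction_on with
  | empty => simp [hw, T_one]
  | insert q S hq ih =>
    have ih' := ih (fun p hp => hS p (Finset.mem_insert_of_mem hp))
    obtain ⟨h1, h2, h3⟩ := hS q (Finset.mem_insert_self _ _)
    have hpos : 0 < ∏ p ∈ S, p :=
      Finset.prod_pos fun p hp => (hS p (Finset.mem_insert_of_mem hp)).1.pos
    have hnd : ¬ q ∣ ∏ p ∈ S, p := by
      intro hd
      rw [Prime.dvd_finsetProd_iff h1.prime] at hd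
      obtain ⟨p, hp, hd⟩ := hd
      have := (Nat.prime_dvd_prime_iff_eq h1 (hS p (Finset.mem_insert_of_mem hp)).1).1 hd
      exact hq (this ▸ hp)
    have h4 := T_mul A (∏ p ∈ S, p) q w hpos h1 hnd h3
    have h5 : (0 : ℝ) < (q : ℝ) - w := by
      have : (w : ℝ) < q := by exact_mod_cast h2
      linarith
    unfold hw at ih' ⊢
    rw [Finset.prod_insert hq, Finset.prod_insert hq]
    calc (w : ℝ) / ((q : ℝ) - w) * (∏ p ∈ S, (w : ℝ) / ((p : ℝ) - w)) * (A.card : ℝ) ^ 2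
        = ((w : ℝ) * ((∏ p ∈ S, (w : ℝ) / ((p : ℝ) - w)) * (A.card : ℝ) ^ 2)) /
            ((q : ℝ) - w) := by ring
      _ ≤ ((w : ℝ) * T A (∏ p ∈ S, p)) / ((q : ℝ) - w) := by gcongr
      _ ≤ (((q : ℝ) - w) * T A (q * ∏ p ∈ S, p)) / ((q : ℝ) - w) := by gcongr
      _ = T A (q * ∏ p ∈ S, p) := by field_simp

theorem frac_ne {m m' a a' : ℕ} (hm : 0 < m) (hm' : 0 < m') (h : Nat.Coprime a m)
    (h' : Nat.Coprime a' m') (he : (a : ℝ) / m = (a' : ℝ) / m') : m = m' ∧ a = a' := by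
  have hmr : (m : ℝ) ≠ 0 := by exact_mod_cast hm.ne'
  have hmr' : (m' : ℝ) ≠ 0 := by exact_mod_cast hm'.ne'
  have h1 : (a : ℝ) * m' = a' * m := by
    rw [div_eq_div_iff hmr hmr'] at he
    exact he
  have h2 : a * m' = a' * m := by exact_mod_cast h1
  have h3 : m ∣ m' := h.symm.dvd_of_dvd_mul_left (h2 ▸ Dvd.intro_left a' rfl)
  have h4 : m' ∣ m := h'.symm.dvd_of_dvd_mul_left (h2 ▸ Dvd.intro_left a rfl)
  have h5 : m = m' := Nat.dvd_antisymm h3 h4
  refine ⟨h5, ?_⟩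
  subst h5
  exact Nat.eq_of_mul_eq_mul_right hm h2

/-- The large sieve over the reduced fractions with denominators in `M`. -/
theorem sieve_T (A : Finset ℕ) (N : ℝ) (hN : 0 < N) (hA : ∀ n ∈ A, (n : ℝ) ≤ N) (Q : ℕ)
    (hQ : 1 ≤ Q) (M : Finset ℕ) (hM : ∀ m ∈ M, 2 ≤ m ∧ m ≤ Q) :
    ∑ m ∈ M, T A m ≤ ((Q : ℝ) ^ 2 + 4 * Real.pi * N) * A.card := by
  have hQr : (1 : ℝ) ≤ Q := by exact_mod_cast hQ
  have key := large_sieve (M.sigma Fr) (fun i => (i.2 : ℝ) / i.1) ((Q : ℝ) ^ 2)⁻¹ (by positivity)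
    ?_ ?_ ?_ A (fun _ => 1) N hN hA
  · rw [inv_inv] at key
    simp only [one_pow, Finset.sum_const, nsmul_eq_mul, mul_one] at key
    refine le_trans (le_of_eq ?_) key
    rw [Finset.sum_sigma]
    rfl
  · rintro ⟨m, a⟩ hi
    simp only [mem_sigma, Fr, mem_filter, mem_range] at hi
    obtain ⟨hm, ha, hc⟩ := hi
    obtain ⟨h2, h3⟩ := hM m hm
    have ha0 : 1 ≤ a := by
      rcases Nat.eq_zero_or_pos a with h | h
      · rw [h, Nat.coprime_zero_left] at hc
        omega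
      · exact h
    have hmr : (0 : ℝ) < m := by exact_mod_cast (by omega : 0 < m)
    have hmQ : (m : ℝ) ≤ Q := by exact_mod_cast h3
    have har : (1 : ℝ) ≤ a := by exact_mod_cast ha0
    show ((Q : ℝ) ^ 2)⁻¹ / 2 ≤ (a : ℝ) / m
    rw [← one_div, div_div, div_le_div_iff₀ (by positivity) hmr]
    nlinarith [mul_le_mul har hmQ hmr.le (by linarith)]
  · rintro ⟨m, a⟩ hi
    simp only [mem_sigma, Fr, mem_filter, mem_range] at hi
    obtain ⟨hm, ha, hc⟩ := hi
    obtain ⟨h2, h3⟩ := hM m hm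
    have hmr : (0 : ℝ) < m := by exact_mod_cast (by omega : 0 < m)
    have hmQ : (m : ℝ) ≤ Q := by exact_mod_cast h3
    have har : (a : ℝ) + 1 ≤ m := by exact_mod_cast ha
    have h4 : (a : ℝ) / m ≤ 1 - 1 / m := by
      rw [div_le_iff₀ hmr, sub_mul, one_mul, one_div, inv_mul_cancel₀ hmr.ne']
      linarith
    have h5 : ((Q : ℝ) ^ 2)⁻¹ / 2 ≤ 1 / m := by
      rw [← one_div, div_div, div_le_div_iff₀ (by positivity) hmr]
      nlinarith
    show (a : ℝ) / m ≤ 1 - ((Q : ℝ) ^ 2)⁻¹ / 2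
    linarith
  · rintro ⟨m, a⟩ hi ⟨m', a'⟩ hi' hne
    simp only [mem_sigma, Fr, mem_filter, mem_range] at hi hi'
    obtain ⟨hm, ha, hc⟩ := hi
    obtain ⟨hm', ha', hc'⟩ := hi'
    obtain ⟨h2, h3⟩ := hM m hm
    obtain ⟨h2', h3'⟩ := hM m' hm'
    have hmr : (0 : ℝ) < m := by exact_mod_cast (by omega : 0 < m)
    have hmr' : (0 : ℝ) < m' := by exact_mod_cast (by omega : 0 < m')
    have hmQ : (m : ℝ) ≤ Q := by exact_mod_cast h3
    have hmQ' : (m' : ℝ) ≤ Q := by exact_mod_cast h3'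
    have hne' : (a : ℝ) / m ≠ (a' : ℝ) / m' := by
      intro he
      obtain ⟨e1, e2⟩ := frac_ne (by omega) (by omega) hc hc' he
      exact hne (by rw [e1, e2])
    show ((Q : ℝ) ^ 2)⁻¹ ≤ |(a : ℝ) / m - (a' : ℝ) / m'|
    have h4 : (a : ℝ) / m - (a' : ℝ) / m' = ((a * m' - a' * m : ℤ) : ℝ) / (m * m') := by
      push_cast
      field_simp
    rw [h4, abs_div, abs_of_pos (mul_pos hmr hmr')]
    have h5 : ((a * m' - a' * m : ℤ)) ≠ 0 := by
      intro h
      apply hne'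
      rw [← sub_eq_zero, h4, h]
      simp
    have h6 : (1 : ℤ) ≤ |(a * m' - a' * m : ℤ)| := Int.one_le_abs h5
    have h7 : (1 : ℝ) ≤ |((a * m' - a' * m : ℤ) : ℝ)| := by exact_mod_cast h6
    rw [← one_div, div_le_div_iff₀ (by positivity) (mul_pos hmr hmr'), one_mul]
    have h8 : (m : ℝ) * m' ≤ Q ^ 2 := by
      rw [sq]
      exact mul_le_mul hmQ hmQ' hmr'.le (by linarith)
    nlinarith

/-- the total weight of the squarefree numbers up to `Q` composed of primes of `P` -/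
noncomputable def H (w : ℕ) (P : Finset ℕ) (Q : ℕ) : ℝ :=
  ∑ S ∈ P.powerset.filter (fun S => ∏ q ∈ S, q ≤ Q), hw w S

theorem hw_nonneg (w : ℕ) (S : Finset ℕ) (hS : ∀ q ∈ S, w < q) : 0 ≤ hw w S := by
  refine Finset.prod_nonneg fun q hq => ?_
  have : (w : ℝ) < q := by exact_mod_cast hS q hq
  have : (0 : ℝ) < (q : ℝ) - w := by linarith
  positivity

theorem sieve_full (A : Finset ℕ) (N : ℝ) (hN : 0 < N) (hA : ∀ n ∈ A, (n : ℝ) ≤ N) (Q w : ℕ)
    (hQ : 1 ≤ Q) (P : Finset ℕ)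
    (hP : ∀ q ∈ P, q.Prime ∧ w < q ∧ (A.image (fun n => n % q)).card + w ≤ q) :
    (H w P Q - 1) * A.card ≤ (Q : ℝ) ^ 2 + 4 * Real.pi * N := by
  classical
  have hpi := Real.pi_pos
  rcases Nat.eq_zero_or_pos A.card with h0 | h0
  · rw [h0]
    simp only [Nat.cast_zero, mul_zero]
    positivity
  have hA0 : (0 : ℝ) < A.card := by exact_mod_cast h0
  set I := (P.powerset.filter (fun S => ∏ q ∈ S, q ≤ Q)).erase ∅ with hI
  have hmem : ∅ ∈ P.powerset.filter (fun S => ∏ q ∈ S, q ≤ Q) := by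
    rw [mem_filter]
    exact ⟨Finset.empty_mem_powerset _, by simpa using hQ⟩
  have h1 : H w P Q = 1 + ∑ S ∈ I, hw w S := by
    unfold H
    rw [← Finset.add_sum_erase _ _ hmem]
    congr 1
  have hIp : ∀ S ∈ I, S ≠ ∅ ∧ S ⊆ P ∧ ∏ q ∈ S, q ≤ Q := by
    intro S hS
    rw [hI, mem_erase, mem_filter, mem_powerset] at hS
    exact hS
  have hinj : Set.InjOn (fun S : Finset ℕ => ∏ q ∈ S, q) (I : Set (Finset ℕ)) := by
    intro S hS S' hS' he
    have e1 := Nat.primeFactors_prod (fun q hq => (hP q ((hIp S hS).2.1 hq)).1)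
    have e2 := Nat.primeFactors_prod (fun q hq => (hP q ((hIp S' hS').2.1 hq)).1)
    rw [← e1, ← e2]
    exact congrArg _ he
  have h2 := sieve_T A N hN hA Q hQ (I.image (fun S => ∏ q ∈ S, q)) (by
    intro m hm
    rw [mem_image] at hm
    obtain ⟨S, hS, rfl⟩ := hm
    obtain ⟨g1, g2, g3⟩ := hIp S hS
    refine ⟨?_, g3⟩
    obtain ⟨q, hq⟩ := Finset.nonempty_iff_ne_empty.2 g1
    have hq2 := (hP q (g2 hq)).1.two_le
    have hle : q ≤ ∏ q ∈ S, q := Nat.le_of_dvd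
      (Finset.prod_pos fun p hp => (hP p (g2 hp)).1.pos) (Finset.dvd_prod_of_mem _ hq)
    omega)
  rw [Finset.sum_image hinj] at h2
  have h3 : (∑ S ∈ I, hw w S) * (A.card : ℝ) ^ 2 ≤
      ((Q : ℝ) ^ 2 + 4 * Real.pi * N) * A.card := by
    refine le_trans ?_ h2
    rw [Finset.sum_mul]
    exact Finset.sum_le_sum fun S hS => T_prod A w S (fun q hq => hP q ((hIp S hS).2.1 hq))
  rw [h1, add_sub_cancel_left]
  have h4 : (∑ S ∈ I, hw w S) * (A.card : ℝ) * A.card ≤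
      ((Q : ℝ) ^ 2 + 4 * Real.pi * N) * A.card := by
    calc _ = (∑ S ∈ I, hw w S) * (A.card : ℝ) ^ 2 := by ring
      _ ≤ _ := h3
  exact le_of_mul_le_mul_right h4 hA0

/-- the full product -/
theorem sum_powerset_hw (w : ℕ) (P : Finset ℕ) :
    ∑ S ∈ P.powerset, hw w S = ∏ q ∈ P, (1 + (w : ℝ) / ((q : ℝ) - w)) := by
  unfold hw
  rw [Finset.prod_one_add]

theorem sum_log_hw (w : ℕ) (P : Finset ℕ) (hP : ∀ q ∈ P, w < q) :
    ∑ S ∈ P.powerset, hw w S * ∑ q ∈ S, Real.log q ≤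
      (∏ q ∈ P, (1 + (w : ℝ) / ((q : ℝ) - w))) * ∑ q ∈ P, (w : ℝ) / q * Real.log q := by
  induction P using Finset.induction_on with
  | empty => simp [hw]
  | insert a P ha ih =>
    have ih' := ih (fun q hq => hP q (Finset.mem_insert_of_mem hq))
    have haw : (w : ℝ) < a := by exact_mod_cast hP a (Finset.mem_insert_self _ _)
    have hw0 : (0 : ℝ) ≤ w := Nat.cast_nonneg w
    have ha0 : (0 : ℝ) < (a : ℝ) - w := by linarith
    have ha1 : (0 : ℝ) < a := by linarith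
    rw [Finset.sum_powerset_insert ha]
    have h1 : ∑ S ∈ P.powerset, hw w (insert a S) * ∑ q ∈ insert a S, Real.log q =
        (w : ℝ) / ((a : ℝ) - w) * (∑ S ∈ P.powerset, hw w S * ∑ q ∈ S, Real.log q +
          Real.log a * ∑ S ∈ P.powerset, hw w S) := by
      rw [Finset.mul_sum, ← Finset.sum_add_distrib, Finset.mul_sum]
      refine Finset.sum_congr rfl fun S hS => ?_
      have haS : a ∉ S := fun h => ha (Finset.mem_powerset.1 hS h)
      unfold hw
      rw [Finset.prod_insert haS, Finset.sum_insert haS]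
      ring
    rw [h1, sum_powerset_hw, Finset.prod_insert ha, Finset.sum_insert ha]
    set E := ∑ S ∈ P.powerset, hw w S * ∑ q ∈ S, Real.log q with hE
    set Pr := ∏ q ∈ P, (1 + (w : ℝ) / ((q : ℝ) - w)) with hPr
    set Sg := ∑ q ∈ P, (w : ℝ) / q * Real.log q with hSg
    set h : ℝ := (w : ℝ) / ((a : ℝ) - w) with hh
    have hh0 : 0 ≤ h := by positivity
    have h2 : h = (1 + h) * ((w : ℝ) / a) := by
      rw [hh]
      field_simp
      ring
    have h3 : E + h * (E + Real.log a * Pr) = (1 + h) * E + h * (Real.log a * Pr) := by ring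
    rw [h3]
    calc (1 + h) * E + h * (Real.log a * Pr)
        ≤ (1 + h) * (Pr * Sg) + h * (Real.log a * Pr) := by gcongr
      _ = (1 + h) * (Pr * Sg) + (1 + h) * ((w : ℝ) / a) * (Real.log a * Pr) := by rw [← h2]
      _ = (1 + h) * Pr * ((w : ℝ) / a * Real.log a + Sg) := by ring

/-- truncation by Markov's inequality -/
theorem H_lower (w : ℕ) (P : Finset ℕ) (Q : ℕ) (hQ : 2 ≤ Q) (hP : ∀ q ∈ P, q.Prime ∧ w < q)
    (hlog : 2 * ∑ q ∈ P, (w : ℝ) / q * Real.log q ≤ Real.log Q) :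
    (∏ q ∈ P, (1 + (w : ℝ) / ((q : ℝ) - w))) / 2 ≤ H w P Q := by
  classical
  set Pr := ∏ q ∈ P, (1 + (w : ℝ) / ((q : ℝ) - w)) with hPr
  have h1 := sum_log_hw w P (fun q hq => (hP q hq).2)
  have h2 := sum_powerset_hw w P
  have hQr : (1 : ℝ) < Q := by exact_mod_cast (by omega : 1 < Q)
  have hlQ : 0 < Real.log Q := Real.log_pos hQr
  have h3 := Finset.sum_filter_add_sum_filter_not P.powerset (fun S => ∏ q ∈ S, q ≤ Q)
    (fun S => hw w S)
  have hPr0 : 0 ≤ Pr := by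
    refine Finset.prod_nonneg fun q hq => ?_
    have : (w : ℝ) < q := by exact_mod_cast (hP q hq).2
    have : (0 : ℝ) < (q : ℝ) - w := by linarith
    positivity
  have h4 : (∑ S ∈ P.powerset.filter (fun S => ¬ ∏ q ∈ S, q ≤ Q), hw w S) * Real.log Q ≤
      ∑ S ∈ P.powerset, hw w S * ∑ q ∈ S, Real.log q := by
    rw [Finset.sum_mul]
    refine le_trans (Finset.sum_le_sum (g := fun S => hw w S * ∑ q ∈ S, Real.log q) ?_) ?_
    · intro S hS
      rw [mem_filter, mem_powerset] at hS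
      refine mul_le_mul_of_nonneg_left ?_ (hw_nonneg w S (fun q hq => (hP q (hS.1 hq)).2))
      rw [← Real.log_prod (fun q hq => by exact_mod_cast (hP q (hS.1 hq)).1.ne_zero)]
      refine Real.log_le_log (by linarith) ?_
      have h8 : (Q : ℝ) ≤ ((∏ q ∈ S, q : ℕ) : ℝ) := by exact_mod_cast (not_le.1 hS.2).le
      rwa [Nat.cast_prod] at h8
    · refine Finset.sum_le_sum_of_subset_of_nonneg (Finset.filter_subset _ _) ?_
      intro S hS _
      rw [mem_powerset] at hS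
      exact mul_nonneg (hw_nonneg w S (fun q hq => (hP q (hS hq)).2))
        (Finset.sum_nonneg fun q _ => Real.log_natCast_nonneg q)
  have h5 : (∑ S ∈ P.powerset.filter (fun S => ¬ ∏ q ∈ S, q ≤ Q), hw w S) * Real.log Q ≤
      Pr / 2 * Real.log Q := by
    refine h4.trans (h1.trans ?_)
    have := mul_le_mul_of_nonneg_left hlog hPr0
    linarith
  have h6 := le_of_mul_le_mul_right h5 hlQ
  have h7 : H w P Q + ∑ S ∈ P.powerset.filter (fun S => ¬ ∏ q ∈ S, q ≤ Q), hw w S = Pr := by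
    rw [hPr, ← h2, ← h3]
    rfl
  linarith

theorem prod_ge_exp (w : ℕ) (P : Finset ℕ) (hP : ∀ q ∈ P, w < q) :
    Real.exp (w * ∑ q ∈ P, (1 : ℝ) / q) ≤ ∏ q ∈ P, (1 + (w : ℝ) / ((q : ℝ) - w)) := by
  rw [Finset.mul_sum, Real.exp_sum]
  refine Finset.prod_le_prod (fun _ _ => (Real.exp_pos _).le) fun q hq => ?_
  have h1 : (w : ℝ) < q := by exact_mod_cast hP q hq
  have hw0 : (0 : ℝ) ≤ w := Nat.cast_nonneg w
  have h2 : (0 : ℝ) < (q : ℝ) - w := by linarith
  have hq0 : (0 : ℝ) < q := by linarith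
  have h3 : 1 + (w : ℝ) / ((q : ℝ) - w) = (1 - (w : ℝ) / q)⁻¹ := by
    field_simp
    ring
  rw [h3]
  have h4 : 1 - (w : ℝ) / q ≤ Real.exp (-(w * (1 / q))) := by
    have := Real.add_one_le_exp (-((w : ℝ) * (1 / q)))
    have e : (w : ℝ) * (1 / q) = w / q := by ring
    rw [e] at this ⊢
    linarith
  have h5 : (0 : ℝ) < 1 - (w : ℝ) / q := by
    rw [sub_pos, div_lt_one hq0]
    exact h1
  rw [le_inv_comm₀ (Real.exp_pos _) h5, ← Real.exp_neg]
  exact h4

end Pool.Agent.Lib.MP_c77da8_nt.Full
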