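import Mathlib
import Pool.Agent.Lib.MP_c77da8_nt.Core

/-!
# Cunningham chains of large length

For every `c < 1/4` there is a constant `C` such that for all `k ≥ 2` and `x ≥ 2` at most
`C x (C log x / (k log k)) ^ (c log x / log k)` numbers `p ≤ x` start a Cunningham chain of the
first kind of length `k`.
-/

set_option autoImplicit false

namespace Pool.Agent.Lib.MP_c77da8_nt.LargeLengthsResult

open Filter Finset Pool.Agent.Lib.MP_c77da8_nt

/-- `p` starts a Cunningham chain of the first kind of length `k ≥ 1`: the `k` numbers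
`2^i (p + 1) - 1`, `0 ≤ i < k` (that is, `p, 2p + 1, 4p + 3, ...`) are all prime. -/
def StartsChain (p k : ℕ) : Prop := 1 ≤ k ∧ ∀ i < k, (2 ^ i * (p + 1) - 1).Prime

/-- the counting function -/
noncomputable def cnt (x : ℝ) (k : ℕ) : ℝ := (Set.ncard {p : ℕ | (p : ℝ) ≤ x ∧ StartsChain p k} : ℝ)

theorem cnt_le (x : ℝ) (hx : 0 ≤ x) (k : ℕ) : cnt x k ≤ x := by
  have h1 : {p : ℕ | (p : ℝ) ≤ x ∧ StartsChain p k} ⊆ ((Icc 1 ⌊x⌋₊ : Finset ℕ) : Set ℕ) := by
    rintro p ⟨hp, h, hc⟩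
    have h2 := hc 0 (by omega)
    simp only [pow_zero, one_mul, Nat.add_sub_cancel] at h2
    rw [Finset.mem_coe, mem_Icc]
    exact ⟨h2.one_lt.le, Nat.le_floor hp⟩
  have h2 := Set.ncard_le_ncard h1 (Finset.finite_toSet _)
  rw [Set.ncard_coe_finset, Nat.card_Icc, Nat.add_sub_cancel] at h2
  refine le_trans ?_ (Nat.floor_le hx)
  unfold cnt
  exact_mod_cast h2

theorem cnt_core (x : ℝ) (k L : ℕ) (hL : L ≤ k) : cnt x k ≤
    (((Icc 1 (⌊x⌋₊ + 1)).filter (fun n => ∀ i < L, (2 ^ i * n - 1).Prime)).card : ℝ) := by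
  set T := (Icc 1 (⌊x⌋₊ + 1)).filter (fun n => ∀ i < L, (2 ^ i * n - 1).Prime) with hT
  have hcov : {p : ℕ | (p : ℝ) ≤ x ∧ StartsChain p k} ⊆
      ((T.image (fun n => n - 1) : Finset ℕ) : Set ℕ) := by
    rintro p ⟨hp, _, hc⟩
    rw [Finset.mem_coe, mem_image]
    refine ⟨p + 1, ?_, by omega⟩
    rw [hT, mem_filter, mem_Icc]
    have := Nat.le_floor hp
    exact ⟨by omega, fun i hi => hc i (by omega)⟩
  have h2 := Set.ncard_le_ncard hcov (Finset.finite_toSet _)
  rw [Set.ncard_coe_finset] at h2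
  unfold cnt
  exact_mod_cast h2.trans Finset.card_image_le

/-- lower bound for the right hand side -/
theorem rhs_eq (C c x : ℝ) (k : ℕ) (hC : 0 < C) (hk : 2 ≤ k) (hx : 2 ≤ x) :
    (C * Real.log x / (k * Real.log k)) ^ (c * Real.log x / Real.log k) =
      x ^ (-c) * (C * Real.log x / Real.log k) ^ (c * Real.log x / Real.log k) := by
  have hk' : (2 : ℝ) ≤ k := by exact_mod_cast hk
  have hlk : 0 < Real.log k := Real.log_pos (by linarith)
  have hlx : 0 < Real.log x := Real.log_pos (by linarith)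
  have h1 : C * Real.log x / (k * Real.log k) = (k : ℝ)⁻¹ * (C * Real.log x / Real.log k) := by
    field_simp
  rw [h1, Real.mul_rpow (by positivity) (by positivity)]
  congr 1
  rw [Real.inv_rpow (by positivity), Real.rpow_def_of_pos (by linarith : (0 : ℝ) < k),
    Real.rpow_def_of_pos (by linarith : (0 : ℝ) < x), ← Real.exp_neg]
  congr 1
  field_simp

theorem self_rpow_ge (u : ℝ) (hu : 0 < u) : (1 : ℝ) / 2 ≤ u ^ u := by
  rw [Real.rpow_def_of_pos hu]
  have he : (2.7 : ℝ) < Real.exp 1 := by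
    have := Real.exp_one_gt_d9
    linarith
  have h1 : -(1 / 2) ≤ Real.log u * u := by
    have h4 := Real.log_le_sub_one_of_pos (x := u⁻¹ / Real.exp 1) (by positivity)
    rw [Real.log_div (by positivity) (Real.exp_pos 1).ne', Real.log_exp, Real.log_inv] at h4
    have h5 : -Real.log u * u ≤ u⁻¹ / Real.exp 1 * u := by
      refine mul_le_mul_of_nonneg_right ?_ hu.le
      linarith
    have h6 : u⁻¹ / Real.exp 1 * u = 1 / Real.exp 1 := by field_simp
    have h7 : 1 / Real.exp 1 ≤ 1 / 2 := by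
      apply one_div_le_one_div_of_le (by norm_num)
      linarith
    linarith
  have h2 : (1 : ℝ) / 2 ≤ Real.exp (-(1 / 2)) := by
    have := Real.add_one_le_exp (-(1 / 2 : ℝ))
    linarith
  exact h2.trans (Real.exp_le_exp.2 h1)

/-- the main inequality for large `k` and `x` -/
theorem large (c : ℝ) (hc : 0 < c) (hc4 : c < 1 / 4) : ∃ D : ℝ, 1 ≤ D ∧ ∃ k₀ : ℕ, 2 ≤ k₀ ∧
    ∃ x₀ : ℝ, 2 ≤ x₀ ∧ ∀ k : ℕ, k₀ ≤ k → ∀ x : ℝ, x₀ ≤ x →
      D * Real.log x ≤ k * Real.log k →
      cnt x k ≤ D * x ^ (1 - c) * (D * ⌈c * Real.log x / Real.log k⌉₊) ^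
        ⌈c * Real.log x / Real.log k⌉₊ := by
  set η : ℝ := 1 / (2 * c) - 2 with hη
  have hη0 : 0 < η := by
    rw [hη, sub_pos, lt_div_iff₀ (by positivity)]
    linarith
  have hηc : (2 + η) * c = 1 / 2 := by rw [hη]; field_simp; ring
  obtain ⟨W, hW, L0, hL02, hcore⟩ := core η hη0
  set W' : ℝ := min W 1 with hW'
  have hW'0 : 0 < W' := lt_min hW one_pos
  have hpi := Real.pi_pos
  have hpi2 := Real.pi_lt_d2
  set D : ℝ := 64 / W' with hD
  have hD64 : 64 ≤ D := by
    rw [hD, le_div_iff₀ hW'0]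
    have : W' ≤ 1 := min_le_right _ _
    linarith
  refine ⟨D, by linarith, (L0 + 2) ^ 2, by nlinarith, Real.exp ((Real.log (2 * L0 + 4) + 2 / W + 4) / c),
    ?_, ?_⟩
  · have h1 : 0 ≤ Real.log (2 * L0 + 4) := Real.log_nonneg (by
      have : (0 : ℝ) ≤ L0 := Nat.cast_nonneg _
      linarith)
    have h2 : 1 ≤ (Real.log (2 * L0 + 4) + 2 / W + 4) / c := by
      rw [le_div_iff₀ hc]
      have : 0 < 2 / W := by positivity
      linarith
    have h3 := Real.add_one_le_exp ((Real.log (2 * L0 + 4) + 2 / W + 4) / c)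
    linarith
  intro k hk x hx hkx
  have hW'W : W' ≤ W := min_le_left _ _
  have hW'1 : W' ≤ 1 := min_le_right _ _
  have hL0r : (2 : ℝ) ≤ L0 := by exact_mod_cast hL02
  have hx0 : 0 < x := lt_of_lt_of_le (Real.exp_pos _) hx
  set ℓ := Real.log x with hℓ
  have hℓ1 : Real.log (2 * L0 + 4) + 2 / W + 4 ≤ c * ℓ := by
    have h1 := Real.log_le_log (Real.exp_pos _) hx
    rw [Real.log_exp, div_le_iff₀ hc] at h1
    linarith
  have hlog0 : 0 ≤ Real.log (2 * L0 + 4) := Real.log_nonneg (by linarith)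
  have h2W : 0 < 2 / W := by positivity
  have hcℓ : 4 ≤ c * ℓ := by linarith
  have hℓ0 : 0 < ℓ := by
    by_contra h
    have : c * ℓ ≤ 0 := mul_nonpos_of_nonneg_of_nonpos hc.le (not_lt.1 h)
    linarith
  have hk16 : (16 : ℝ) ≤ k := by
    have h1 : 4 ^ 2 ≤ (L0 + 2) ^ 2 := Nat.pow_le_pow_left (by omega) 2
    have : (16 : ℕ) ≤ k := by omega
    exact_mod_cast this
  have hkr : ((L0 : ℝ) + 2) ^ 2 ≤ k := by exact_mod_cast hk
  set lam := Real.log k with hlam
  have hlam0 : 0 < lam := Real.log_pos (by linarith)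
  set u : ℝ := c * ℓ / lam with hu
  have hu0 : 0 < u := by positivity
  set r : ℕ := ⌈u⌉₊ with hr
  have hru : u ≤ r := Nat.le_ceil u
  have hru2 : (r : ℝ) < u + 1 := Nat.ceil_lt_add_one hu0.le
  have hr0 : 0 < r := Nat.ceil_pos.2 hu0
  have hr1 : (1 : ℝ) ≤ r := by exact_mod_cast hr0
  set s : ℝ := c * ℓ / r with hs
  have hs0 : 0 < s := by positivity
  have hsr : r * s = c * ℓ := by rw [hs]; field_simp
  have hslam : s ≤ lam := by
    rw [hs, div_le_iff₀ (by linarith)]
    rw [hu, div_le_iff₀ hlam0] at hru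
    linarith
  set L : ℕ := ⌊Real.exp s⌋₊ with hL
  have hLle : (L : ℝ) ≤ Real.exp s := Nat.floor_le (Real.exp_pos s).le
  have hLge : Real.exp s < L + 1 := Nat.lt_floor_add_one _
  have hLk : L ≤ k := by
    have h1 : (L : ℝ) ≤ k := by
      refine hLle.trans ?_
      calc Real.exp s ≤ Real.exp lam := Real.exp_le_exp.2 hslam
        _ = k := Real.exp_log (by linarith)
    exact_mod_cast h1
  -- two cases
  have hcases : ((L0 : ℝ) + 2 ≤ Real.exp s) ∧ 8 * r ≤ W * Real.exp s ^ 2 := by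
    rcases le_or_gt 1 u with h1 | h1
    · have h2 : (r : ℝ) ≤ 2 * u := by linarith
      have h3 : lam / 2 ≤ s := by
        rw [hs, le_div_iff₀ (by linarith)]
        calc lam / 2 * r ≤ lam / 2 * (2 * u) := by gcongr
          _ = c * ℓ := by rw [hu]; field_simp
      have h4 : (k : ℝ) ≤ Real.exp s ^ 2 := by
        calc (k : ℝ) = Real.exp lam := (Real.exp_log (by linarith)).symm
          _ ≤ Real.exp (2 * s) := Real.exp_le_exp.2 (by linarith)
          _ = Real.exp s ^ 2 := by rw [← Real.exp_nat_mul]; norm_num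
      refine ⟨?_, ?_⟩
      · exact (pow_le_pow_iff_left₀ (by linarith) (Real.exp_pos s).le two_ne_zero).1 (hkr.trans h4)
      · have h5 : 64 * (ℓ / lam) ≤ W' * k := by
          have h6 : D * ℓ / lam ≤ k := by
            rw [div_le_iff₀ hlam0]
            exact hkx
          calc 64 * (ℓ / lam) = W' * (D * ℓ / lam) := by rw [hD]; field_simp
            _ ≤ W' * k := by gcongr
        have h7 : 8 * (r : ℝ) ≤ 64 * (ℓ / lam) := by
          have h8 : 8 * (r : ℝ) ≤ 16 * u := by linarith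
          have h9 : u ≤ ℓ / lam := by
            rw [hu, mul_div_assoc]
            have : 0 < ℓ / lam := by positivity
            nlinarith
          have : 0 < ℓ / lam := by positivity
          linarith
        calc 8 * (r : ℝ) ≤ W' * k := h7.trans h5
          _ ≤ W * Real.exp s ^ 2 := by gcongr
    · have h2 : r = 1 := by
        have : (r : ℝ) < 2 := by linarith
        have : r < 2 := by exact_mod_cast this
        omega
      have h3 : s = c * ℓ := by rw [hs, h2]; simp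
      rw [h3, h2]
      refine ⟨?_, ?_⟩
      · calc (L0 : ℝ) + 2 ≤ 2 * L0 + 4 := by linarith
          _ = Real.exp (Real.log (2 * L0 + 4)) := (Real.exp_log (by linarith)).symm
          _ ≤ Real.exp (c * ℓ) := Real.exp_le_exp.2 (by linarith)
      · have h4 : Real.exp (c * ℓ) ^ 2 = Real.exp (2 * (c * ℓ)) := by
          rw [← Real.exp_nat_mul]; norm_num
        have h5 : Real.exp (4 / W + 8) ≤ Real.exp (2 * (c * ℓ)) := by
          apply Real.exp_le_exp.2
          have : 4 / W = 2 * (2 / W) := by ring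
          linarith
        have h6 : 4 / W * 9 ≤ Real.exp (4 / W + 8) := by
          rw [Real.exp_add]
          have h7 := Real.add_one_le_exp (4 / W)
          have h8 := Real.add_one_le_exp (8 : ℝ)
          have h9 : 4 / W ≤ Real.exp (4 / W) := by linarith
          have h10 : (9 : ℝ) ≤ Real.exp 8 := by linarith
          gcongr
        rw [h4]
        have h7 : W * (4 / W * 9) = 36 := by field_simp; norm_num
        have h8 : W * (4 / W * 9) ≤ W * Real.exp (2 * (c * ℓ)) := by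
          gcongr
          exact h6.trans h5
        push_cast
        linarith
  obtain ⟨hA1, hA2⟩ := hcases
  have hLL0 : L0 ≤ L := by
    have : (L0 : ℝ) ≤ L := by linarith
    exact_mod_cast this
  have hL2 : (2 : ℝ) ≤ L := by exact_mod_cast hL02.trans hLL0
  have hLhalf : Real.exp s / 2 ≤ L := by linarith
  have hlogL : Real.log L ≤ s := by
    rw [Real.log_le_iff_le_exp (by linarith)]
    exact hLle
  set X : ℕ := ⌊x⌋₊ + 1 with hX
  have hXx : x ≤ X := by
    rw [hX]; push_cast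
    exact (Nat.lt_floor_add_one x).le
  have hx1 : 1 ≤ x := by
    have := Real.exp_log hx0
    rw [← this]
    exact Real.one_le_exp hℓ0.le
  have hXx2 : (X : ℝ) ≤ 2 * x := by
    rw [hX]; push_cast
    linarith [Nat.floor_le hx0.le]
  have c1 : 2 * (r : ℝ) * ((2 + η) * Real.log L) ≤ Real.log X := by
    calc 2 * (r : ℝ) * ((2 + η) * Real.log L) ≤ 2 * (r : ℝ) * ((2 + η) * s) := by gcongr
      _ = 2 * ((2 + η) * (r * s)) := by ring
      _ = 2 * (((2 + η) * c) * ℓ) := by rw [hsr]; ring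
      _ = ℓ := by rw [hηc]; ring
      _ ≤ Real.log X := Real.log_le_log hx0 hXx
  have c2 : 2 * (r : ℝ) ≤ W * (L : ℝ) ^ 2 := by
    have h1 : (Real.exp s / 2) ^ 2 ≤ (L : ℝ) ^ 2 := by gcongr
    have h2 : W * (Real.exp s / 2) ^ 2 ≤ W * (L : ℝ) ^ 2 := by gcongr
    have h3 : W * (Real.exp s / 2) ^ 2 = W * Real.exp s ^ 2 / 4 := by ring
    linarith
  have hmain := hcore L hLL0 r X hr0 (by omega) c1 c2
  have hcc := cnt_core x k L hLk
  rw [← hX] at hcc
  have hxc : x ^ (1 - c) = Real.exp (ℓ - c * ℓ) := by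
    rw [Real.rpow_def_of_pos hx0]
    congr 1
    ring
  have hpowL : (L : ℝ) ^ (2 + η) ≤ x ^ (1 - c) := by
    have h1 : (L : ℝ) ^ (2 + η) ≤ Real.exp s ^ (2 + η) :=
      Real.rpow_le_rpow (by positivity) hLle (by linarith)
    have h2 : Real.exp s ^ (2 + η) = Real.exp (s * (2 + η)) := by rw [Real.exp_mul]
    refine h1.trans ?_
    rw [h2, hxc]
    apply Real.exp_le_exp.2
    have h3 : s ≤ c * ℓ := by
      rw [← hsr]
      nlinarith
    have h4 : s * (2 + η) ≤ (c * ℓ) * (2 + η) := by gcongr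
    have h5 : (c * ℓ) * (2 + η) = ((2 + η) * c) * ℓ := by ring
    rw [h5, hηc] at h4
    nlinarith
  have hDr : 0 ≤ D * r := by positivity
  have hDr1 : 1 ≤ (D * (r : ℝ)) ^ r := by
    apply one_le_pow₀
    nlinarith
  have hthird : (2 * (r : ℝ) / (W * L)) ^ r ≤ x ^ (-c) * ((D * r) ^ r / 16) := by
    have h1 : 2 * (r : ℝ) / (W * L) ≤ (D * r / 16) * Real.exp (-s) := by
      rw [div_le_iff₀ (by positivity), Real.exp_neg]
      have h2 : W' * (Real.exp s / 2) ≤ W * L := by gcongr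
      have h3 : (D * r / 16) * (Real.exp s)⁻¹ * (W' * (Real.exp s / 2)) = 2 * r := by
        rw [hD]
        field_simp
        norm_num
      rw [← h3]
      gcongr
    have h2 : (2 * (r : ℝ) / (W * L)) ^ r ≤ ((D * r / 16) * Real.exp (-s)) ^ r :=
      pow_le_pow_left₀ (by positivity) h1 r
    refine h2.trans ?_
    rw [mul_pow, div_pow, ← Real.exp_nat_mul]
    have h3 : Real.exp (r * -s) = x ^ (-c) := by
      rw [Real.rpow_def_of_pos hx0, mul_neg, hsr]
      congr 1
      ring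
    rw [h3, mul_comm]
    have h4 : (16 : ℝ) ≤ 16 ^ r := le_self_pow₀ (by norm_num) (by omega)
    gcongr
  have hxx : x * x ^ (-c) = x ^ (1 - c) := by
    rw [sub_eq_add_neg, Real.rpow_add hx0, Real.rpow_one]
  have hxc0 : 0 < x ^ (1 - c) := by positivity
  calc cnt x k ≤ 2 * (L : ℝ) ^ (2 + η) + (1 + 4 * Real.pi) * X * (2 * r / (W * L)) ^ r :=
        hcc.trans hmain
    _ ≤ 2 * x ^ (1 - c) + (1 + 4 * 3.15) * (2 * x) * (x ^ (-c) * ((D * r) ^ r / 16)) := by
        gcongr
    _ = 2 * x ^ (1 - c) + 1.7 * (x ^ (1 - c) * (D * r) ^ r) := by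
        rw [← hxx]; ring
    _ ≤ 64 * (x ^ (1 - c) * (D * r) ^ r) := by
        have : x ^ (1 - c) * 1 ≤ x ^ (1 - c) * (D * r) ^ r := by gcongr
        linarith
    _ ≤ D * (x ^ (1 - c) * (D * r) ^ r) := by gcongr
    _ = D * x ^ (1 - c) * (D * r) ^ r := by ring

theorem final (c : ℝ) (hc : 0 < c) (hc4 : c < 1 / 4) : ∃ C : ℝ, 0 < C ∧ ∀ k : ℕ, 2 ≤ k →
    ∀ x : ℝ, 2 ≤ x → cnt x k ≤
      C * x * (C * Real.log x / (k * Real.log k)) ^ (c * Real.log x / Real.log k) := by
  obtain ⟨D, hD, k₀, hk₀, x₀, hx₀, hlarge⟩ := large c hc hc4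
  have hl2 := Real.log_two_gt_d9
  have hk₀r : (2 : ℝ) ≤ k₀ := by exact_mod_cast hk₀
  set C : ℝ := 2 * D ^ 2 + 2 * k₀ ^ 2 + 2 * x₀ + 4 with hC
  have hC1 : 2 * D ^ 2 + 4 ≤ C := by
    rw [hC]
    nlinarith
  have hC2 : 2 * (k₀ : ℝ) ^ 2 ≤ C := by
    rw [hC]
    nlinarith
  have hC3 : 2 * x₀ ≤ C := by
    rw [hC]
    nlinarith
  have hDC : D ≤ C := by nlinarith
  have hC0 : 0 < C := by linarith
  refine ⟨C, hC0, fun k hk x hx => ?_⟩
  have hkr : (2 : ℝ) ≤ k := by exact_mod_cast hk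
  have hx0 : (0 : ℝ) < x := by linarith
  set ℓ := Real.log x with hℓ
  set lam := Real.log k with hlam
  have hℓ0 : Real.log 2 ≤ ℓ := Real.log_le_log (by norm_num) hx
  have hlam0 : Real.log 2 ≤ lam := Real.log_le_log (by norm_num) hkr
  have hℓp : 0 < ℓ := by linarith
  have hlamp : 0 < lam := by linarith
  have hexp0 : 0 < c * ℓ / lam := by positivity
  rcases le_or_gt ((k : ℝ) * lam) (C * ℓ) with htriv | hnt
  · -- trivial
    have h1 : 1 ≤ C * ℓ / (k * lam) := by
      rw [le_div_iff₀ (by positivity)]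
      linarith
    have h2 := Real.one_le_rpow h1 hexp0.le
    have h3 := cnt_le x hx0.le k
    have h4 : x ≤ C * x := by nlinarith
    nlinarith [mul_pos hC0 hx0]
  rw [rhs_eq C c x k hC0 hk hx]
  set u : ℝ := c * ℓ / lam with hu
  have hbase : C * ℓ / lam = (C / c) * u := by
    rw [hu]; field_simp
  rw [hbase]
  have hCc : C ≤ C / c := by
    rw [le_div_iff₀ hc]
    nlinarith
  have hCc1 : 1 ≤ C / c := by linarith
  have hxx : x * x ^ (-c) = x ^ (1 - c) := by
    rw [sub_eq_add_neg, Real.rpow_add hx0, Real.rpow_one]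
  have hrhs : C * x * (x ^ (-c) * (C / c * u) ^ u) = C * x ^ (1 - c) * (C / c * u) ^ u := by
    rw [← hxx]; ring
  rw [hrhs]
  have hxc1 : 1 ≤ x ^ (1 - c) := Real.one_le_rpow (by linarith) (by linarith)
  have hxc0 : 0 < x ^ (1 - c) := by linarith
  have hu2 : 1 / 2 ≤ (C / c * u) ^ u := by
    refine (self_rpow_ge u hexp0).trans ?_
    apply Real.rpow_le_rpow hexp0.le _ hexp0.le
    nlinarith
  rcases lt_or_ge x x₀ with hxs | hxl
  · -- small `x`
    have h3 := cnt_le x hx0.le k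
    calc cnt x k ≤ x := h3
      _ ≤ x₀ := hxs.le
      _ ≤ C * 1 * (1 / 2) := by linarith
      _ ≤ C * x ^ (1 - c) * (C / c * u) ^ u := by gcongr
  rcases Nat.lt_or_ge k k₀ with hks | hkl
  · -- small `k`: contradiction
    exfalso
    have h1 : (k : ℝ) ≤ k₀ := by exact_mod_cast hks.le
    have h2 : lam ≤ k₀ := by
      have h3 := Real.log_le_sub_one_of_pos (show (0 : ℝ) < k by linarith)
      linarith
    have h3 : (k : ℝ) * lam ≤ k₀ ^ 2 := by
      rw [sq]
      gcongr
    have h4 : C * 0.69 ≤ C * ℓ := by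
      gcongr
      linarith
    nlinarith
  have hcond : D * ℓ ≤ k * lam := by
    have : D * ℓ ≤ C * ℓ := by gcongr
    linarith
  refine (hlarge k hkl x hxl hcond).trans ?_
  rw [← hℓ, ← hlam, ← hu]
  set r : ℕ := ⌈u⌉₊ with hr
  have hru : u ≤ r := Nat.le_ceil u
  have hru2 : (r : ℝ) < u + 1 := Nat.ceil_lt_add_one hexp0.le
  have hr0 : 0 < r := Nat.ceil_pos.2 hexp0
  have hD2C : D ^ 2 * 2 ≤ C := by linarith
  rw [mul_comm D, mul_assoc, mul_comm C, mul_assoc]
  refine mul_le_mul_of_nonneg_left ?_ hxc0.le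
  rcases le_or_gt 1 u with h1 | h1
  · -- `u ≥ 1`
    have h2 : D * (r : ℝ) ≤ 2 * D * u := by nlinarith
    have h3 : 1 ≤ 2 * D * u := by nlinarith
    have h4 : (D * (r : ℝ)) ^ r ≤ (2 * D * u) ^ (u + 1) := by
      calc (D * (r : ℝ)) ^ r ≤ (2 * D * u) ^ r := by gcongr
        _ = (2 * D * u) ^ (r : ℝ) := (Real.rpow_natCast _ _).symm
        _ ≤ (2 * D * u) ^ (u + 1) := Real.rpow_le_rpow_of_exponent_le h3 hru2.le
    have h5 : (2 * D * u) ^ (u + 1) = (2 * D * u) ^ u * (2 * D * u) := by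
      rw [Real.rpow_add (by linarith), Real.rpow_one]
    have h6 : u ≤ 2 ^ u := by
      have h7 : (2 : ℝ) ^ u = Real.exp (Real.log 2 * u) := by
        rw [Real.rpow_def_of_pos (by norm_num)]
      rw [h7]
      have h8 : Real.exp (Real.log 2 * u) = Real.exp (Real.log 2 * u / 2) ^ 2 := by
        rw [← Real.exp_nat_mul]
        congr 1
        push_cast
        ring
      have h9 := Real.add_one_le_exp (Real.log 2 * u / 2)
      have h10 : u ≤ (Real.log 2 * u / 2 + 1) ^ 2 := by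
        nlinarith [sq_nonneg (Real.log 2 * u / 2 - 1)]
      rw [h8]
      refine h10.trans ?_
      gcongr
    have h7 : (2 * D * u) ^ u * 2 ^ u = (4 * D * u) ^ u := by
      rw [← Real.mul_rpow (by linarith) (by norm_num)]
      congr 1
      ring
    have h8 : 4 * D * u ≤ C / c * u := by
      have : 4 * C ≤ C / c := by
        rw [le_div_iff₀ hc]
        nlinarith
      gcongr
      linarith
    calc D * (D * (r : ℝ)) ^ r ≤ D * ((2 * D * u) ^ u * (2 * D * u)) := by
          rw [← h5]; gcongr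
      _ = 2 * D ^ 2 * ((2 * D * u) ^ u * u) := by ring
      _ ≤ 2 * D ^ 2 * ((2 * D * u) ^ u * 2 ^ u) := by gcongr
      _ = 2 * D ^ 2 * (4 * D * u) ^ u := by rw [h7]
      _ ≤ C * (C / c * u) ^ u := by
          have : 2 * D ^ 2 ≤ C := by linarith
          gcongr
  · -- `u < 1`
    have h2 : r = 1 := by
      have : (r : ℝ) < 2 := by linarith
      have : r < 2 := by exact_mod_cast this
      omega
    rw [h2]
    push_cast
    rw [pow_one, mul_one]
    calc D * D = D ^ 2 := by ring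
      _ ≤ C * (1 / 2) := by linarith
      _ ≤ C * (C / c * u) ^ u := by gcongr

/-- **Long Cunningham chains are rare.** For every `0 < c < 1/4` there is a constant `C > 0` such
that for all `k ≥ 2` and all `x ≥ 2` at most `C x (C log x / (k log k)) ^ (c log x / log k)`
numbers `p ≤ x` start a Cunningham chain of the first kind of length `k`. -/
theorem result (c : ℝ) (hc : 0 < c) (hc4 : c < 1 / 4) : ∃ C : ℝ, 0 < C ∧ ∀ k : ℕ, 2 ≤ k →
    ∀ x : ℝ, 2 ≤ x → (Set.ncard {p : ℕ | (p : ℝ) ≤ x ∧ StartsChain p k} : ℝ) ≤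
      C * x * (C * Real.log x / (k * Real.log k)) ^ (c * Real.log x / Real.log k) :=
  final c hc hc4

end Pool.Agent.Lib.MP_c77da8_nt.LargeLengthsResult
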