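import Pool.Agent.Lib.MP_c77da8_nt.CL.MainR

/-!
# Geometric progressions of every length in the shifted primes `P + 1`, with a very small ratio

For all `k` and `ε > 0` there are `c > 0` and `N₀` such that for every `N ≥ N₀` there is one integer `a > 1` with
`log a ≤ (log log N)^(2 + ε)` such that at least `c N` of the integers `1 ≤ n ≤ N` have a multiplier `b ≥ 1` with
`log b ≤ (log log N)^(3 + ε)` for which the `k` numbers `n b a^j - 1`, `0 ≤ j < k`, are all prime: Cunningham chains of every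
length `k` with an integer ratio `a > 1` in place of `2`, where `a ≤ exp((log log N)^(2 + ε))`.
-/

set_option autoImplicit false

namespace Pool.Agent.Lib.MP_c77da8_nt.NarrowProgressionsOld

open Finset

open Classical in
theorem result (k : ℕ) (ε : ℝ) (hε : 0 < ε) : ∃ c : ℝ, 0 < c ∧ ∃ N₀ : ℕ, ∀ N ≥ N₀, ∃ a : ℕ, 1 < a ∧
    Real.log a ≤ Real.log (Real.log N) ^ (2 + ε) ∧
    c * N ≤ (((Icc 1 N).filter fun n => ∃ b : ℕ, 1 ≤ b ∧ Real.log b ≤ Real.log (Real.log N) ^ (3 + ε) ∧
      ∀ j < k, (n * b * a ^ j - 1).Prime).card : ℝ) := by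
  obtain ⟨c, N₀, hc, h⟩ := Pool.CL.narrow_ratio k ε hε
  exact ⟨c, hc, N₀, h⟩

end Pool.Agent.Lib.MP_c77da8_nt.NarrowProgressionsOld
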