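import Pool.Agent.Lib.MP_c77da8_nt.CP.Fin
import Pool.Agent.Lib.MP_c77da8_nt.SZ.Sz

/-!
# Doubling chains of almost primes with an odd number of prime factors at equally spaced places

For all `k ≥ 1` and `ε > 0` there are `d ≥ 1` and `δ > 0` such that for infinitely many `n` all prime factors of the
numbers `2^i n - 1`, `0 ≤ i ≤ (k-1) d`, are at least `n^δ`, and for `i = 0, d, 2 d, ..., (k-1) d` the number `2^i n - 1` is
the product of a prime and of a number `s ≤ n^ε`, squarefree with an even number of prime factors.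
-/

set_option autoImplicit false

namespace Pool.Agent.Results.MP_c77da8_nt.ParityChains

theorem result (k : ℕ) (hk : 1 ≤ k) (ε : ℝ) (hε : 0 < ε) :
    ∃ d : ℕ, 1 ≤ d ∧ ∃ δ : ℝ, 0 < δ ∧ ∀ N : ℕ, ∃ n : ℕ, N ≤ n ∧
      (∀ i ≤ (k - 1) * d, ∀ q : ℕ, q.Prime → q ∣ 2 ^ i * n - 1 → (n : ℝ) ^ δ ≤ q) ∧
      ∀ j < k, ∃ p s : ℕ, 2 ^ (j * d) * n - 1 = p * s ∧ p.Prime ∧ (s : ℝ) ≤ (n : ℝ) ^ ε ∧
        Squarefree s ∧ Even s.primeFactors.card :=
  Pool.CP.chains (fun m σ hσ => by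
    obtain ⟨N, hN⟩ := Pool.SZ.szemeredi m σ hσ
    exact ⟨N, fun S hS h => hN N le_rfl S hS h⟩) k hk ε hε

end Pool.Agent.Results.MP_c77da8_nt.ParityChains
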