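import Mathlib

namespace Pool.Agent.Results.MP_c77da8_nt.SquareRootLength

/-- `p` is the first prime of a Cunningham chain of the first kind of length `k`: all the
numbers `2^i (p+1) - 1`, `0 ≤ i < k`, are prime (and `k ≥ 1`). -/
def StartsChain (p k : ℕ) : Prop := 1 ≤ k ∧ ∀ i < k, (2 ^ i * (p + 1) - 1).Prime

theorem StartsChain.prime {p k : ℕ} (h : StartsChain p k) : p.Prime := by
  have := h.2 0 (by have := h.1; omega)
  simpa using this

theorem two_ne_zero_zmod {q : ℕ} (hq : q.Prime) (hq2 : q ≠ 2) : (2 : ZMod q) ≠ 0 := by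
  intro h0
  have h1 : ((2 : ℕ) : ZMod q) = 0 := by exact_mod_cast h0
  rw [ZMod.natCast_eq_zero_iff] at h1
  have h2 := Nat.le_of_dvd (by norm_num) h1
  have h3 := hq.two_le
  omega

theorem order_pos {q : ℕ} (hq : q.Prime) (hq2 : q ≠ 2) :
    0 < orderOf (2 : ZMod q) ∧ orderOf (2 : ZMod q) ≤ q - 1 := by
  have : Fact q.Prime := ⟨hq⟩
  have h1 : (2 : ZMod q) ^ (q - 1) = 1 := ZMod.pow_card_sub_one_eq_one (two_ne_zero_zmod hq hq2)
  have h2 : 0 < q - 1 := by have := hq.two_le; omega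
  refine ⟨?_, Nat.le_of_dvd h2 (orderOf_dvd_of_pow_eq_one h1)⟩
  rw [orderOf_pos_iff, isOfFinOrder_iff_pow_eq_one]
  exact ⟨q - 1, h2, h1⟩

/-- Core fact: if an odd prime `q < p` satisfies `2^j b = 2^i` modulo `q`, where
`p + 1 = 2^s b`, then the chain starting at `p` is shorter than the order of `2` modulo `q`. -/
theorem core {p k s b : ℕ} (h : StartsChain p k) (hb : p + 1 = 2 ^ s * b) {q : ℕ}
    (hq : q.Prime) (hq2 : q ≠ 2) (hqp : q < p) {i j : ℕ}
    (hij : (2 : ZMod q) ^ j * (b : ZMod q) = 2 ^ i) : k < orderOf (2 : ZMod q) := by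
  have : Fact q.Prime := ⟨hq⟩
  by_contra hk
  push Not at hk
  set o := orderOf (2 : ZMod q) with ho
  have hopos : 0 < o := (order_pos hq hq2).1
  have h2 : (2 : ZMod q) ≠ 0 := two_ne_zero_zmod hq hq2
  set t := (j + o * (s + i) - (s + i)) % o with ht
  have hto : t < o := Nat.mod_lt _ hopos
  have hle : s + i ≤ o * (s + i) := Nat.le_mul_of_pos_left _ hopos
  have e1 : (2 : ZMod q) ^ t = 2 ^ (j + o * (s + i) - (s + i)) := by
    rw [ht, ho, pow_mod_orderOf]
  have e2 : (2 : ZMod q) ^ t * 2 ^ (s + i) = 2 ^ j := by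
    rw [e1, ← pow_add, Nat.sub_add_cancel (by omega), pow_add, pow_mul, ho, pow_orderOf_eq_one,
      one_pow, mul_one]
  have e3 : (2 : ZMod q) ^ j * (2 ^ t * (2 ^ s * (b : ZMod q))) = 2 ^ j * 1 := by
    calc (2 : ZMod q) ^ j * (2 ^ t * (2 ^ s * (b : ZMod q)))
        = 2 ^ t * 2 ^ s * (2 ^ j * b) := by ring
      _ = 2 ^ t * 2 ^ (s + i) := by rw [hij, pow_add]; ring
      _ = 2 ^ j * 1 := by rw [e2, mul_one]
  have e4 : (2 : ZMod q) ^ t * (2 ^ s * (b : ZMod q)) = 1 :=
    mul_left_cancel₀ (pow_ne_zero _ h2) e3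
  have hprime := h.2 t (lt_of_lt_of_le hto hk)
  have hge1 : 1 ≤ 2 ^ t * (p + 1) := Nat.mul_pos (by positivity) (by omega)
  have hdvd : q ∣ 2 ^ t * (p + 1) - 1 := by
    rw [← ZMod.natCast_eq_zero_iff, Nat.cast_sub hge1, hb]
    push_cast
    rw [e4]
    simp
  have heq := (Nat.prime_dvd_prime_iff_eq hq hprime).1 hdvd
  have h2t : 1 ≤ 2 ^ t := Nat.one_le_two_pow
  have : p + 1 ≤ 2 ^ t * (p + 1) := Nat.le_mul_of_pos_left _ h2t
  omega

/-- The trivial bound. -/
theorem trivial_bound {p k : ℕ} (h : StartsChain p k) (hp2 : p ≠ 2) : k ≤ p - 1 := by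
  by_contra hk
  push Not at hk
  have hp := h.prime
  have : Fact p.Prime := ⟨hp⟩
  have hprime := h.2 (p - 1) hk
  have h1 : (2 : ZMod p) ^ (p - 1) = 1 := ZMod.pow_card_sub_one_eq_one (two_ne_zero_zmod hp hp2)
  have hge1 : 1 ≤ 2 ^ (p - 1) * (p + 1) := Nat.mul_pos (by positivity) (by omega)
  have hdvd : p ∣ 2 ^ (p - 1) * (p + 1) - 1 := by
    rw [← ZMod.natCast_eq_zero_iff, Nat.cast_sub hge1]
    push_cast
    rw [h1]
    simp
  have heq := (Nat.prime_dvd_prime_iff_eq hp hprime).1 hdvd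
  have h2t : 2 ≤ 2 ^ (p - 1) := by
    calc 2 = 2 ^ 1 := by norm_num
      _ ≤ 2 ^ (p - 1) := Nat.pow_le_pow_right (by norm_num) (by have := hp.two_le; omega)
  have : 2 * (p + 1) ≤ 2 ^ (p - 1) * (p + 1) := Nat.mul_le_mul_right _ h2t
  omega

/-- Odd numbers `n = |2^j b - 2^i|` have no prime factor `q ≤ k + 1`, `q < p`. -/
theorem factor_large {p k s b : ℕ} (h : StartsChain p k) (hb : p + 1 = 2 ^ s * b) {q : ℕ}
    (hq : q.Prime) (hq2 : q ≠ 2) (hqp : q < p) {i j n : ℕ} (hqn : q ∣ n)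
    (hn : 2 ^ j * b = 2 ^ i + n ∨ 2 ^ i = 2 ^ j * b + n) : k + 2 ≤ q := by
  have hn0 : (n : ZMod q) = 0 := (ZMod.natCast_eq_zero_iff _ _).2 hqn
  have hij : (2 : ZMod q) ^ j * (b : ZMod q) = 2 ^ i := by
    rcases hn with hn | hn
    · have := congrArg (fun m : ℕ => (m : ZMod q)) hn
      push_cast at this
      rw [this, hn0, add_zero]
    · have := congrArg (fun m : ℕ => (m : ZMod q)) hn
      push_cast at this
      rw [this, hn0, add_zero]
  have h1 := core h hb hq hq2 hqp hij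
  have h2 := (order_pos hq hq2).2
  have h3 := hq.two_le
  omega

theorem odd_of_s {p k s b : ℕ} (hp : 7 ≤ p) (h : StartsChain p k) (hb : p + 1 = 2 ^ s * b)
    (hodd : Odd b) : 1 ≤ s := by
  by_contra hs
  have hs0 : s = 0 := by omega
  subst hs0
  rw [pow_zero, one_mul] at hb
  have hpo : p % 2 = 1 := by
    rcases h.prime.eq_two_or_odd with h2 | h2
    · omega
    · exact h2
  rw [← hb, Nat.odd_iff] at hodd
  omega

theorem quarter {p k s b : ℕ} (hp : 7 ≤ p) (h : StartsChain p k) (hb : p + 1 = 2 ^ s * b)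
    (hodd : Odd b) : 4 * k ≤ p + 1 := by
  have hs := odd_of_s hp h hb hodd
  have hb2 : 2 * b ≤ p + 1 := by
    rw [hb]
    exact Nat.mul_le_mul_right _ (by
      calc 2 = 2 ^ 1 := by norm_num
        _ ≤ 2 ^ s := Nat.pow_le_pow_right (by norm_num) hs)
  have h2dvd : 2 ∣ p + 1 := by
    rw [hb]
    exact Dvd.dvd.mul_right (dvd_pow_self 2 (by omega)) b
  by_cases h3 : 3 ∣ b
  swap
  · -- `b` is a power of two modulo 3
    have hk : k < orderOf (2 : ZMod 3) := by
      have hne : (b : ZMod 3) ≠ 0 := by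
        rwa [Ne, ZMod.natCast_eq_zero_iff]
      have : (b : ZMod 3) = 2 ^ 0 ∨ (b : ZMod 3) = 2 ^ 1 := by
        revert hne
        generalize (b : ZMod 3) = x
        revert x
        decide
      rcases this with h' | h'
      · exact core h hb (by norm_num) (by norm_num) (by omega) (i := 0) (j := 0)
          (by rw [pow_zero, one_mul]; exact h'.trans (pow_zero _))
      · exact core h hb (by norm_num) (by norm_num) (by omega) (i := 1) (j := 0)
          (by rw [pow_zero, one_mul]; exact h')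
    have ho : orderOf (2 : ZMod 3) ≤ 2 :=
      Nat.le_of_dvd (by norm_num) (orderOf_dvd_of_pow_eq_one (by decide))
    omega
  by_cases h5 : 5 ∣ b
  swap
  · have hk : k < orderOf (2 : ZMod 5) := by
      have hne : (b : ZMod 5) ≠ 0 := by
        rwa [Ne, ZMod.natCast_eq_zero_iff]
      have : ∃ i : Fin 4, (b : ZMod 5) = 2 ^ (i : ℕ) := by
        revert hne
        generalize (b : ZMod 5) = x
        revert x
        decide
      obtain ⟨i, hi⟩ := this
      exact core h hb (by norm_num) (by norm_num) (by omega) (i := i) (j := 0)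
          (by rw [pow_zero, one_mul]; exact hi)
    have ho : orderOf (2 : ZMod 5) ≤ 4 :=
      Nat.le_of_dvd (by norm_num) (orderOf_dvd_of_pow_eq_one (by decide))
    have h3' : 3 ∣ p + 1 := by rw [hb]; exact Dvd.dvd.mul_left h3 _
    omega
  -- now `15 ∣ b`
  have hb0 : b ≠ 0 := by rintro rfl; simp at hodd
  have hb15 : 15 ≤ b := by
    have : 15 ∣ b := by
      have := Nat.Coprime.mul_dvd_of_dvd_of_dvd (by norm_num : Nat.Coprime 3 5) h3 h5
      simpa using this
    exact Nat.le_of_dvd (Nat.pos_of_ne_zero hb0) this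
  obtain ⟨m, hm⟩ : ∃ m, m = Nat.log 2 b := ⟨_, rfl⟩
  have hm1 : 2 ^ m ≤ b := by rw [hm]; exact Nat.pow_log_le_self 2 hb0
  have hm2 : b < 2 ^ (m + 1) := by rw [hm]; exact Nat.lt_pow_succ_log_self (by norm_num) b
  clear hm
  have hm3 : 3 ≤ m := by
    by_contra hlt
    have : 2 ^ (m + 1) ≤ 2 ^ 3 := Nat.pow_le_pow_right (by norm_num) (by omega)
    omega
  have hbodd := Nat.odd_iff.1 hodd
  have hpow : 2 ^ m % 2 = 0 := by
    obtain ⟨m', hm'⟩ : ∃ m', m = m' + 1 := ⟨m - 1, by omega⟩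
    rw [hm', pow_succ]; omega
  have hsucc : 2 ^ (m + 1) = 2 * 2 ^ m := by rw [pow_succ]; ring
  by_cases hn1 : b - 2 ^ m = 1
  · -- `b = 2^m + 1`
    have hsucc' : 2 ^ m = 2 * 2 ^ (m - 1) := by
      obtain ⟨m', hm'⟩ : ∃ m', m = m' + 1 := ⟨m - 1, by omega⟩
      rw [hm', pow_succ, Nat.add_sub_cancel]; ring
    have hpow' : 2 ^ (m - 1) % 2 = 0 := by
      obtain ⟨m', hm'⟩ : ∃ m', m - 1 = m' + 1 := ⟨m - 2, by omega⟩
      rw [hm', pow_succ]; omega
    set n := 2 ^ (m - 1) + 1 with hn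
    have hnne : n ≠ 1 := by
      have : 0 < 2 ^ (m - 1) := by positivity
      omega
    have hqd : n.minFac ∣ n := Nat.minFac_dvd n
    have hqp : n.minFac.Prime := Nat.minFac_prime hnne
    have hqle : n.minFac ≤ n := Nat.minFac_le (by omega)
    have hq2 : n.minFac ≠ 2 := by
      intro h2
      rw [h2] at hqd
      omega
    have := factor_large h hb hqp hq2 (by omega) (i := m - 1) (j := 0) (n := n) hqd
      (Or.inl (by omega))
    omega
  · set n := b - 2 ^ m with hn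
    have hqd : n.minFac ∣ n := Nat.minFac_dvd n
    have hqp : n.minFac.Prime := Nat.minFac_prime hn1
    have hqle : n.minFac ≤ n := Nat.minFac_le (by omega)
    have hq2 : n.minFac ≠ 2 := by
      intro h2
      rw [h2] at hqd
      omega
    have := factor_large h hb hqp hq2 (by omega) (i := m) (j := 0) (n := n) hqd
      (Or.inl (by omega))
    omega

/-- Let `p ≥ 7` start a Cunningham chain of the first kind of length `k`, and let `b` be the odd
part of `p + 1`. Then `4k ≤ p + 1`, and moreover `2k² < p + 1` unless `b ≤ k²` and `b` is an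
Erdős number in a strong sense: every odd number `|2^j b - 2^i| ≤ k²` is `1` or a prime
(in particular `b - 2^i` is `1` or prime for all `i ≥ 1` with `2^i < b`). -/
theorem result (p k s b : ℕ) (hp : 7 ≤ p) (h : StartsChain p k) (hb : p + 1 = 2 ^ s * b)
    (hodd : Odd b) :
    4 * k ≤ p + 1 ∧
    (2 * k ^ 2 < p + 1 ∨
      (b ≤ k ^ 2 ∧ ∀ i j n : ℕ, Odd n → n ≤ k ^ 2 →
        (2 ^ j * b = 2 ^ i + n ∨ 2 ^ i = 2 ^ j * b + n) → n = 1 ∨ n.Prime)) := by
  refine ⟨quarter hp h hb hodd, ?_⟩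
  have hs := odd_of_s hp h hb hodd
  have hb2 : 2 * b ≤ p + 1 := by
    rw [hb]
    exact Nat.mul_le_mul_right _ (by
      calc 2 = 2 ^ 1 := by norm_num
        _ ≤ 2 ^ s := Nat.pow_le_pow_right (by norm_num) hs)
  by_cases hbk : b ≤ k ^ 2
  swap
  · left; omega
  right
  refine ⟨hbk, ?_⟩
  intro i j n hno hnk hn
  by_contra hcon
  push Not at hcon
  obtain ⟨hn1, hnp⟩ := hcon
  have hn0 : 0 < n := by
    rcases Nat.eq_zero_or_pos n with h0 | h0
    · rw [h0] at hno; simp at hno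
    · exact h0
  have hqd : n.minFac ∣ n := Nat.minFac_dvd n
  have hqp : n.minFac.Prime := Nat.minFac_prime hn1
  have hsq : n.minFac ^ 2 ≤ n := Nat.minFac_sq_le_self hn0 hnp
  have hqk : n.minFac ≤ k := by
    have : n.minFac ^ 2 ≤ k ^ 2 := hsq.trans hnk
    exact (Nat.pow_le_pow_iff_left (by norm_num)).1 this
  have hq2 : n.minFac ≠ 2 := by
    intro h2
    rw [h2] at hqd
    have := Nat.odd_iff.1 hno
    omega
  have hkp := trivial_bound h (by omega)
  have := factor_large h hb hqp hq2 (by omega) hqd hn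
  omega

end Pool.Agent.Results.MP_c77da8_nt.SquareRootLength
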