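import Mathlib

/-!
# Sieving by residue classes: counting and expansion
-/

set_option autoImplicit false

namespace Pool.Agent.Lib.MP_c77da8_nt.Sv

open Finset

/-- Counting a residue class below `N`. -/
theorem card_class (N M v : ℕ) (hM : 0 < M) :
    |(((range N).filter fun m => m ≡ v [MOD M]).card : ℝ) - (N : ℝ) / M| ≤ 1 := by
  have h1 : ((range N).filter fun m => m ≡ v [MOD M]).card = N.count (· ≡ v [MOD M]) :=
    (Nat.count_eq_card_filter_range _ _).symm
  rw [h1, Nat.count_modEq_card N hM v]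
  have hMr : (0 : ℝ) < M := by exact_mod_cast hM
  have h2 : (N : ℝ) = M * ((N / M : ℕ) : ℝ) + ((N % M : ℕ) : ℝ) := by
    exact_mod_cast (Nat.div_add_mod N M).symm
  have h3 : ((N % M : ℕ) : ℝ) < M := by exact_mod_cast Nat.mod_lt N hM
  have h4 : (0 : ℝ) ≤ ((N % M : ℕ) : ℝ) := by positivity
  have h5 : (N : ℝ) / M = ((N / M : ℕ) : ℝ) + ((N % M : ℕ) : ℝ) / M := by
    rw [eq_comm]
    field_simp
    linarith
  have h6 : ((N % M : ℕ) : ℝ) / M < 1 := by rw [div_lt_one hMr]; exact h3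
  have h7 : (0 : ℝ) ≤ ((N % M : ℕ) : ℝ) / M := by positivity
  rw [h5]
  push_cast
  by_cases h8 : v % M < N % M
  · rw [if_pos h8, abs_le]
    constructor <;> linarith
  · rw [if_neg h8, abs_le]
    constructor <;> linarith

/-- The number of `m < N` in a residue class mod `M` with `m mod q ∈ B q` for all `q ∈ D`. -/
theorem card_bad (N : ℕ) (B : ℕ → Finset ℕ) (D : Finset ℕ) (hD : ∀ q ∈ D, q.Prime)
    (hB : ∀ q ∈ D, ∀ b ∈ B q, b < q) :
    ∀ M v : ℕ, 0 < M → (∀ q ∈ D, Nat.Coprime M q) →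
    |(((range N).filter fun m => m ≡ v [MOD M] ∧ ∀ q ∈ D, m % q ∈ B q).card : ℝ) -
      (N : ℝ) / M * ∏ q ∈ D, (((B q).card : ℝ) / q)| ≤ ∏ q ∈ D, ((B q).card : ℝ) := by
  classical
  induction D using Finset.induction_on with
  | empty =>
    intro M v hM _
    simpa using card_class N M v hM
  | insert q D hq ih =>
    intro M v hM hcop
    have hD' : ∀ p ∈ D, p.Prime := fun p hp => hD p (mem_insert_of_mem hp)
    have hB' : ∀ p ∈ D, ∀ b ∈ B p, b < p := fun p hp => hB p (mem_insert_of_mem hp)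
    have hqp := hD q (mem_insert_self q D)
    have hMq : Nat.Coprime M q := hcop q (mem_insert_self q D)
    have ih' := ih hD' hB'
    have hcrt : ∀ b : ℕ, ∃ c : ℕ, b < q → ∀ m : ℕ,
        (m ≡ v [MOD M] ∧ m % q = b) ↔ m ≡ c [MOD (M * q)] := by
      intro b
      obtain ⟨c, hc1, hc2⟩ := Nat.chineseRemainder hMq v b
      refine ⟨c, fun hb m => ?_⟩
      have key : m % q = b ↔ m ≡ b [MOD q] := by
        rw [Nat.ModEq, Nat.mod_eq_of_lt hb]
      rw [key, ← Nat.modEq_and_modEq_iff_modEq_mul hMq]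
      constructor
      · rintro ⟨h1, h2⟩
        exact ⟨h1.trans hc1.symm, h2.trans hc2.symm⟩
      · rintro ⟨h1, h2⟩
        exact ⟨h1.trans hc1, h2.trans hc2⟩
    choose c hc using hcrt
    have hMq0 : 0 < M * q := Nat.mul_pos hM hqp.pos
    have hcop' : ∀ p ∈ D, Nat.Coprime (M * q) p := by
      intro p hp
      refine Nat.Coprime.mul_left (hcop p (mem_insert_of_mem hp)) ?_
      refine (Nat.coprime_primes hqp (hD' p hp)).2 ?_
      rintro rfl
      exact hq hp
    have hBq : ∀ b ∈ B q, b < q := hB q (mem_insert_self q D)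
    have hsplit : (range N).filter (fun m => m ≡ v [MOD M] ∧ ∀ p ∈ insert q D, m % p ∈ B p) =
        (B q).biUnion fun b => (range N).filter fun m => m ≡ c b [MOD (M * q)] ∧
          ∀ p ∈ D, m % p ∈ B p := by
      ext m
      simp only [mem_filter, mem_range, mem_biUnion, mem_insert, forall_eq_or_imp]
      constructor
      · rintro ⟨hm, hv, hb, hall⟩
        exact ⟨m % q, hb, hm, (hc (m % q) (hBq _ hb) m).1 ⟨hv, rfl⟩, hall⟩
      · rintro ⟨b, hb, hm, hmod, hall⟩
        obtain ⟨h1, h2⟩ := (hc b (hBq b hb) m).2 hmod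
        exact ⟨hm, h1, h2 ▸ hb, hall⟩
    have hdisj : ∀ b ∈ B q, ∀ b' ∈ B q, b ≠ b' → Disjoint
        ((range N).filter fun m => m ≡ c b [MOD (M * q)] ∧ ∀ p ∈ D, m % p ∈ B p)
        ((range N).filter fun m => m ≡ c b' [MOD (M * q)] ∧ ∀ p ∈ D, m % p ∈ B p) := by
      intro b hb b' hb' hne
      rw [Finset.disjoint_left]
      intro m hm hm'
      simp only [mem_filter] at hm hm'
      have h1 := ((hc b (hBq b hb) m).2 hm.2.1).2
      have h2 := ((hc b' (hBq b' hb') m).2 hm'.2.1).2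
      exact hne (h1.symm.trans h2)
    rw [hsplit, card_biUnion hdisj, prod_insert hq, prod_insert hq]
    push_cast
    have hb : ∀ b ∈ B q, |(((range N).filter fun m => m ≡ c b [MOD (M * q)] ∧
          ∀ p ∈ D, m % p ∈ B p).card : ℝ) -
        (N : ℝ) / ((M * q : ℕ) : ℝ) * ∏ p ∈ D, (((B p).card : ℝ) / p)| ≤
          ∏ p ∈ D, ((B p).card : ℝ) := fun b _ => ih' (M * q) (c b) hMq0 hcop'
    have e1 : (N : ℝ) / M * (((B q).card : ℝ) / q * ∏ p ∈ D, (((B p).card : ℝ) / p)) =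
        ∑ b ∈ B q, (N : ℝ) / ((M * q : ℕ) : ℝ) * ∏ p ∈ D, (((B p).card : ℝ) / p) := by
      rw [sum_const, nsmul_eq_mul]
      push_cast
      rw [div_mul_eq_div_div]
      ring
    rw [e1, ← sum_sub_distrib]
    calc _ ≤ ∑ b ∈ B q, _ := abs_sum_le_sum_abs _ _
      _ ≤ ∑ b ∈ B q, ∏ p ∈ D, ((B p).card : ℝ) := sum_le_sum hb
      _ = _ := by rw [sum_const, nsmul_eq_mul]

/-- The set of bad primes of `m` in `P`. -/
def bad (B : ℕ → Finset ℕ) (P : Finset ℕ) (m : ℕ) : Finset ℕ := P.filter fun q => m % q ∈ B q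

/-- The subsets of `P` with at most `s` elements. -/
def sub (P : Finset ℕ) (s : ℕ) : Finset (Finset ℕ) := P.powerset.filter fun D => D.card ≤ s

theorem sum_choose (B : ℕ → Finset ℕ) (P : Finset ℕ) (m s : ℕ) (c : ℕ → ℝ) :
    ∑ r ∈ range (s + 1), c r * (((bad B P m).card.choose r : ℕ) : ℝ) =
      ∑ D ∈ sub P s, c D.card * if (∀ q ∈ D, m % q ∈ B q) then (1 : ℝ) else 0 := by
  classical
  have h1 : ∑ D ∈ sub P s, c D.card * (if (∀ q ∈ D, m % q ∈ B q) then (1 : ℝ) else 0) =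
      ∑ D ∈ (bad B P m).powerset.filter (fun D => D.card ≤ s), c D.card := by
    simp_rw [mul_ite, mul_one, mul_zero]
    rw [← Finset.sum_filter]
    refine sum_congr ?_ fun _ _ => rfl
    ext D
    simp only [sub, bad, mem_filter, mem_powerset]
    constructor
    · rintro ⟨⟨h1, h2⟩, h3⟩
      exact ⟨fun q hq => mem_filter.2 ⟨h1 hq, h3 q hq⟩, h2⟩
    · rintro ⟨h1, h2⟩
      exact ⟨⟨fun q hq => (mem_filter.1 (h1 hq)).1, h2⟩, fun q hq => (mem_filter.1 (h1 hq)).2⟩
  rw [h1, ← sum_fiberwise_of_maps_to (s := (bad B P m).powerset.filter (fun D => D.card ≤ s))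
    (t := range (s + 1)) (g := fun D => D.card)
    (fun D hD => mem_range.2 (Nat.lt_succ_of_le (mem_filter.1 hD).2))]
  refine sum_congr rfl fun r hr => ?_
  have h2 : ((bad B P m).powerset.filter (fun D => D.card ≤ s)).filter (fun D => D.card = r) =
      (bad B P m).powersetCard r := by
    ext D
    simp only [mem_filter, mem_powerset, mem_powersetCard]
    have : r ≤ s := Nat.lt_succ_iff.1 (mem_range.1 hr)
    constructor
    · rintro ⟨⟨h3, _⟩, h4⟩
      exact ⟨h3, h4⟩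
    · rintro ⟨h3, h4⟩
      exact ⟨⟨h3, h4 ▸ this⟩, h4⟩
  rw [h2, Finset.sum_congr rfl (g := fun _ => c r)
    (fun D hD => by rw [(mem_powersetCard.1 hD).2]), sum_const, card_powersetCard, nsmul_eq_mul]
  ring

theorem esymm_le_pow (P : Finset ℕ) (b : ℕ → ℝ) (hb : ∀ q ∈ P, 0 ≤ b q) (r : ℕ) :
    ∑ D ∈ P.powersetCard r, ∏ q ∈ D, b q ≤ (∑ q ∈ P, b q) ^ r := by
  classical
  induction P using Finset.induction_on generalizing r with
  | empty =>
    cases r with
    | zero => simp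
    | succ r =>
      rw [Finset.powersetCard_eq_empty.2 (by simp)]
      simp
  | insert a P ha ih =>
    have hb' : ∀ q ∈ P, 0 ≤ b q := fun q hq => hb q (mem_insert_of_mem hq)
    have ha0 : 0 ≤ b a := hb a (mem_insert_self a P)
    have hS : 0 ≤ ∑ q ∈ P, b q := sum_nonneg hb'
    cases r with
    | zero => simp
    | succ r =>
      rw [← Nat.succ_eq_add_one, Finset.powersetCard_succ_insert ha, Finset.sum_union,
        Finset.sum_image, sum_insert ha]
      · have h1 : ∑ e ∈ powersetCard r P, ∏ j ∈ insert a e, b j =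
            b a * ∑ e ∈ powersetCard r P, ∏ j ∈ e, b j := by
          rw [mul_sum]
          refine sum_congr rfl fun e he => ?_
          rw [mem_powersetCard] at he
          rw [prod_insert fun h => ha (he.1 h)]
        rw [h1]
        have h2 := ih hb' (r + 1)
        have h3 := ih hb' r
        have h4 : (∑ q ∈ P, b q) ^ r ≤ (b a + ∑ q ∈ P, b q) ^ r :=
          pow_le_pow_left₀ hS (by linarith) r
        calc _ ≤ (∑ q ∈ P, b q) ^ (r + 1) + b a * (∑ q ∈ P, b q) ^ r :=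
              add_le_add h2 (mul_le_mul_of_nonneg_left h3 ha0)
          _ = (b a + ∑ q ∈ P, b q) * (∑ q ∈ P, b q) ^ r := by ring
          _ ≤ (b a + ∑ q ∈ P, b q) * (b a + ∑ q ∈ P, b q) ^ r :=
              mul_le_mul_of_nonneg_left h4 (by linarith)
          _ = _ := by rw [Nat.succ_eq_add_one]; ring
      · intro e he e' he' hee
        rw [Finset.mem_coe, Finset.mem_powersetCard] at he he'
        have h1 : a ∉ e := fun h => ha (he.1 h)
        have h2 : a ∉ e' := fun h => ha (he'.1 h)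
        have := congrArg (fun s => Finset.erase s a) hee
        simpa [Finset.erase_insert h1, Finset.erase_insert h2] using this
      · rw [Finset.disjoint_left]
        intro e he he'
        rw [Finset.mem_powersetCard] at he
        rw [Finset.mem_image] at he'
        obtain ⟨e', _, rfl⟩ := he'
        exact ha (he.1 (Finset.mem_insert_self _ _))

/-- Sums over `sub P s` by cardinality. -/
theorem sum_sub (P : Finset ℕ) (s : ℕ) (f : Finset ℕ → ℝ) :
    ∑ D ∈ sub P s, f D = ∑ r ∈ range (s + 1), ∑ D ∈ P.powersetCard r, f D := by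
  classical
  rw [← sum_fiberwise_of_maps_to (s := sub P s)
    (t := range (s + 1)) (g := fun D => D.card)
    (fun D hD => mem_range.2 (Nat.lt_succ_of_le (mem_filter.1 hD).2))]
  refine sum_congr rfl fun r hr => sum_congr ?_ fun _ _ => rfl
  ext D
  simp only [sub, mem_filter, mem_powerset, mem_powersetCard]
  have : r ≤ s := Nat.lt_succ_iff.1 (mem_range.1 hr)
  constructor
  · rintro ⟨⟨h3, _⟩, h4⟩
    exact ⟨h3, h4⟩
  · rintro ⟨h3, h4⟩
    exact ⟨⟨h3, h4 ▸ this⟩, h4⟩

theorem sub_le_pow (P : Finset ℕ) (s : ℕ) (b : ℕ → ℝ) (hb : ∀ q ∈ P, 0 ≤ b q) :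
    ∑ D ∈ sub P s, ∏ q ∈ D, b q ≤ (1 + ∑ q ∈ P, b q) ^ s := by
  rw [sum_sub, add_comm (1 : ℝ), add_pow]
  refine sum_le_sum fun r hr => ?_
  have h0 : 0 ≤ ∑ q ∈ P, b q := sum_nonneg hb
  have h1 := esymm_le_pow P b hb r
  have h2 : (1 : ℝ) ≤ (s.choose r : ℝ) := by
    exact_mod_cast Nat.choose_pos (Nat.lt_succ_iff.1 (mem_range.1 hr))
  have h3 : 0 ≤ (∑ q ∈ P, b q) ^ r := pow_nonneg h0 r
  rw [one_pow, mul_one]
  nlinarith

/-- The main expansion: a product of truncated sums over blocks of primes. -/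
theorem expand (N M v t : ℕ) (hM : 0 < M) (B : ℕ → Finset ℕ) (P : Fin t → Finset ℕ)
    (hP : ∀ i, ∀ q ∈ P i, q.Prime) (hB : ∀ i, ∀ q ∈ P i, ∀ b ∈ B q, b < q)
    (hcop : ∀ i, ∀ q ∈ P i, Nat.Coprime M q)
    (hdis : ∀ i j, i ≠ j → Disjoint (P i) (P j)) (s : Fin t → ℕ) (c : Fin t → ℕ → ℝ)
    (hc : ∀ i r, |c i r| ≤ 1) :
    |∑ m ∈ (range N).filter (fun m => m ≡ v [MOD M]), ∏ i, ∑ r ∈ range (s i + 1),
        c i r * (((bad B (P i) m).card.choose r : ℕ) : ℝ) -
      (N : ℝ) / M * ∏ i, ∑ D ∈ sub (P i) (s i), c i D.card * ∏ q ∈ D, (((B q).card : ℝ) / q)| ≤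
      ∏ i, (1 + ∑ q ∈ P i, ((B q).card : ℝ)) ^ s i := by
  classical
  have h1 : ∀ m, ∏ i, ∑ r ∈ range (s i + 1), c i r * (((bad B (P i) m).card.choose r : ℕ) : ℝ) =
      ∑ φ ∈ Fintype.piFinset (fun i => sub (P i) (s i)), (∏ i, c i (φ i).card) *
        if (∀ q ∈ univ.biUnion φ, m % q ∈ B q) then (1 : ℝ) else 0 := by
    intro m
    simp_rw [sum_choose]
    rw [Finset.prod_univ_sum]
    refine sum_congr rfl fun φ _ => ?_
    rw [prod_mul_distrib]
    congr 1
    by_cases h : ∀ q ∈ univ.biUnion φ, m % q ∈ B q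
    · rw [if_pos h]
      refine prod_eq_one fun i _ => ?_
      rw [if_pos]
      intro q hq
      exact h q (mem_biUnion.2 ⟨i, mem_univ i, hq⟩)
    · rw [if_neg h]
      push Not at h
      obtain ⟨q, hq, hq2⟩ := h
      obtain ⟨i, _, hi⟩ := mem_biUnion.1 hq
      refine prod_eq_zero (mem_univ i) ?_
      rw [if_neg]
      push Not
      exact ⟨q, hi, hq2⟩
  have h2 : ∑ m ∈ (range N).filter (fun m => m ≡ v [MOD M]), ∏ i, ∑ r ∈ range (s i + 1),
      c i r * (((bad B (P i) m).card.choose r : ℕ) : ℝ) =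
      ∑ φ ∈ Fintype.piFinset (fun i => sub (P i) (s i)), (∏ i, c i (φ i).card) *
        (((range N).filter fun m => m ≡ v [MOD M] ∧
          ∀ q ∈ univ.biUnion φ, m % q ∈ B q).card : ℝ) := by
    simp_rw [h1]
    rw [sum_comm]
    refine sum_congr rfl fun φ _ => ?_
    rw [← mul_sum, ← filter_filter, card_filter]
    push_cast
    rfl
  have hφ : ∀ φ ∈ Fintype.piFinset (fun i => sub (P i) (s i)), ∀ i, φ i ⊆ P i := by
    intro φ hφ i
    have := Fintype.mem_piFinset.1 hφ i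
    exact mem_powerset.1 (mem_filter.1 this).1
  have hpd : ∀ φ ∈ Fintype.piFinset (fun i => sub (P i) (s i)),
      ((univ : Finset (Fin t)) : Set (Fin t)).PairwiseDisjoint φ := by
    intro φ h i _ j _ hij
    exact (hdis i j hij).mono (hφ φ h i) (hφ φ h j)
  have h3 : (N : ℝ) / M * ∏ i, ∑ D ∈ sub (P i) (s i), c i D.card *
      ∏ q ∈ D, (((B q).card : ℝ) / q) =
      ∑ φ ∈ Fintype.piFinset (fun i => sub (P i) (s i)), (∏ i, c i (φ i).card) *
        ((N : ℝ) / M * ∏ q ∈ univ.biUnion φ, (((B q).card : ℝ) / q)) := by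
    rw [Finset.prod_univ_sum, mul_sum]
    refine sum_congr rfl fun φ h => ?_
    rw [prod_mul_distrib, prod_biUnion (hpd φ h)]
    ring
  rw [h2, h3, ← sum_sub_distrib]
  calc _ ≤ ∑ φ ∈ Fintype.piFinset (fun i => sub (P i) (s i)), _ := abs_sum_le_sum_abs _ _
    _ ≤ ∑ φ ∈ Fintype.piFinset (fun i => sub (P i) (s i)), ∏ i, ∏ q ∈ φ i, ((B q).card : ℝ) := by
        refine sum_le_sum fun φ h => ?_
        rw [← mul_sub, abs_mul]
        have hq : ∀ q ∈ univ.biUnion φ, ∃ i, q ∈ P i := by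
          intro q hq
          obtain ⟨i, _, hi⟩ := mem_biUnion.1 hq
          exact ⟨i, hφ φ h i hi⟩
        have h4 := card_bad N B (univ.biUnion φ)
          (fun q hq' => by obtain ⟨i, hi⟩ := hq q hq'; exact hP i q hi)
          (fun q hq' => by obtain ⟨i, hi⟩ := hq q hq'; exact hB i q hi) M v hM
          (fun q hq' => by obtain ⟨i, hi⟩ := hq q hq'; exact hcop i q hi)
        rw [prod_biUnion (hpd φ h) (f := fun q => ((B q).card : ℝ))] at h4
        have h5 : |∏ i, c i (φ i).card| ≤ 1 := by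
          rw [abs_prod]
          exact prod_le_one (fun i _ => abs_nonneg _) fun i _ => hc i _
        calc _ ≤ 1 * ∏ i, ∏ q ∈ φ i, ((B q).card : ℝ) :=
              mul_le_mul h5 h4 (abs_nonneg _) zero_le_one
          _ = _ := one_mul _
    _ = ∏ i, ∑ D ∈ sub (P i) (s i), ∏ q ∈ D, ((B q).card : ℝ) := by
        rw [Finset.prod_univ_sum]
    _ ≤ _ := by
        refine prod_le_prod (fun i _ => ?_) fun i _ => ?_
        · exact sum_nonneg fun D _ => prod_nonneg fun q _ => Nat.cast_nonneg _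
        · exact sub_le_pow (P i) (s i) _ fun q _ => Nat.cast_nonneg _

end Pool.Agent.Lib.MP_c77da8_nt.Sv
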