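import Pool.Agent.Lib.MP_c77da8_nt.Sv1

/-!
# Upper and lower bound sieves (Brun-Hooley)
-/

set_option autoImplicit false

namespace Pool.Agent.Lib.MP_c77da8_nt.Sv

open Finset

/-- coefficients of the truncated alternating sum -/
noncomputable def ca (s r : ℕ) : ℝ := if r < s then (-1) ^ r else 0

/-- coefficients of the top binomial -/
noncomputable def ct (s r : ℕ) : ℝ := if r = s then 1 else 0

theorem abs_ca (s r : ℕ) : |ca s r| ≤ 1 := by
  unfold ca
  split_ifs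
  · rw [abs_pow]; simp
  · simp

theorem abs_ct (s r : ℕ) : |ct s r| ≤ 1 := by
  unfold ct
  split_ifs <;> simp

theorem alt_zero (b : ℕ) :
    ∑ r ∈ range (2 * b + 1 + 1), ca (2 * b + 1) r * (((0 : ℕ).choose r : ℕ) : ℝ) = 1 := by
  rw [sum_range_succ']
  simp [ca]

theorem alt_succ (b n : ℕ) :
    ∑ r ∈ range (2 * b + 1 + 1), ca (2 * b + 1) r * (((n + 1).choose r : ℕ) : ℝ) =
      ((n.choose (2 * b) : ℕ) : ℝ) := by
  have h1 := Int.alternating_sum_range_choose_eq_choose (n := n) (m := 2 * b)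
  have h3 : ((∑ k ∈ range (2 * b + 1), ((-1) ^ k * (n + 1).choose k : ℤ) : ℤ) : ℝ) =
      (((-1) ^ (2 * b) * n.choose (2 * b) : ℤ) : ℝ) := by rw [h1]
  push_cast at h3
  rw [sum_range_succ]
  have h4 : ca (2 * b + 1) (2 * b + 1) = 0 := by simp [ca]
  rw [h4, zero_mul, add_zero]
  have h5 : ∑ r ∈ range (2 * b + 1), ca (2 * b + 1) r * (((n + 1).choose r : ℕ) : ℝ) =
      ∑ k ∈ range (2 * b + 1), ((-1 : ℝ) ^ k * ((n + 1).choose k : ℝ)) := by
    refine sum_congr rfl fun r hr => ?_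
    rw [ca, if_pos (mem_range.1 hr)]
  rw [h5, h3]
  simp

theorem top_eq (s e : ℕ) :
    ∑ r ∈ range (s + 1), ct s r * ((e.choose r : ℕ) : ℝ) = ((e.choose s : ℕ) : ℝ) := by
  rw [sum_range_succ, sum_eq_zero]
  · simp [ct]
  · intro r hr
    have : r ≠ s := (mem_range.1 hr).ne
    simp [ct, this]

/-- the three pointwise inequalities -/
theorem ptw (s e : ℕ) (hs : Odd s) :
    (if e = 0 then (1 : ℝ) else 0) ≤ ∑ r ∈ range (s + 1), ca s r * ((e.choose r : ℕ) : ℝ) ∧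
    ∑ r ∈ range (s + 1), ca s r * ((e.choose r : ℕ) : ℝ) ≤
      (if e = 0 then (1 : ℝ) else 0) + ∑ r ∈ range (s + 1), ct s r * ((e.choose r : ℕ) : ℝ) := by
  obtain ⟨b, rfl⟩ := hs
  rw [top_eq]
  rcases Nat.eq_zero_or_pos e with h | h
  · subst h
    rw [alt_zero, if_pos rfl]
    constructor
    · exact le_refl _
    · have : (0 : ℝ) ≤ (((0 : ℕ).choose (2 * b + 1) : ℕ) : ℝ) := Nat.cast_nonneg _
      linarith
  · obtain ⟨n, rfl⟩ : ∃ n, e = n + 1 := ⟨e - 1, by omega⟩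
    rw [alt_succ, if_neg (by omega)]
    constructor
    · exact Nat.cast_nonneg _
    · rw [zero_add]
      have : n.choose (2 * b) ≤ (n + 1).choose (2 * b + 1) := by
        have h := Nat.choose_succ_succ' n (2 * b)
        omega
      exact_mod_cast this

theorem prod_ineq {t : ℕ} (S : Finset (Fin t)) (x y z : Fin t → ℝ) (hx : ∀ i, 0 ≤ x i)
    (hxy : ∀ i, x i ≤ y i) (hyz : ∀ i, y i ≤ x i + z i) (hz : ∀ i, 0 ≤ z i) :
    ∏ i ∈ S, y i ≤ ∏ i ∈ S, x i + ∑ l ∈ S, z l * ∏ i ∈ S.erase l, y i := by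
  classical
  induction S using Finset.induction_on with
  | empty => simp
  | insert a S ha ih =>
    have hy : ∀ i, 0 ≤ y i := fun i => (hx i).trans (hxy i)
    rw [prod_insert ha, prod_insert ha, sum_insert ha, erase_insert ha]
    have h1 : ∑ l ∈ S, z l * ∏ i ∈ (insert a S).erase l, y i =
        y a * ∑ l ∈ S, z l * ∏ i ∈ S.erase l, y i := by
      rw [mul_sum]
      refine sum_congr rfl fun l hl => ?_
      have hla : l ≠ a := fun h => ha (h ▸ hl)
      rw [erase_insert_of_ne hla.symm, prod_insert fun h => ha (mem_of_mem_erase h)]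
      ring
    rw [h1]
    have h2 : 0 ≤ ∏ i ∈ S, x i := prod_nonneg fun i _ => hx i
    have h3 : ∏ i ∈ S, x i ≤ ∏ i ∈ S, y i := prod_le_prod (fun i _ => hx i) fun i _ => hxy i
    have h4 : y a * ∏ i ∈ S, y i ≤
        y a * (∏ i ∈ S, x i + ∑ l ∈ S, z l * ∏ i ∈ S.erase l, y i) :=
      mul_le_mul_of_nonneg_left ih (hy a)
    have h5 : y a * ∏ i ∈ S, x i ≤ x a * ∏ i ∈ S, x i + z a * ∏ i ∈ S, x i := by
      rw [← add_mul]
      exact mul_le_mul_of_nonneg_right (hyz a) h2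
    have h6 : z a * ∏ i ∈ S, x i ≤ z a * ∏ i ∈ S, y i := mul_le_mul_of_nonneg_left h3 (hz a)
    linarith

theorem one_sub_ge (x : ℝ) (h0 : 0 ≤ x) (h1 : x ≤ 1 / 2) : Real.exp (-2 * x) ≤ 1 - x := by
  have h2 : 2 * x + 1 ≤ Real.exp (2 * x) := Real.add_one_le_exp _
  have h3 : 0 < Real.exp (2 * x) := Real.exp_pos _
  rw [show -2 * x = -(2 * x) by ring, Real.exp_neg, inv_le_iff_one_le_mul₀ h3]
  nlinarith

section Main

variable (g : ℕ → ℝ)

/-- the tail of the elementary symmetric functions -/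
theorem tail_le (P : Finset ℕ) (hg : ∀ q ∈ P, 0 ≤ g q) (s : ℕ) (A : Finset (Finset ℕ))
    (hA : ∀ D ∈ A, D ⊆ P ∧ s ≤ D.card) :
    ∑ D ∈ A, ∏ q ∈ D, g q ≤ Real.exp (-(s : ℝ) + 3 * ∑ q ∈ P, g q) := by
  classical
  have he : Real.exp 1 ≤ 3 := by have := Real.exp_one_lt_d9; linarith
  calc ∑ D ∈ A, ∏ q ∈ D, g q
      ≤ ∑ D ∈ A, Real.exp (-(s : ℝ)) * ∏ q ∈ D, (Real.exp 1 * g q) := by
        refine sum_le_sum fun D hD => ?_
        obtain ⟨h1, h2⟩ := hA D hD
        have h3 : 0 ≤ ∏ q ∈ D, g q := prod_nonneg fun q hq => hg q (h1 hq)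
        rw [prod_mul_distrib, prod_const, ← Real.exp_nat_mul, ← mul_assoc, ← Real.exp_add]
        have h4 : (1 : ℝ) ≤ Real.exp (-(s : ℝ) + D.card * 1) := by
          apply Real.one_le_exp
          have : (s : ℝ) ≤ D.card := by exact_mod_cast h2
          linarith
        nlinarith
    _ ≤ ∑ D ∈ P.powerset, Real.exp (-(s : ℝ)) * ∏ q ∈ D, (Real.exp 1 * g q) := by
        refine sum_le_sum_of_subset_of_nonneg (fun D hD => mem_powerset.2 (hA D hD).1) ?_
        intro D hD _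
        have h1 : 0 ≤ ∏ q ∈ D, (Real.exp 1 * g q) :=
          prod_nonneg fun q hq => mul_nonneg (Real.exp_pos _).le (hg q (mem_powerset.1 hD hq))
        positivity
    _ = Real.exp (-(s : ℝ)) * ∏ q ∈ P, (1 + Real.exp 1 * g q) := by
        rw [← mul_sum, prod_one_add]
    _ ≤ Real.exp (-(s : ℝ)) * Real.exp (3 * ∑ q ∈ P, g q) := by
        refine mul_le_mul_of_nonneg_left ?_ (Real.exp_pos _).le
        rw [mul_sum, Real.exp_sum]
        refine prod_le_prod (fun q hq => ?_) fun q hq => ?_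
        · have := mul_nonneg (Real.exp_pos 1).le (hg q hq)
          linarith
        · have h1 := Real.add_one_le_exp (3 * g q)
          have h2 := hg q hq
          nlinarith
    _ = _ := by rw [← Real.exp_add]

theorem top_le (P : Finset ℕ) (hg : ∀ q ∈ P, 0 ≤ g q) (s : ℕ) :
    ∑ D ∈ sub P s, ct s D.card * ∏ q ∈ D, g q ≤ Real.exp (-(s : ℝ) + 3 * ∑ q ∈ P, g q) := by
  classical
  have h1 : ∑ D ∈ sub P s, ct s D.card * ∏ q ∈ D, g q =
      ∑ D ∈ (sub P s).filter (fun D => D.card = s), ∏ q ∈ D, g q := by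
    rw [sum_filter]
    refine sum_congr rfl fun D _ => ?_
    unfold ct
    split_ifs <;> simp
  rw [h1]
  refine tail_le g P hg s _ fun D hD => ?_
  rw [mem_filter] at hD
  exact ⟨mem_powerset.1 (mem_filter.1 hD.1).1, hD.2.ge⟩

theorem top_nonneg (P : Finset ℕ) (hg : ∀ q ∈ P, 0 ≤ g q) (s : ℕ) :
    0 ≤ ∑ D ∈ sub P s, ct s D.card * ∏ q ∈ D, g q := by
  refine sum_nonneg fun D hD => ?_
  have h1 : 0 ≤ ∏ q ∈ D, g q :=
    prod_nonneg fun q hq => hg q (mem_powerset.1 (mem_filter.1 hD).1 hq)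
  have h2 : 0 ≤ ct s D.card := by
    unfold ct; split_ifs <;> norm_num
  positivity

theorem alt_le (P : Finset ℕ) (hg : ∀ q ∈ P, 0 ≤ g q) (s : ℕ) :
    |∑ D ∈ sub P s, ca s D.card * ∏ q ∈ D, g q - ∏ q ∈ P, (1 - g q)| ≤
      Real.exp (-(s : ℝ) + 3 * ∑ q ∈ P, g q) := by
  classical
  have h1 : ∑ D ∈ sub P s, ca s D.card * ∏ q ∈ D, g q =
      ∑ D ∈ P.powerset.filter (fun D => D.card < s), ∏ q ∈ D, (-g q) := by
    have h2 : ∑ D ∈ sub P s, ca s D.card * ∏ q ∈ D, g q =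
        ∑ D ∈ (sub P s).filter (fun D => D.card < s), ∏ q ∈ D, (-g q) := by
      rw [sum_filter]
      refine sum_congr rfl fun D _ => ?_
      unfold ca
      split_ifs
      · rw [prod_neg]
      · simp
    rw [h2]
    refine sum_congr ?_ fun _ _ => rfl
    ext D
    simp only [sub, mem_filter, mem_powerset]
    constructor
    · rintro ⟨⟨h3, _⟩, h4⟩
      exact ⟨h3, h4⟩
    · rintro ⟨h3, h4⟩
      exact ⟨⟨h3, h4.le⟩, h4⟩
  have h2 : ∏ q ∈ P, (1 - g q) = ∑ D ∈ P.powerset, ∏ q ∈ D, (-g q) := by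
    rw [← prod_one_add]
    exact prod_congr rfl fun q _ => by ring
  have h3 := sum_filter_add_sum_filter_not P.powerset (fun D => D.card < s)
      (fun D => ∏ q ∈ D, (-g q))
  rw [h1, h2, ← h3, sub_add_cancel_left, abs_neg]
  refine (abs_sum_le_sum_abs _ _).trans ?_
  have h4 : ∑ D ∈ P.powerset.filter (fun D => ¬ D.card < s), |∏ q ∈ D, (-g q)| =
      ∑ D ∈ P.powerset.filter (fun D => ¬ D.card < s), ∏ q ∈ D, g q := by
    refine sum_congr rfl fun D hD => ?_
    rw [abs_prod]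
    refine prod_congr rfl fun q hq => ?_
    rw [abs_neg, abs_of_nonneg (hg q (mem_powerset.1 (mem_filter.1 hD).1 hq))]
  rw [h4]
  refine tail_le g P hg s _ fun D hD => ?_
  rw [mem_filter] at hD
  exact ⟨mem_powerset.1 hD.1, not_lt.1 hD.2⟩

theorem V_ge (P : Finset ℕ) (hg : ∀ q ∈ P, 0 ≤ g q) (hg2 : ∀ q ∈ P, g q ≤ 1 / 2) :
    Real.exp (-2 * ∑ q ∈ P, g q) ≤ ∏ q ∈ P, (1 - g q) := by
  rw [mul_sum, Real.exp_sum]
  exact prod_le_prod (fun q _ => (Real.exp_pos _).le) fun q hq => one_sub_ge _ (hg q hq) (hg2 q hq)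

end Main

theorem geom_bound (t : ℕ) : ∑ i : Fin t, Real.exp (-(3 : ℝ) - (i : ℕ)) ≤ 1 / 10 := by
  have h1 : ∀ n : ℕ, ∑ i ∈ range n, Real.exp (-(3 : ℝ) - (i : ℕ)) ≤
      (1 / 10) * (1 - (1 / 2) ^ n) := by
    intro n
    induction n with
    | zero => simp
    | succ n ih =>
      rw [sum_range_succ]
      have h2 : Real.exp (-(3 : ℝ) - (n : ℕ)) ≤ (1 / 20) * (1 / 2) ^ n := by
        have he : (2.7 : ℝ) ≤ Real.exp 1 := by have := Real.exp_one_gt_d9; linarith
        have h3 : Real.exp (-(3 : ℝ)) ≤ 1 / 19 := by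
          rw [Real.exp_neg, inv_le_comm₀ (Real.exp_pos _) (by norm_num)]
          have : Real.exp 3 = Real.exp 1 ^ 3 := by
            rw [← Real.exp_nat_mul]; norm_num
          rw [this]
          calc ((1 : ℝ) / 19)⁻¹ = 19 := by norm_num
            _ ≤ 2.7 ^ 3 := by norm_num
            _ ≤ Real.exp 1 ^ 3 := by gcongr
        have h4 : Real.exp (-(n : ℝ)) ≤ (1 / 2) ^ n := by
          rw [Real.exp_neg, one_div, inv_pow]
          refine inv_anti₀ (by positivity) ?_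
          have : Real.exp (n : ℝ) = Real.exp 1 ^ n := by
            rw [← Real.exp_nat_mul]; norm_num
          rw [this]
          exact pow_le_pow_left₀ (by norm_num) (by linarith) n
        rw [sub_eq_add_neg, Real.exp_add]
        have h5 : Real.exp (-(3 : ℝ)) ≤ 1 / 20 := by
          rw [Real.exp_neg, inv_le_comm₀ (Real.exp_pos _) (by norm_num)]
          have : Real.exp 3 = Real.exp 1 ^ 3 := by
            rw [← Real.exp_nat_mul]; norm_num
          rw [this]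
          have he : (2.718 : ℝ) ≤ Real.exp 1 := by have := Real.exp_one_gt_d9; linarith
          calc ((1 : ℝ) / 20)⁻¹ = 20 := by norm_num
            _ ≤ 2.718 ^ 3 := by norm_num
            _ ≤ Real.exp 1 ^ 3 := by gcongr
        exact mul_le_mul h5 h4 (Real.exp_pos _).le (by norm_num)
      calc _ ≤ (1 / 10) * (1 - (1 / 2 : ℝ) ^ n) + (1 / 20) * (1 / 2) ^ n := add_le_add ih h2
        _ = _ := by rw [pow_succ]; ring
  have h2 := h1 t
  rw [Fin.sum_univ_eq_sum_range (fun i => Real.exp (-(3 : ℝ) - (i : ℕ))) t]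
  refine h2.trans ?_
  have : (0 : ℝ) ≤ (1 / 2 : ℝ) ^ t := by positivity
  linarith

end Pool.Agent.Lib.MP_c77da8_nt.Sv
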