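import Pool.Agent.Lib.MP_c77da8_nt.Sv4

/-!
# Divisors with many prime factors, Rankin's method
-/

set_option autoImplicit false

namespace Pool.Agent.Lib.MP_c77da8_nt.Sv

open Finset Mert ArithmeticFunction

/-- `n ↦ 2^Ω(n)/n` on the odd numbers, `0` on the even ones. -/
noncomputable def fO : ℕ →* ℝ where
  toFun n := if Odd n then (2 : ℝ) ^ (cardFactors n) / n else 0
  map_one' := by simp
  map_mul' m n := by
    by_cases hm : Odd m
    · by_cases hn : Odd n
      · rw [if_pos (hm.mul hn), if_pos hm, if_pos hn,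
          cardFactors_mul (by rintro rfl; simp at hm) (by rintro rfl; simp at hn), pow_add]
        push_cast
        rw [div_mul_div_comm]
      · rw [if_neg (fun h => hn (Nat.odd_mul.1 h).2), if_neg hn, mul_zero]
    · rw [if_neg (fun h => hm (Nat.odd_mul.1 h).1), if_neg hm, zero_mul]

theorem fO_apply (n : ℕ) : fO n = if Odd n then (2 : ℝ) ^ (cardFactors n) / n else 0 := rfl

theorem fO_nonneg (n : ℕ) : 0 ≤ fO n := by
  rw [fO_apply]
  split_ifs <;> positivity

theorem fO_prime {p : ℕ} (hp : p.Prime) (h2 : p ≠ 2) : fO p = 2 / p := by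
  rw [fO_apply, if_pos (hp.odd_of_ne_two h2), cardFactors_apply_prime hp, pow_one]

theorem fO_norm {p : ℕ} (hp : p.Prime) : ‖fO p‖ < 1 := by
  rw [Real.norm_of_nonneg (fO_nonneg p)]
  by_cases h2 : p = 2
  · subst h2
    rw [fO_apply, if_neg (by decide)]
    norm_num
  · rw [fO_prime hp h2]
    have h3 : 2 < p := lt_of_le_of_ne hp.two_le (Ne.symm h2)
    have h4 : (2 : ℝ) < p := by exact_mod_cast h3
    rw [div_lt_one (by linarith)]
    exact h4

/-- the divisors used to detect many prime factors -/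
def dv (a y r : ℕ) : Finset ℕ :=
  (Ioc 0 (2 ^ y)).filter fun d => cardFactors d = r ∧ ∀ p ∈ d.primeFactors, 2 ^ a < p

theorem rankin (a y r : ℕ) (ha : 2 ≤ a) (hay : a ≤ y) :
    ∑ d ∈ dv a y r, (1 : ℝ) / d ≤
      (1 / 2) ^ r * Real.exp (4 * (Real.log ((y : ℝ) / a) + 8)) := by
  set Q : Finset ℕ := Nat.primesLE (2 ^ y) \ Nat.primesLE (2 ^ a) with hQ
  have hQmem : ∀ p, p ∈ Q ↔ p.Prime ∧ 2 ^ a < p ∧ p ≤ 2 ^ y := by
    intro p
    rw [hQ, mem_sdiff, Nat.mem_primesLE, Nat.mem_primesLE]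
    constructor
    · rintro ⟨⟨h1, h2⟩, h3⟩
      exact ⟨h2, by by_contra h; exact h3 ⟨not_lt.1 h, h2⟩, h1⟩
    · rintro ⟨h1, h2, h3⟩
      exact ⟨⟨h3, h1⟩, fun h => absurd h.1 (not_le.2 h2)⟩
  have h4a : 4 ≤ 2 ^ a := by
    calc 4 = 2 ^ 2 := by norm_num
      _ ≤ 2 ^ a := Nat.pow_le_pow_right (by norm_num) ha
  have h1 := (EulerProduct.summable_and_hasSum_factoredNumbers_prod_filter_prime_geometric
    (f := fO) fO_norm Q).2
  have h2 : HasSum ((Nat.factoredNumbers Q).indicator fO)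
      (∏ p ∈ Q with Nat.Prime p, (1 - fO p)⁻¹) := hasSum_subtype_iff_indicator.1 h1
  have h3 := sum_le_hasSum (dv a y r) (fun n _ => Set.indicator_nonneg (fun n _ => fO_nonneg n) n) h2
  have h4 : ∑ d ∈ dv a y r, (Nat.factoredNumbers Q).indicator fO d =
      2 ^ r * ∑ d ∈ dv a y r, (1 : ℝ) / d := by
    rw [mul_sum]
    refine sum_congr rfl fun d hd => ?_
    obtain ⟨hd1, hd2, hd3⟩ := mem_filter.1 hd
    rw [mem_Ioc] at hd1
    have hmem : d ∈ Nat.factoredNumbers Q := by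
      rw [Nat.mem_factoredNumbers]
      refine ⟨by omega, fun p hp => ?_⟩
      have hp' : p ∈ d.primeFactors := List.mem_toFinset.2 hp
      have hp2 := Nat.prime_of_mem_primeFactors hp'
      have hp3 := Nat.dvd_of_mem_primeFactors hp'
      rw [hQmem]
      exact ⟨hp2, hd3 p hp', (Nat.le_of_dvd (by omega) hp3).trans hd1.2⟩
    have hodd : Odd d := by
      rw [← Nat.not_even_iff_odd, even_iff_two_dvd]
      intro h
      have h5 : 2 ∈ d.primeFactors := Nat.mem_primeFactors.2 ⟨Nat.prime_two, h, by omega⟩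
      have := hd3 2 h5
      omega
    rw [Set.indicator_of_mem hmem, fO_apply, if_pos hodd, hd2]
    ring
  rw [h4] at h3
  have h5 : ∏ p ∈ Q with Nat.Prime p, (1 - fO p)⁻¹ ≤
      Real.exp (4 * ∑ p ∈ Q, (1 : ℝ) / p) := by
    rw [filter_true_of_mem (fun p hp => ((hQmem p).1 hp).1), mul_sum, Real.exp_sum]
    have h6 : ∀ p ∈ Q, Real.exp (-2 * (2 / p)) ≤ 1 - fO p := by
      intro p hp
      obtain ⟨hp1, hp2, hp3⟩ := (hQmem p).1 hp
      have hp4 : (4 : ℝ) ≤ p := by exact_mod_cast (h4a.trans hp2.le)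
      rw [fO_prime hp1 (by omega)]
      refine one_sub_ge _ (by positivity) ?_
      rw [div_le_div_iff₀ (by linarith) (by norm_num)]
      linarith
    refine prod_le_prod (fun p hp => ?_) fun p hp => ?_
    · exact (inv_pos.2 (lt_of_lt_of_le (Real.exp_pos _) (h6 p hp))).le
    · have h7 := h6 p hp
      calc (1 - fO p)⁻¹ ≤ (Real.exp (-2 * (2 / p)))⁻¹ := inv_anti₀ (Real.exp_pos _) h7
        _ = Real.exp (4 * (1 / p)) := by
          rw [← Real.exp_neg]
          congr 1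
          ring
  have h6 : ∑ p ∈ Q, (1 : ℝ) / p ≤ Real.log ((y : ℝ) / a) + 8 := by
    rw [hQ, sum_sdiff_eq _ hay]
    exact R_diff a y (by omega) hay
  have h7 : 2 ^ r * ∑ d ∈ dv a y r, (1 : ℝ) / d ≤ Real.exp (4 * (Real.log ((y : ℝ) / a) + 8)) := by
    refine h3.trans (h5.trans (Real.exp_le_exp.2 ?_))
    linarith
  rw [one_div_pow, one_div, ← div_eq_inv_mul, le_div_iff₀ (by positivity), mul_comm]
  exact h7

theorem exists_dvd_card (r : ℕ) : ∀ n : ℕ, n ≠ 0 → r ≤ cardFactors n →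
    ∃ d, d ∣ n ∧ cardFactors d = r := by
  induction r with
  | zero => intro n _ _; exact ⟨1, one_dvd _, by simp⟩
  | succ r ih =>
    intro n hn hr
    obtain ⟨d, hd, hdr⟩ := ih n hn (by omega)
    obtain ⟨e, rfl⟩ := hd
    have hd0 : d ≠ 0 := left_ne_zero_of_mul hn
    have he0 : e ≠ 0 := right_ne_zero_of_mul hn
    rw [cardFactors_mul hd0 he0, hdr] at hr
    have he1 : e ≠ 1 := by
      rintro rfl
      simp at hr
    have hp := Nat.minFac_prime he1
    refine ⟨d * e.minFac, Nat.mul_dvd_mul_left d (Nat.minFac_dvd e), ?_⟩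
    rw [cardFactors_mul hd0 hp.ne_zero, hdr, cardFactors_apply_prime hp]

theorem exists_dvd_le (r Y : ℕ) : ∀ j : ℕ, ∀ n : ℕ, n ≠ 0 → (j + 1) * r ≤ cardFactors n →
    n ≤ Y ^ (j + 1) → ∃ d, d ∣ n ∧ cardFactors d = r ∧ d ≤ Y := by
  intro j
  induction j with
  | zero =>
    intro n hn hr hnY
    obtain ⟨d, hd, hdr⟩ := exists_dvd_card r n hn (by omega)
    exact ⟨d, hd, hdr, (Nat.le_of_dvd (Nat.pos_of_ne_zero hn) hd).trans (by simpa using hnY)⟩
  | succ j ih =>
    intro n hn hr hnY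
    have hr' : r ≤ cardFactors n := by nlinarith
    obtain ⟨d, hd, hdr⟩ := exists_dvd_card r n hn hr'
    by_cases hdY : d ≤ Y
    · exact ⟨d, hd, hdr, hdY⟩
    · obtain ⟨e, rfl⟩ := hd
      have hd0 : d ≠ 0 := left_ne_zero_of_mul hn
      have he0 : e ≠ 0 := right_ne_zero_of_mul hn
      rw [cardFactors_mul hd0 he0, hdr] at hr
      have h1 : (j + 1) * r ≤ cardFactors e := by nlinarith
      have h2 : e ≤ Y ^ (j + 1) := by
        by_contra h
        have h3 : Y ^ (j + 1) < e := not_le.1 h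
        have h4 : Y < d := not_le.1 hdY
        have h5 : Y ^ (j + 1 + 1) = Y * Y ^ (j + 1) := by ring
        have h6 : Y * Y ^ (j + 1) < d * e := Nat.mul_lt_mul'' h4 h3
        omega
      obtain ⟨f, hf, hfr, hfY⟩ := ih e he0 h1 h2
      exact ⟨f, hf.mul_left d, hfr, hfY⟩

end Pool.Agent.Lib.MP_c77da8_nt.Sv
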