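import Pool.Agent.Lib.MP_c77da8_nt.Sv5

/-!
# Sieving the forms of a Cunningham chain
-/

set_option autoImplicit false

namespace Pool.Agent.Lib.MP_c77da8_nt.Sv

open Finset ArithmeticFunction

/-- the product of the primes up to `2^u` -/
def M0 (u : ℕ) : ℕ := primorial (2 ^ u)

theorem M0_pos (u : ℕ) : 0 < M0 u := primorial_pos _

theorem dvd_M0 {u p : ℕ} (hp : p.Prime) (h : p ≤ 2 ^ u) : p ∣ M0 u := by
  unfold M0 primorial
  exact dvd_prod_of_mem _ (mem_filter.2 ⟨mem_range.2 (Nat.lt_succ_of_le h), hp⟩)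

theorem prime_dvd_M0 {u p : ℕ} (hp : p.Prime) (h : p ∣ M0 u) : p ≤ 2 ^ u := by
  unfold M0 primorial at h
  rw [hp.prime.dvd_finsetProd_iff] at h
  obtain ⟨q, hq, hpq⟩ := h
  rw [mem_filter, mem_range] at hq
  rw [(Nat.prime_dvd_prime_iff_eq hp hq.2).1 hpq]
  omega

/-- the bad residue classes -/
def Bd (k u q : ℕ) : Finset ℕ := (range q).filter fun b => ∃ i < k, (2 ^ i * (M0 u * b)) % q = 1

theorem cop_form {u q : ℕ} (hu : 1 ≤ u) (hq : q.Prime) (h : 2 ^ u < q) (i : ℕ) :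
    Nat.Coprime q (2 ^ i * M0 u) := by
  have h2 : 2 ≤ 2 ^ u := by
    calc 2 = 2 ^ 1 := by norm_num
      _ ≤ 2 ^ u := Nat.pow_le_pow_right (by norm_num) hu
  refine Nat.Coprime.mul_right ?_ ?_
  · refine Nat.Coprime.pow_right i ?_
    rw [Nat.coprime_primes hq Nat.prime_two]
    omega
  · rw [Nat.Prime.coprime_iff_not_dvd hq]
    intro h3
    have := prime_dvd_M0 hq h3
    omega

theorem Bd_lt (k u q : ℕ) : ∀ b ∈ Bd k u q, b < q := fun _ hb => mem_range.1 (mem_filter.1 hb).1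

theorem Bd_card (k u q : ℕ) (hu : 1 ≤ u) (hq : q.Prime) (h : 2 ^ u < q) : (Bd k u q).card ≤ k := by
  classical
  have h1 : Bd k u q ⊆ (range k).biUnion fun i =>
      (range q).filter fun b => (2 ^ i * (M0 u * b)) % q = 1 := by
    intro b hb
    obtain ⟨hb1, i, hi, hb2⟩ := mem_filter.1 hb
    exact mem_biUnion.2 ⟨i, mem_range.2 hi, mem_filter.2 ⟨hb1, hb2⟩⟩
  refine (card_le_card h1).trans (card_biUnion_le.trans ?_)
  calc ∑ i ∈ range k, ((range q).filter fun b => (2 ^ i * (M0 u * b)) % q = 1).card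
      ≤ ∑ i ∈ range k, 1 := by
        refine sum_le_sum fun i _ => ?_
        rw [card_le_one]
        intro b hb c hc
        rw [mem_filter, mem_range] at hb hc
        have h2 : (2 ^ i * M0 u) * b ≡ (2 ^ i * M0 u) * c [MOD q] := by
          rw [Nat.ModEq, mul_assoc, mul_assoc, hb.2, hc.2]
        have h3 := Nat.ModEq.cancel_left_of_coprime (cop_form hu hq h i) h2
        rw [Nat.ModEq, Nat.mod_eq_of_lt hb.1, Nat.mod_eq_of_lt hc.1] at h3
        exact h3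
    _ = k := by simp

/-- `m` survives the sieve -/
def Surv (k u t m : ℕ) : Prop := ∀ j, ∀ q ∈ blk u t j, m % q ∉ Bd k u q

theorem mod_one_of_dvd {q n : ℕ} (hq : 1 < q) (hn : 1 ≤ n) (h : q ∣ n - 1) : n % q = 1 := by
  obtain ⟨c, hc⟩ := h
  have h1 : n = 1 + q * c := by omega
  rw [h1, Nat.add_mul_mod_self_left, Nat.mod_eq_of_lt hq]

theorem surv_gt {k u t m i q : ℕ} (hm : 1 ≤ m) (hs : Surv k u t m) (hi : i < k)
    (hq : q.Prime) (hd : q ∣ 2 ^ i * (M0 u * m) - 1) : 2 ^ (u * 2 ^ t) < q := by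
  have hpos : 1 ≤ 2 ^ i * (M0 u * m) :=
    Nat.mul_pos (by positivity) (Nat.mul_pos (M0_pos u) hm)
  have h1 := mod_one_of_dvd hq.one_lt hpos hd
  by_contra hle
  have hle' := not_lt.1 hle
  rcases le_or_gt q (2 ^ u) with h | h
  · have h2 : q ∣ 2 ^ i * (M0 u * m) := ((dvd_M0 hq h).mul_right m).mul_left _
    rw [Nat.mod_eq_zero_of_dvd h2] at h1
    omega
  · obtain ⟨j, hj⟩ := exists_blk hq h hle'
    refine hs j q hj ?_
    refine mem_filter.2 ⟨mem_range.2 (Nat.mod_lt _ hq.pos), i, hi, ?_⟩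
    rw [← h1, ← mul_assoc, ← mul_assoc, Nat.mul_mod, Nat.mod_mod, ← Nat.mul_mod]

/-- the good `m` -/
def Good (k u t r m : ℕ) : Prop :=
  ∀ i < k, (∀ q, q.Prime → q ∣ 2 ^ i * (M0 u * m) - 1 → 2 ^ (u * 2 ^ t) < q) ∧
    cardFactors (2 ^ i * (M0 u * m) - 1) < 4 * r

theorem two_le_form {u : ℕ} (hu : 1 ≤ u) {m : ℕ} (hm : 1 ≤ m) (i : ℕ) :
    2 ≤ 2 ^ i * (M0 u * m) := by
  have h2 : 2 ≤ 2 ^ u := by
    calc 2 = 2 ^ 1 := by norm_num
      _ ≤ 2 ^ u := Nat.pow_le_pow_right (by norm_num) hu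
  have h3 : 2 ≤ M0 u := Nat.le_of_dvd (M0_pos u) (dvd_M0 Nat.prime_two h2)
  have h4 : 1 ≤ 2 ^ i := Nat.one_le_two_pow
  calc 2 ≤ M0 u * m := by nlinarith
    _ ≤ 2 ^ i * (M0 u * m) := Nat.le_mul_of_pos_left _ h4

/-- counting survivors with a given divisor of a given form -/
theorem count_div (k u t : ℕ) (hk : 1 ≤ k) (hu : 2 * k ≤ 2 ^ u) (hu1 : 1 ≤ u) (N d i : ℕ)
    (hd : 0 < d) (hdp : ∀ p ∈ d.primeFactors, 2 ^ (u * 2 ^ t) < p) :
    ((by classical exact (range N).filter fun m => 1 ≤ m ∧ Surv k u t m ∧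
        d ∣ 2 ^ i * (M0 u * m) - 1 : Finset ℕ).card : ℝ) ≤
      2 * ((N : ℝ) * (∏ j, ∏ q ∈ blk u t j, (1 - ((Bd k u q).card : ℝ) / q)) * (1 / d)) +
        2 ^ (204 * k * (u * 2 ^ t)) := by
  classical
  have hut : 2 ^ u ≤ 2 ^ (u * 2 ^ t) :=
    Nat.pow_le_pow_right (by norm_num) (Nat.le_mul_of_pos_right u (by positivity))
  have hcop : ∀ j, ∀ q ∈ blk u t j, Nat.Coprime d q := by
    intro j q hq
    have hqp := (mem_blk.1 hq).1
    rw [Nat.coprime_comm, Nat.Prime.coprime_iff_not_dvd hqp]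
    intro h
    have h1 := hdp q (Nat.mem_primeFactors.2 ⟨hqp, h, hd.ne'⟩)
    have h2 := blk_le hq
    omega
  have hcopd : Nat.Coprime d (2 ^ i * M0 u) := by
    rw [Nat.coprime_iff_gcd_eq_one]
    by_contra h
    obtain ⟨p, hp, hpd⟩ := Nat.exists_prime_and_dvd h
    have h1 : p ∣ d := hpd.trans (Nat.gcd_dvd_left _ _)
    have h2 : p ∣ 2 ^ i * M0 u := hpd.trans (Nat.gcd_dvd_right _ _)
    have h3 := hdp p (Nat.mem_primeFactors.2 ⟨hp, h1, hd.ne'⟩)
    have h4 := cop_form hu1 hp (lt_of_le_of_lt hut h3) i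
    have h5 : p ∣ Nat.gcd p (2 ^ i * M0 u) := Nat.dvd_gcd dvd_rfl h2
    rw [h4] at h5
    exact hp.one_lt.ne' (Nat.dvd_one.1 h5)
  -- the residue class
  obtain ⟨v, hv⟩ : ∃ v : ℕ, (2 ^ i * M0 u) * v ≡ 1 [MOD d] := by
    rcases Nat.lt_or_ge 1 d with h | h
    · obtain ⟨v, _, hv⟩ := Nat.exists_mul_mod_eq_one_of_coprime hcopd.symm h
      exact ⟨v, by rw [Nat.ModEq, hv, Nat.mod_eq_of_lt h]⟩
    · have : d = 1 := by omega
      subst this
      exact ⟨0, Nat.modEq_one⟩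
  have hsub : ((range N).filter fun m => 1 ≤ m ∧ Surv k u t m ∧
        d ∣ 2 ^ i * (M0 u * m) - 1) ⊆ (range N).filter fun m => m ≡ v [MOD d] ∧
        ∀ j, ∀ q ∈ blk u t j, m % q ∉ Bd k u q := by
    intro m hm
    rw [mem_filter] at hm ⊢
    obtain ⟨hm1, hm2, hm3, hm4⟩ := hm
    refine ⟨hm1, ?_, hm3⟩
    have h1 : (2 ^ i * M0 u) * m ≡ 1 [MOD d] := by
      have h2 := two_le_form hu1 hm2 i
      rw [mul_assoc]
      exact ((Nat.modEq_iff_dvd' (by omega)).2 hm4).symm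
    exact Nat.ModEq.cancel_left_of_coprime hcopd (h1.trans hv.symm)
  have h1 := (sieve_blk k u t hk hu hu1 (Bd k u)
    (fun j q hq => Bd_card k u q hu1 (mem_blk.1 hq).1 (blk_gt hq))
    (fun j q _ => Bd_lt k u q) N d v hd hcop).2
  have h2 : (((range N).filter fun m => 1 ≤ m ∧ Surv k u t m ∧
        d ∣ 2 ^ i * (M0 u * m) - 1).card : ℝ) ≤ (((range N).filter fun m => m ≡ v [MOD d] ∧
        ∀ j, ∀ q ∈ blk u t j, m % q ∉ Bd k u q).card : ℝ) := by
    exact_mod_cast card_le_card hsub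
  refine h2.trans (h1.trans (le_of_eq ?_))
  ring

/-- The main count. -/
theorem count_good (k u t N y r : ℕ) (hk : 1 ≤ k) (hu : 2 * k ≤ 2 ^ u) (hu2 : 2 ≤ u)
    (hay : u * 2 ^ t ≤ y) (hN : ∀ i < k, ∀ m < N, 2 ^ i * (M0 u * m) - 1 ≤ (2 ^ y) ^ 4)
    (hr : 2 * (k : ℝ) * ((1 / 2) ^ r *
      Real.exp (4 * (Real.log ((y : ℝ) / ((u * 2 ^ t : ℕ) : ℝ)) + 8))) ≤ 1 / 8)
    (herr : ((t : ℝ) + 2 + k * 2 ^ y) * 2 ^ (204 * k * (u * 2 ^ t)) ≤
      1 / 8 * (N * (1 / 2 ^ ((t + 13) * k)))) :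
    1 / 4 * ((N : ℝ) * (1 / 2 ^ ((t + 13) * k))) ≤
      ((by classical exact (range N).filter fun m => 1 ≤ m ∧ Good k u t r m : Finset ℕ).card : ℝ) := by
  classical
  have hu1 : 1 ≤ u := by omega
  set V : ℝ := ∏ j, ∏ q ∈ blk u t j, (1 - ((Bd k u q).card : ℝ) / q) with hV
  set a : ℕ := u * 2 ^ t with ha
  have ha2 : 2 ≤ a := by
    have : 1 ≤ 2 ^ t := Nat.one_le_two_pow
    nlinarith
  have hVl : 1 / 2 ^ ((t + 13) * k) ≤ V := V_lower k u t hk hu hu1 (Bd k u)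
    (fun j q hq => Bd_card k u q hu1 (mem_blk.1 hq).1 (blk_gt hq))
  have hN0 : (0 : ℝ) ≤ N := Nat.cast_nonneg N
  have hV0 : 0 < V := lt_of_lt_of_le (by positivity) hVl
  set Rem : ℝ := 2 ^ (204 * k * a) with hRem
  have hRem1 : 1 ≤ Rem := one_le_pow₀ (by norm_num)
  -- survivors
  have hS := (sieve_blk k u t hk hu hu1 (Bd k u)
    (fun j q hq => Bd_card k u q hu1 (mem_blk.1 hq).1 (blk_gt hq))
    (fun j q _ => Bd_lt k u q) N 1 0 one_pos (fun j q _ => Nat.coprime_one_left q)).1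
  simp only [Nat.modEq_one, true_and, Nat.cast_one, div_one] at hS
  rw [← hV, ← ha, ← hRem] at hS
  -- decomposition
  set G := (range N).filter fun m => 1 ≤ m ∧ Good k u t r m with hG
  set D := dv a y r with hD
  set Bad : ℕ → ℕ → Finset ℕ := fun i d => (range N).filter fun m => 1 ≤ m ∧ Surv k u t m ∧
        d ∣ 2 ^ i * (M0 u * m) - 1 with hBad
  have hsub : (range N).filter (fun m => ∀ j, ∀ q ∈ blk u t j, m % q ∉ Bd k u q) ⊆
      {0} ∪ (G ∪ (range k).biUnion fun i => D.biUnion fun d => Bad i d) := by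
    intro m hm
    rw [mem_filter, mem_range] at hm
    obtain ⟨hmN, hms⟩ := hm
    rw [mem_union, mem_singleton, mem_union]
    rcases Nat.eq_zero_or_pos m with h0 | h0
    · exact Or.inl h0
    refine Or.inr ?_
    by_cases hg : Good k u t r m
    · exact Or.inl (mem_filter.2 ⟨mem_range.2 hmN, h0, hg⟩)
    · refine Or.inr ?_
      unfold Good at hg
      push Not at hg
      obtain ⟨i, hi, hg⟩ := hg
      have h1 := hg fun q hq hd => surv_gt h0 hms hi hq hd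
      have hf := two_le_form hu1 h0 i
      obtain ⟨d, hd1, hd2, hd3⟩ := exists_dvd_le r (2 ^ y) 3 (2 ^ i * (M0 u * m) - 1) (by omega)
        (by simpa using h1) (by simpa using hN i hi m hmN)
      have hd0 : 0 < d := Nat.pos_of_dvd_of_pos hd1 (by omega)
      rw [mem_biUnion]
      refine ⟨i, mem_range.2 hi, ?_⟩
      rw [mem_biUnion]
      refine ⟨d, ?_, mem_filter.2 ⟨mem_range.2 hmN, h0, hms, hd1⟩⟩
      refine mem_filter.2 ⟨mem_Ioc.2 ⟨hd0, hd3⟩, hd2, fun p hp => ?_⟩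
      have hp1 := Nat.prime_of_mem_primeFactors hp
      have hp2 := Nat.dvd_of_mem_primeFactors hp
      exact surv_gt h0 hms hi hp1 (hp2.trans hd1)
  have hcard := card_le_card hsub
  have h1 : (({0} ∪ (G ∪ (range k).biUnion fun i => D.biUnion fun d => Bad i d) : Finset ℕ)).card ≤
      1 + (G.card + ∑ i ∈ range k, ∑ d ∈ D, (Bad i d).card) := by
    refine (card_union_le _ _).trans ?_
    rw [card_singleton]
    refine Nat.add_le_add_left ((card_union_le _ _).trans ?_) 1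
    refine Nat.add_le_add_left (card_biUnion_le.trans ?_) _
    exact sum_le_sum fun i _ => card_biUnion_le
  have h2 : (((range N).filter (fun m => ∀ j, ∀ q ∈ blk u t j, m % q ∉ Bd k u q)).card : ℝ) ≤
      1 + (G.card + ∑ i ∈ range k, ∑ d ∈ D, ((Bad i d).card : ℝ)) := by
    exact_mod_cast hcard.trans h1
  have h3 : ∑ i ∈ range k, ∑ d ∈ D, ((Bad i d).card : ℝ) ≤
      1 / 8 * (N * V) + k * 2 ^ y * Rem := by
    have h4 : ∀ i ∈ range k, ∑ d ∈ D, ((Bad i d).card : ℝ) ≤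
        2 * (N * V) * ((1 / 2) ^ r * Real.exp (4 * (Real.log ((y : ℝ) / (a : ℝ)) + 8))) +
          2 ^ y * Rem := by
      intro i _
      calc ∑ d ∈ D, ((Bad i d).card : ℝ)
          ≤ ∑ d ∈ D, (2 * ((N : ℝ) * V * (1 / d)) + Rem) := by
            refine sum_le_sum fun d hd => ?_
            obtain ⟨hd1, hd2, hd3⟩ := mem_filter.1 hd
            have h5 := count_div k u t hk hu hu1 N d i (mem_Ioc.1 hd1).1 hd3
            exact h5
        _ = 2 * (N * V) * ∑ d ∈ D, (1 : ℝ) / d + D.card * Rem := by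
            rw [sum_add_distrib, sum_const, nsmul_eq_mul, mul_sum]
            congr 1
            exact sum_congr rfl fun d _ => by ring
        _ ≤ _ := by
            have h6 := rankin a y r ha2 hay
            have h7 : (D.card : ℝ) ≤ 2 ^ y := by
              have : D.card ≤ (Ioc 0 (2 ^ y)).card := card_le_card (filter_subset _ _)
              rw [Nat.card_Ioc, Nat.sub_zero] at this
              exact_mod_cast this
            have h8 : 0 ≤ 2 * (N * V) := by positivity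
            have h9 := mul_le_mul_of_nonneg_left h6 h8
            have h10 := mul_le_mul_of_nonneg_right h7 (by linarith : 0 ≤ Rem)
            linarith
    refine (sum_le_sum h4).trans ?_
    rw [sum_const, card_range, nsmul_eq_mul]
    have h5 : 0 ≤ (N : ℝ) * V := by positivity
    have h6 := mul_le_mul_of_nonneg_left hr h5
    linarith
  have h4 : (N : ℝ) * (1 / 2 ^ ((t + 13) * k)) ≤ N * V := mul_le_mul_of_nonneg_left hVl hN0
  have h5 : ((t : ℝ) + 2 + k * 2 ^ y) * Rem = (t + 1) * Rem + Rem + k * 2 ^ y * Rem := by ring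
  rw [h5] at herr
  linarith

end Pool.Agent.Lib.MP_c77da8_nt.Sv
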