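import Pool.Agent.Lib.MP_c77da8_nt.Sv6

/-!
# Almost prime Cunningham chains: choice of the parameters
-/

set_option autoImplicit false

namespace Pool.Agent.Lib.MP_c77da8_nt.Sv

open Finset ArithmeticFunction

theorem M0_le (k : ℕ) (hk : 1 ≤ k) : M0 (Nat.log 2 k + 2) ≤ 2 ^ (8 * k) := by
  have h1 := primorial_le_four_pow (2 ^ (Nat.log 2 k + 2))
  have h2 : 2 ^ (Nat.log 2 k + 2) ≤ 4 * k := by
    have := Nat.pow_log_le_self 2 (x := k) (by omega)
    rw [pow_add]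
    omega
  calc M0 (Nat.log 2 k + 2) ≤ 4 ^ (2 ^ (Nat.log 2 k + 2)) := h1
    _ ≤ 4 ^ (4 * k) := Nat.pow_le_pow_right (by norm_num) h2
    _ = 2 ^ (8 * k) := by
      rw [show (4 : ℕ) = 2 ^ 2 by norm_num, ← pow_mul]
      congr 1
      ring

theorem exp32 : Real.exp 32 ≤ 2 ^ 47 := by
  have h8 : Real.exp 32 = Real.exp 1 ^ 32 := by
    rw [← Real.exp_nat_mul]; norm_num
  rw [h8]
  have he := Real.exp_one_lt_d9
  calc Real.exp 1 ^ 32 ≤ 2.7182818286 ^ 32 := by gcongr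
    _ ≤ 2 ^ 47 := by norm_num

/-- the finite set of good `m < N` -/
noncomputable def GS (k u t r N : ℕ) : Finset ℕ :=
  (by classical exact (range N).filter fun m => 1 ≤ m ∧ Good k u t r m : Finset ℕ)

theorem mem_GS {k u t r N m : ℕ} : m ∈ GS k u t r N ↔ m < N ∧ 1 ≤ m ∧ Good k u t r m := by
  classical
  unfold GS
  rw [mem_filter, mem_range]

/-- The count in terms of natural number parameters. -/
theorem main_nat (k L X : ℕ) (hk : 1 ≤ k) (hL : 2 ^ L ≤ X) (hL2 : X < 2 ^ (L + 1))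
    (hkL : 400 * k * (Nat.log 2 k + 2) ≤ L) :
    ∃ t : ℕ, 400 * k * ((Nat.log 2 k + 2) * 2 ^ t) ≤ L ∧
      L + 1 ≤ 800 * k * ((Nat.log 2 k + 2) * 2 ^ t) ∧
      ((X : ℝ) + 1) * (1 / 2 ^ ((t + 23) * k)) ≤
      ((GS k (Nat.log 2 k + 2) t (96 + 5 * Nat.log 2 k)
        (X / M0 (Nat.log 2 k + 2) + 1)).card : ℝ) := by
  classical
  set u := Nat.log 2 k + 2 with hu
  have hu2 : 2 ≤ u := by omega
  have hku : 0 < 400 * k * u := by positivity
  have hdiv : 1 ≤ L / (400 * k * u) := (Nat.one_le_div_iff hku).2 hkL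
  set t := Nat.log 2 (L / (400 * k * u)) with ht
  have ht1 : 2 ^ t ≤ L / (400 * k * u) := Nat.pow_log_le_self 2 (by omega)
  have ht2 : L / (400 * k * u) < 2 ^ (t + 1) := Nat.lt_pow_succ_log_self (by norm_num) _
  have hA : 400 * k * (u * 2 ^ t) ≤ L := by
    calc 400 * k * (u * 2 ^ t) = 400 * k * u * 2 ^ t := by ring
      _ ≤ 400 * k * u * (L / (400 * k * u)) := Nat.mul_le_mul_left _ ht1
      _ ≤ L := Nat.mul_div_le _ _
  have hB : L + 1 ≤ 800 * k * (u * 2 ^ t) := by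
    have h1 : L < 400 * k * u * (L / (400 * k * u) + 1) := Nat.lt_mul_div_succ L hku
    have h2 : 400 * k * u * (L / (400 * k * u) + 1) ≤ 400 * k * u * 2 ^ (t + 1) :=
      Nat.mul_le_mul_left _ ht2
    have h3 : 400 * k * u * 2 ^ (t + 1) = 800 * k * (u * 2 ^ t) := by rw [pow_succ]; ring
    omega
  refine ⟨t, hA, hB, ?_⟩
  set a := u * 2 ^ t with ha
  have hk2 : k < 2 ^ (Nat.log 2 k + 1) := Nat.lt_pow_succ_log_self (by norm_num) k
  have huk : 2 * k ≤ 2 ^ u := by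
    rw [hu, show Nat.log 2 k + 2 = (Nat.log 2 k + 1) + 1 by ring, pow_succ]
    omega
  have htpow : t + 1 ≤ 2 ^ t := Nat.lt_two_pow_self
  have ha1 : 2 * 2 ^ t ≤ a := Nat.mul_le_mul_right _ hu2
  have hka : a ≤ k * a := Nat.le_mul_of_pos_left a hk
  have hkk : k ≤ k * a := Nat.le_mul_of_pos_right k (by omega)
  -- the parameter y
  set y := (k + L + 1) / 4 + 1 with hy
  have hy1 : k + L + 1 ≤ y * 4 := by omega
  have hy2 : 4 * y ≤ k + L + 5 := by omega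
  have hkaL : 400 * (k * a) ≤ L := by
    calc 400 * (k * a) = 400 * k * a := by ring
      _ ≤ L := hA
  have hLka : L + 1 ≤ 800 * (k * a) := by
    calc L + 1 ≤ 800 * k * a := hB
      _ = _ := by ring
  have hay : a ≤ y := by omega
  have hyL : y ≤ L := by omega
  set M := M0 u with hM
  have hMpos : 0 < M := M0_pos u
  have hMle : M ≤ 2 ^ (8 * k) := M0_le k hk
  set N := X / M + 1 with hN
  have hXN : X + 1 ≤ M * N := Nat.lt_mul_div_succ X hMpos
  have hmN : ∀ m < N, M * m ≤ X := by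
    intro m hm
    calc M * m ≤ M * (X / M) := Nat.mul_le_mul_left _ (by omega)
      _ ≤ X := Nat.mul_div_le _ _
  have hNy : ∀ i < k, ∀ m < N, 2 ^ i * (M0 u * m) - 1 ≤ (2 ^ y) ^ 4 := by
    intro i hi m hm
    have h1 := hmN m hm
    calc 2 ^ i * (M0 u * m) - 1 ≤ 2 ^ i * (M0 u * m) := Nat.sub_le _ _
      _ ≤ 2 ^ k * 2 ^ (L + 1) :=
          Nat.mul_le_mul (Nat.pow_le_pow_right (by norm_num) hi.le) (h1.trans hL2.le)
      _ = 2 ^ (k + L + 1) := by rw [← pow_add]; rfl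
      _ ≤ 2 ^ (y * 4) := Nat.pow_le_pow_right (by norm_num) hy1
      _ = (2 ^ y) ^ 4 := pow_mul 2 y 4
  have hapos : (0 : ℝ) < (a : ℝ) := by
    have : 0 < a := by
      have : 0 < 2 ^ t := by positivity
      omega
    exact_mod_cast this
  have hkpos : (0 : ℝ) < k := by exact_mod_cast hk
  have hk1 : (1 : ℝ) ≤ k := by exact_mod_cast hk
  have hya : (y : ℝ) / a ≤ 800 * k := by
    rw [div_le_iff₀ hapos]
    have : y ≤ 800 * (k * a) := by omega
    calc (y : ℝ) ≤ ((800 * (k * a) : ℕ) : ℝ) := by exact_mod_cast this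
      _ = 800 * k * a := by push_cast; ring
  have hya0 : 0 < (y : ℝ) / a := by
    have : (0 : ℝ) < y := lt_of_lt_of_le hapos (by exact_mod_cast hay)
    positivity
  have hr : 2 * (k : ℝ) * ((1 / 2) ^ (96 + 5 * Nat.log 2 k) *
      Real.exp (4 * (Real.log ((y : ℝ) / ((u * 2 ^ t : ℕ) : ℝ)) + 8))) ≤ 1 / 8 := by
    have h1 : Real.exp (4 * (Real.log ((y : ℝ) / (a : ℝ)) + 8)) = ((y : ℝ) / a) ^ 4 * Real.exp 32 := by
      rw [mul_add, Real.exp_add]
      congr 1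
      · rw [show (4 : ℝ) * Real.log ((y : ℝ) / a) = ((4 : ℕ) : ℝ) * Real.log ((y : ℝ) / a) by
          norm_num, Real.exp_nat_mul, Real.exp_log hya0]
      · norm_num
    rw [← ha, h1]
    have h2 : ((y : ℝ) / a) ^ 4 ≤ (2 ^ 10 * k) ^ 4 := by
      refine pow_le_pow_left₀ hya0.le (hya.trans ?_) 4
      have : (800 : ℝ) ≤ 2 ^ 10 := by norm_num
      gcongr
    have h3 : (k : ℝ) ≤ 2 ^ (Nat.log 2 k + 1) := by exact_mod_cast hk2.le
    calc 2 * (k : ℝ) * ((1 / 2) ^ (96 + 5 * Nat.log 2 k) * (((y : ℝ) / a) ^ 4 * Real.exp 32))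
        ≤ 2 * (k : ℝ) * ((1 / 2) ^ (96 + 5 * Nat.log 2 k) * ((2 ^ 10 * k) ^ 4 * 2 ^ 47)) := by
          have := exp32
          gcongr
      _ = 2 ^ 88 * (1 / 2) ^ (96 + 5 * Nat.log 2 k) * (k : ℝ) ^ 5 := by ring
      _ ≤ 2 ^ 88 * (1 / 2) ^ (96 + 5 * Nat.log 2 k) * (2 ^ (Nat.log 2 k + 1)) ^ 5 := by gcongr
      _ = 2 ^ 88 * (2 ^ 5 * (1 / 2) ^ 96) * ((1 / 2) ^ (5 * Nat.log 2 k) *
            2 ^ (5 * Nat.log 2 k)) := by
          rw [pow_add (1 / 2 : ℝ), ← pow_mul, show (Nat.log 2 k + 1) * 5 = 5 + 5 * Nat.log 2 k by ring,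
            pow_add (2 : ℝ)]
          ring
      _ = 1 / 8 := by
          rw [← mul_pow]
          norm_num
  have hNr : (2 : ℝ) ^ L ≤ 2 ^ (8 * k) * N := by
    have h1 : 2 ^ L ≤ 2 ^ (8 * k) * N := by
      calc 2 ^ L ≤ M * N := by omega
        _ ≤ 2 ^ (8 * k) * N := Nat.mul_le_mul_right _ hMle
    exact_mod_cast h1
  have herr : ((t : ℝ) + 2 + k * 2 ^ y) * 2 ^ (204 * k * (u * 2 ^ t)) ≤
      1 / 8 * (N * (1 / 2 ^ ((t + 13) * k))) := by
    have h1 : t + 2 + k * 2 ^ y ≤ 2 ^ (a + y + 1) := by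
      have h2 : t + 2 ≤ 2 ^ (a + 1) := by
        calc t + 2 ≤ 2 ^ t * 2 := by omega
          _ = 2 ^ (t + 1) := (pow_succ 2 t).symm
          _ ≤ 2 ^ (a + 1) := Nat.pow_le_pow_right (by norm_num) (by omega)
      have h3 : k * 2 ^ y ≤ 2 ^ (a + y) := by
        rw [pow_add 2 a y]
        refine Nat.mul_le_mul_right _ ?_
        calc k ≤ 2 ^ u := by omega
          _ ≤ 2 ^ a := Nat.pow_le_pow_right (by norm_num)
              (Nat.le_mul_of_pos_right u (by positivity))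
      have h4 : 2 ^ (a + 1) ≤ 2 ^ (a + y) := Nat.pow_le_pow_right (by norm_num) (by omega)
      calc t + 2 + k * 2 ^ y ≤ 2 ^ (a + y) + 2 ^ (a + y) := by omega
        _ = 2 ^ (a + y + 1) := by rw [pow_succ]; ring
    have h2 : ((t : ℝ) + 2 + k * 2 ^ y) ≤ 2 ^ (a + y + 1) := by exact_mod_cast h1
    have hexp : 3 + (a + y + 1) + 204 * k * a + (t + 13) * k + 8 * k ≤ L := by
      have h3 : (t + 13) * k = t * k + 13 * k := by ring
      have h4 : t * k ≤ k * a := by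
        rw [mul_comm]
        exact Nat.mul_le_mul_left _ (by omega)
      have h5 : 204 * k * a = 204 * (k * a) := by ring
      rw [h3, h5]
      omega
    have h3 : (2 : ℝ) ^ (3 + (a + y + 1) + 204 * k * a + (t + 13) * k + 8 * k) ≤ 2 ^ (8 * k) * N :=
      (pow_le_pow_right₀ (by norm_num) hexp).trans hNr
    rw [← ha]
    have h4 : (2 : ℝ) ^ (3 + (a + y + 1) + 204 * k * a + (t + 13) * k) ≤ N := by
      rw [pow_add, mul_comm] at h3
      exact le_of_mul_le_mul_left h3 (by positivity)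
    have h5 : (1 : ℝ) / 8 * (N * (1 / 2 ^ ((t + 13) * k))) = N / (2 ^ 3 * 2 ^ ((t + 13) * k)) := by
      rw [show (2 : ℝ) ^ 3 = 8 by norm_num]
      field_simp
    rw [h5, le_div_iff₀ (by positivity)]
    calc ((t : ℝ) + 2 + k * 2 ^ y) * 2 ^ (204 * k * a) * (2 ^ 3 * 2 ^ ((t + 13) * k))
        ≤ 2 ^ (a + y + 1) * 2 ^ (204 * k * a) * (2 ^ 3 * 2 ^ ((t + 13) * k)) := by gcongr
      _ = (2 : ℝ) ^ (3 + (a + y + 1) + 204 * k * a + (t + 13) * k) := by
          rw [pow_add, pow_add, pow_add]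
          ring
      _ ≤ N := h4
  have hmain := count_good k u t N y (96 + 5 * Nat.log 2 k) hk huk hu2 hay hNy hr herr
  change _ ≤ ((GS k u t (96 + 5 * Nat.log 2 k) N).card : ℝ) at hmain
  refine le_trans ?_ hmain
  have h1 : (X : ℝ) + 1 ≤ 2 ^ (8 * k) * N := by
    have h2 : X + 1 ≤ 2 ^ (8 * k) * N := hXN.trans (Nat.mul_le_mul_right _ hMle)
    exact_mod_cast h2
  have h2 : (4 : ℝ) * 2 ^ (8 * k) * 2 ^ ((t + 13) * k) ≤ 2 ^ ((t + 23) * k) := by
    calc (4 : ℝ) * 2 ^ (8 * k) * 2 ^ ((t + 13) * k) = 2 ^ (2 + 8 * k + (t + 13) * k) := by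
          rw [pow_add, pow_add]
          norm_num
      _ ≤ 2 ^ ((t + 23) * k) := by
          refine pow_le_pow_right₀ (by norm_num) ?_
          nlinarith
  rw [mul_one_div, div_le_iff₀ (by positivity)]
  calc (X : ℝ) + 1 ≤ 2 ^ (8 * k) * N := h1
    _ = (1 / 4 * (N * (1 / 2 ^ ((t + 13) * k)))) * (4 * 2 ^ (8 * k) * 2 ^ ((t + 13) * k)) := by
        field_simp
    _ ≤ _ := by gcongr

end Pool.Agent.Lib.MP_c77da8_nt.Sv
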