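import Mathlib
import Pool.Agent.Lib.MP_c77da8_nt.Chains
import Pool.Agent.Lib.MP_c77da8_nt.Mert
import Pool.Agent.Lib.MP_c77da8_nt.Full

/-!
# A uniform upper bound for the number of Cunningham chains of length `k`

There is an absolute constant `C` such that for all `k ≥ 1` and `x ≥ 2` at most
`x (C k log(k+1) / log x)^k` numbers `p ≤ x` start a Cunningham chain of the first kind of
length `k`.
-/

set_option autoImplicit false

namespace Pool.Agent.Results.MP_c77da8_nt.UniformBound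

open Filter Finset Pool.Agent.Lib.MP_c77da8_nt

/-- `p` starts a Cunningham chain of the first kind of length `k ≥ 1`: the `k` numbers
`2^i (p + 1) - 1`, `0 ≤ i < k` (that is, `p, 2p + 1, 4p + 3, ...`) are all prime. -/
def StartsChain (p k : ℕ) : Prop := 1 ≤ k ∧ ∀ i < k, (2 ^ i * (p + 1) - 1).Prime

/-- the sifting primes -/
noncomputable def PS (k z : ℕ) : Finset ℕ :=
  (Nat.primesLE z).filter (fun q => 2 ^ (2 * Nat.size k) < q ∧ k ≤ orderOf (2 : ZMod q))

theorem sq_le (k : ℕ) : k * k ≤ 2 ^ (2 * Nat.size k) := by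
  have h := (Nat.lt_size_self k).le
  rw [two_mul, pow_add]
  exact Nat.mul_le_mul h h

theorem size_pos {k : ℕ} (hk : 1 ≤ k) : 1 ≤ Nat.size k := Nat.size_pos.2 hk

theorem mem_PS {k z q : ℕ} (hk : 1 ≤ k) (h : q ∈ PS k z) : q.Prime ∧ k < q ∧ 3 ≤ q ∧ q ≤ z ∧
    k ≤ orderOf (2 : ZMod q) := by
  unfold PS at h
  rw [mem_filter, Nat.mem_primesLE] at h
  obtain ⟨⟨h1, h2⟩, h3, h4⟩ := h
  have h5 := sq_le k
  have h6 : k ≤ k * k := Nat.le_mul_of_pos_left k hk
  have h7 : 2 ^ 2 ≤ 2 ^ (2 * Nat.size k) :=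
    Nat.pow_le_pow_right (by norm_num) (by have := size_pos hk; omega)
  exact ⟨h2, by omega, by omega, h1, h4⟩

theorem union_le {A B : Finset ℕ} : ∑ q ∈ A ∪ B, (1 : ℝ) / q ≤
    ∑ q ∈ A, (1 : ℝ) / q + ∑ q ∈ B, (1 : ℝ) / q := by
  rw [← Finset.sum_union_inter]
  have : 0 ≤ ∑ q ∈ A ∩ B, (1 : ℝ) / q := Finset.sum_nonneg fun _ _ => by positivity
  linarith

theorem sum_PS (k z : ℕ) (hk : 1 ≤ k) (hz : 2 ≤ z) :
    Real.log (Real.log z) - Real.log ((2 * Nat.size k : ℕ) : ℝ) - 8 ≤
      ∑ q ∈ PS k z, (1 : ℝ) / q := by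
  set J : ℕ := 2 * Nat.size k with hJ
  have hJ1 : 1 ≤ J := by have := size_pos hk; omega
  have h1 := Mert.sum_inv_ge (z + 1) (by omega)
  have h2 := Mert.R_le J hJ1
  have hzr : (2 : ℝ) ≤ z := by exact_mod_cast hz
  have hlz : 0 < Real.log z := Real.log_pos (by linarith)
  have h3 : Real.log (Real.log z) ≤ Real.log (Real.log ((z + 1 : ℕ) : ℝ)) := by
    refine Real.log_le_log hlz (Real.log_le_log (by linarith) ?_)
    push_cast
    linarith
  set S : Finset ℕ := (Nat.primesLE z).filter (fun q => 2 ^ J < q) with hS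
  set B : Finset ℕ := S.filter (fun q => orderOf (2 : ZMod q) < k) with hB
  have hJ2 : 2 ^ 2 ≤ 2 ^ J := Nat.pow_le_pow_right (by norm_num) (by have := size_pos hk; omega)
  have hBc : B.card ≤ k * k := card_small_order S (by
    intro q hq
    rw [hS, mem_filter, Nat.mem_primesLE] at hq
    exact ⟨hq.1.2, by omega⟩) k
  have hBs : ∑ q ∈ B, (1 : ℝ) / q ≤ 1 := by
    have h4 : ∑ q ∈ B, (1 : ℝ) / q ≤ ∑ q ∈ B, (1 : ℝ) / (2 ^ J : ℕ) := by
      refine Finset.sum_le_sum fun q hq => ?_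
      rw [hB, mem_filter, hS, mem_filter] at hq
      exact one_div_le_one_div_of_le (by positivity) (by exact_mod_cast hq.1.2.le)
    refine h4.trans ?_
    rw [Finset.sum_const, nsmul_eq_mul, mul_one_div, div_le_one (by positivity)]
    exact_mod_cast hBc.trans (sq_le k)
  have hcov : Nat.primesBelow (z + 1) ⊆ Nat.primesLE (2 ^ J) ∪ (PS k z ∪ B) := by
    intro q hq
    rw [Nat.mem_primesBelow] at hq
    rw [mem_union, mem_union, Nat.mem_primesLE]
    by_cases h4 : q ≤ 2 ^ J
    · exact Or.inl ⟨h4, hq.2⟩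
    · right
      by_cases h5 : k ≤ orderOf (2 : ZMod q)
      · left
        unfold PS
        rw [mem_filter, Nat.mem_primesLE, ← hJ]
        exact ⟨⟨by omega, hq.2⟩, by omega, h5⟩
      · right
        rw [hB, mem_filter, hS, mem_filter, Nat.mem_primesLE]
        exact ⟨⟨⟨by omega, hq.2⟩, by omega⟩, by omega⟩
  have h6 : ∑ q ∈ Nat.primesBelow (z + 1), (1 : ℝ) / q ≤
      ∑ q ∈ Nat.primesLE (2 ^ J), (1 : ℝ) / q + (∑ q ∈ PS k z, (1 : ℝ) / q + ∑ q ∈ B, (1 : ℝ) / q) := by
    refine (Finset.sum_le_sum_of_subset_of_nonneg hcov (fun _ _ _ => by positivity)).trans ?_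
    refine union_le.trans ?_
    gcongr
    exact union_le
  unfold Mert.R at h2
  linarith

/-- `K = e^8 * 96` -/
noncomputable def K0 : ℝ := 96 * Real.exp 8

theorem K0_pos : 0 < K0 := by unfold K0; positivity

theorem log_J (k : ℕ) (hk : 1 ≤ k) : ((2 * Nat.size k : ℕ) : ℝ) ≤ 6 * Real.log (k + 1) := by
  have hk' : (1 : ℝ) ≤ k := by exact_mod_cast hk
  have hl2 := Real.log_two_gt_d9
  have h1 : 2 ^ (Nat.size k - 1) ≤ k := by
    have h2 : Nat.size k - 1 < Nat.size k := by have := size_pos hk; omega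
    exact Nat.lt_size.1 h2
  have h2 : 2 ^ Nat.size k ≤ (k + 1) ^ 2 := by
    have h3 : 2 ^ Nat.size k = 2 * 2 ^ (Nat.size k - 1) := by
      rw [← pow_succ']
      congr 1
      have := size_pos hk
      omega
    rw [h3]
    nlinarith
  have h3 : (Nat.size k : ℝ) * Real.log 2 ≤ 2 * Real.log (k + 1) := by
    have h4 : ((2 : ℝ) ^ Nat.size k) ≤ ((k : ℝ) + 1) ^ 2 := by exact_mod_cast h2
    have h5 := Real.log_le_log (by positivity) h4
    rw [Real.log_pow, Real.log_pow] at h5
    push_cast at h5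
    linarith
  push_cast
  have h6 : 0 ≤ (Nat.size k : ℝ) := Nat.cast_nonneg _
  nlinarith

/-- the main estimate for the sifted set -/
theorem sifted_bound (k : ℕ) (hk : 1 ≤ k) (x : ℝ) (hx : 2 ≤ x)
    (hbig : 16 * K0 * k * Real.log (k + 1) < Real.log x) :
    ((sifted (⌊x⌋₊ + 1) ⌊Real.exp (Real.log x / (8 * k))⌋₊ k).card : ℝ) ≤
      112 * x * (K0 * k * Real.log (k + 1) / Real.log x) ^ k := by
  have hk' : (1 : ℝ) ≤ k := by exact_mod_cast hk
  have hk0 : (0 : ℝ) < k := by linarith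
  have hx0 : (0 : ℝ) < x := by linarith
  set ℓ := Real.log x with hℓ
  set v : ℝ := ℓ / (8 * k) with hv
  set z : ℕ := ⌊Real.exp v⌋₊ with hz
  set X : ℕ := ⌊x⌋₊ + 1 with hX
  set A := sifted X z k with hA
  have hK := K0_pos
  have hK8 : 96 ≤ K0 := by
    unfold K0
    have := Real.add_one_le_exp 8
    nlinarith
  have hl2 := Real.log_two_gt_d9
  have hlk : Real.log 2 ≤ Real.log (k + 1) := Real.log_le_log (by norm_num) (by linarith)
  have hlk0 : 0 < Real.log (k + 1) := by linarith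
  have hℓbig : 1000 * (k : ℝ) ≤ ℓ := by
    have h1 : 16 * 96 * (k : ℝ) * Real.log 2 ≤ 16 * K0 * k * Real.log (k + 1) := by gcongr
    nlinarith
  have hℓ0 : 0 < ℓ := by linarith
  have hvk : ℓ = 8 * k * v := by rw [hv]; field_simp
  have hv125 : 125 ≤ v := by
    rw [hv, le_div_iff₀ (by positivity)]
    linarith
  have hez : (z : ℝ) ≤ Real.exp v := Nat.floor_le (Real.exp_pos v).le
  have hez2 : Real.exp v < z + 1 := Nat.lt_floor_add_one _
  have hev : (126 : ℝ) ≤ Real.exp v := by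
    have := Real.add_one_le_exp v
    linarith
  have hz125 : (125 : ℝ) < z := by linarith
  have hz2 : 2 ≤ z := by
    have : (2 : ℝ) ≤ z := by linarith
    exact_mod_cast this
  have hlz : v / 2 ≤ Real.log z := by
    rw [Real.le_log_iff_exp_le (by linarith)]
    have h1 : Real.exp v = Real.exp (v / 2) * Real.exp (v / 2) := by
      rw [← Real.exp_add]; congr 1; ring
    have h2 := Real.add_one_le_exp (v / 2)
    nlinarith
  have hlz2 : Real.log z ≤ v := by
    rw [Real.log_le_iff_le_exp (by linarith)]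
    exact hez
  -- the level
  set Q : ℕ := ⌊√x⌋₊ with hQ
  have hsx : √x = Real.exp (ℓ / 2) := by
    rw [Real.sqrt_eq_rpow, Real.rpow_def_of_pos hx0]
    congr 1
    ring
  have hQ1 : (Q : ℝ) ≤ √x := Nat.floor_le (Real.sqrt_nonneg x)
  have hQ2 : √x < Q + 1 := Nat.lt_floor_add_one _
  have hsx4 : (4 : ℝ) ≤ √x := by
    rw [hsx]
    have := Real.add_one_le_exp (ℓ / 2)
    linarith
  have hQ3 : √x / 2 ≤ Q := by linarith
  have hQ4 : 2 ≤ Q := by
    have : (2 : ℝ) ≤ Q := by linarith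
    exact_mod_cast this
  have hQsq : (Q : ℝ) ^ 2 ≤ x := by
    calc (Q : ℝ) ^ 2 ≤ √x ^ 2 := by gcongr
      _ = x := Real.sq_sqrt hx0.le
  have hlQ : ℓ / 2 - Real.log 2 ≤ Real.log Q := by
    have h1 : Real.log (√x / 2) ≤ Real.log Q := Real.log_le_log (by positivity) hQ3
    rw [Real.log_div (by positivity) (by norm_num), hsx, Real.log_exp] at h1
    exact h1
  have hP : ∀ q ∈ PS k z, q.Prime ∧ k < q := fun q hq => ⟨(mem_PS hk hq).1, (mem_PS hk hq).2.1⟩
  have hlog : 2 * ∑ q ∈ PS k z, (k : ℝ) / q * Real.log q ≤ Real.log Q := by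
    have h1 : ∑ q ∈ PS k z, (k : ℝ) / q * Real.log q ≤
        k * ∑ q ∈ Nat.primesLE z, Real.log q / q := by
      rw [Finset.mul_sum]
      refine le_trans (le_of_eq ?_) (Finset.sum_le_sum_of_subset_of_nonneg
        (Finset.filter_subset _ _ : PS k z ⊆ Nat.primesLE z) ?_)
      · refine Finset.sum_congr rfl fun q _ => ?_
        ring
      · intro q _ _
        have := Real.log_natCast_nonneg q
        positivity
    have h2 := Mert.log_sum_le z (by omega)
    have h3 : Real.log 4 = 2 * Real.log 2 := by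
      rw [show (4 : ℝ) = 2 ^ 2 by norm_num, Real.log_pow]; norm_num
    have h4 := Real.log_two_lt_d9
    have h5 : (k : ℝ) * ∑ q ∈ Nat.primesLE z, Real.log q / q ≤ k * (v + 2) := by
      gcongr
      linarith
    have h6 : (k : ℝ) * (v + 2) = ℓ / 8 + 2 * k := by rw [hvk]; ring
    linarith
  have hH := Full.H_lower k (PS k z) Q hQ4 hP hlog
  have hE := Full.prod_ge_exp k (PS k z) (fun q hq => (hP q hq).2)
  have hS := sum_PS k z hk hz2
  set J : ℝ := ((2 * Nat.size k : ℕ) : ℝ) with hJ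
  have hJ1 : 2 ≤ J := by
    rw [hJ]
    have := size_pos hk
    exact_mod_cast (by omega : 2 ≤ 2 * Nat.size k)
  have hJ6 := log_J k hk
  rw [← hJ] at hJ6
  set Bs : ℝ := ℓ / (K0 * k * Real.log (k + 1)) with hBs
  have hBs16 : 16 ≤ Bs := by
    rw [hBs, le_div_iff₀ (by positivity)]
    linarith
  have hexp : Bs ≤ Real.exp (Real.log (Real.log z) - Real.log J - 8) := by
    have hlz0 : 0 < Real.log z := by linarith
    rw [Real.exp_sub, Real.exp_sub, Real.exp_log hlz0, Real.exp_log (by linarith)]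
    have h1 : Bs = v / 2 / (6 * Real.log (k + 1)) / Real.exp 8 := by
      rw [hBs, hv]
      unfold K0
      field_simp
      ring
    rw [h1]
    gcongr
  have hBk : Bs ^ k ≤ ∏ q ∈ PS k z, (1 + (k : ℝ) / ((q : ℝ) - k)) := by
    refine le_trans ?_ hE
    have h1 : Real.exp (Real.log (Real.log z) - Real.log J - 8) ^ k ≤
        Real.exp (k * ∑ q ∈ PS k z, (1 : ℝ) / q) := by
      rw [← Real.exp_nat_mul]
      apply Real.exp_le_exp.2
      gcongr
    exact (pow_le_pow_left₀ (by linarith) hexp k).trans h1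
  have hBk16 : 16 ≤ Bs ^ k := by
    calc (16 : ℝ) ≤ Bs := hBs16
      _ ≤ Bs ^ k := le_self_pow₀ (by linarith) (by omega)
  have hocc : ∀ q ∈ PS k z, q.Prime ∧ k < q ∧ (A.image (fun n => n % q)).card + k ≤ q := by
    intro q hq
    obtain ⟨h1, h2, h3, h4, h5⟩ := mem_PS hk hq
    exact ⟨h1, h2, sifted_occ X z k k le_rfl q h1 h3 h4 h5⟩
  have hXr : (X : ℝ) ≤ 2 * x := by
    rw [hX]
    push_cast
    have := Nat.floor_le hx0.le
    linarith
  have hX0 : (0 : ℝ) < X := by
    rw [hX]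
    positivity
  have hfull := Full.sieve_full A X hX0 (by
      intro n hn
      rw [hA] at hn
      unfold sifted at hn
      rw [mem_filter, mem_Icc] at hn
      exact_mod_cast hn.1.2) Q k (by omega) (PS k z) hocc
  have hH4 : Bs ^ k / 4 ≤ Full.H k (PS k z) Q - 1 := by linarith
  have hpi := Real.pi_pos
  have hpi2 := Real.pi_lt_d2
  have h1 : Bs ^ k / 4 * A.card ≤ 28 * x := by
    calc Bs ^ k / 4 * A.card ≤ (Full.H k (PS k z) Q - 1) * A.card :=
          mul_le_mul_of_nonneg_right hH4 (Nat.cast_nonneg _)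
      _ ≤ (Q : ℝ) ^ 2 + 4 * Real.pi * X := hfull
      _ ≤ x + 4 * 3.15 * (2 * x) := by gcongr
      _ ≤ 28 * x := by linarith
  have h2 : K0 * k * Real.log (k + 1) / ℓ = Bs⁻¹ := by rw [hBs, inv_div]
  rw [h2, inv_pow, ← div_eq_mul_inv, le_div_iff₀ (by positivity)]
  linarith

theorem main (k : ℕ) (hk : 1 ≤ k) (x : ℝ) (hx : 2 ≤ x) :
    (Set.ncard {p : ℕ | (p : ℝ) ≤ x ∧ StartsChain p k} : ℝ) ≤
      x * (115 * K0 * k * Real.log (k + 1) / Real.log x) ^ k := by
  have hk' : (1 : ℝ) ≤ k := by exact_mod_cast hk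
  have hx0 : (0 : ℝ) < x := by linarith
  have hℓ0 : 0 < Real.log x := Real.log_pos (by linarith)
  have hK := K0_pos
  have hlk0 : 0 < Real.log (k + 1) := Real.log_pos (by linarith)
  have hfx := Nat.floor_le hx0.le
  rcases le_or_gt (Real.log x) (16 * K0 * k * Real.log (k + 1)) with hsmall | hbig
  · -- trivial bound
    have h1 : {p : ℕ | (p : ℝ) ≤ x ∧ StartsChain p k} ⊆ ((Icc 1 ⌊x⌋₊ : Finset ℕ) : Set ℕ) := by
      rintro p ⟨hp, _, hc⟩
      have h2 := hc 0 (by omega)
      simp only [pow_zero, one_mul, Nat.add_sub_cancel] at h2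
      rw [Finset.mem_coe, mem_Icc]
      exact ⟨h2.one_lt.le, Nat.le_floor hp⟩
    have h2 := Set.ncard_le_ncard h1 (Finset.finite_toSet _)
    rw [Set.ncard_coe_finset, Nat.card_Icc, Nat.add_sub_cancel] at h2
    have h3 : (Set.ncard {p : ℕ | (p : ℝ) ≤ x ∧ StartsChain p k} : ℝ) ≤ x := by
      refine le_trans ?_ hfx
      exact_mod_cast h2
    have h4 : 1 ≤ 115 * K0 * k * Real.log (k + 1) / Real.log x := by
      rw [le_div_iff₀ hℓ0]
      have : 0 ≤ K0 * k * Real.log (k + 1) := by positivity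
      linarith
    have h5 := one_le_pow₀ h4 (n := k)
    nlinarith
  · have hb := sifted_bound k hk x hx hbig
    set ℓ := Real.log x with hℓ
    set v : ℝ := ℓ / (8 * k) with hv
    set z : ℕ := ⌊Real.exp v⌋₊ with hz
    have hvk : ℓ = 8 * k * v := by rw [hv]; field_simp
    have hK8 : 96 ≤ K0 := by
      unfold K0
      have := Real.add_one_le_exp 8
      nlinarith
    have hl2 := Real.log_two_gt_d9
    have hlk : Real.log 2 ≤ Real.log (k + 1) := Real.log_le_log (by norm_num) (by linarith)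
    set t : ℝ := K0 * k * Real.log (k + 1) / ℓ with ht
    have ht0 : 0 < t := by positivity
    have hcov : {p : ℕ | (p : ℝ) ≤ x ∧ StartsChain p k} ⊆
        ((range (z + 1) ∪ (sifted (⌊x⌋₊ + 1) z k).image (fun n => n - 1) : Finset ℕ) : Set ℕ) := by
      rintro p ⟨hp, _, hc⟩
      rw [Finset.mem_coe, mem_union, mem_range, mem_image]
      by_cases h1 : p < z + 1
      · exact Or.inl h1
      · right
        refine ⟨p + 1, ?_, by omega⟩
        unfold sifted
        rw [mem_filter, mem_Icc]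
        have := Nat.le_floor hp
        exact ⟨by omega, by omega, hc⟩
    have h2 := Set.ncard_le_ncard hcov (Finset.finite_toSet _)
    rw [Set.ncard_coe_finset] at h2
    have h3 : (range (z + 1) ∪ (sifted (⌊x⌋₊ + 1) z k).image (fun n => n - 1)).card ≤
        (z + 1) + (sifted (⌊x⌋₊ + 1) z k).card := by
      refine (Finset.card_union_le _ _).trans ?_
      rw [card_range]
      exact Nat.add_le_add_left Finset.card_image_le _
    have h4 : (Set.ncard {p : ℕ | (p : ℝ) ≤ x ∧ StartsChain p k} : ℝ) ≤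
        ((z : ℝ) + 1) + (sifted (⌊x⌋₊ + 1) z k).card := by exact_mod_cast h2.trans h3
    -- the small numbers
    have hz1 : (z : ℝ) ≤ Real.exp v := Nat.floor_le (Real.exp_pos v).le
    have hv0 : 0 < v := by positivity
    have hev1 : 1 ≤ Real.exp v := Real.one_le_exp hv0.le
    have htv : t⁻¹ ≤ Real.exp v := by
      have h5 : t⁻¹ ≤ v := by
        rw [ht, inv_div, hv, div_le_div_iff₀ (by positivity) (by positivity)]
        have h5' : 96 * (k : ℝ) * 0.6 ≤ K0 * k * Real.log (k + 1) := by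
          gcongr
          linarith
        have h6 : 8 * (k : ℝ) ≤ K0 * k * Real.log (k + 1) := by linarith
        gcongr
      have := Real.add_one_le_exp v
      linarith
    have hsm : (z : ℝ) + 1 ≤ 2 * x * t ^ k := by
      have h5 : (t⁻¹) ^ k ≤ Real.exp (k * v) := by
        rw [Real.exp_nat_mul]
        exact pow_le_pow_left₀ (by positivity) htv k
      have h6 : Real.exp v * Real.exp (k * v) ≤ x := by
        rw [← Real.exp_add]
        calc Real.exp (v + k * v) ≤ Real.exp ℓ := by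
              apply Real.exp_le_exp.2
              rw [hvk]
              nlinarith
          _ = x := Real.exp_log hx0
      have h7 : ((z : ℝ) + 1) * (t⁻¹) ^ k ≤ 2 * x := by
        calc ((z : ℝ) + 1) * (t⁻¹) ^ k ≤ (2 * Real.exp v) * Real.exp (k * v) := by
              gcongr
              linarith
          _ = 2 * (Real.exp v * Real.exp (k * v)) := by ring
          _ ≤ 2 * x := by linarith
      have h8 : (t⁻¹) ^ k * t ^ k = 1 := by
        rw [← mul_pow, inv_mul_cancel₀ ht0.ne', one_pow]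
      calc (z : ℝ) + 1 = ((z : ℝ) + 1) * (t⁻¹) ^ k * t ^ k := by rw [mul_assoc, h8, mul_one]
        _ ≤ 2 * x * t ^ k := by gcongr
    have h9 : (115 * K0 * k * Real.log (k + 1) / ℓ) ^ k = 115 ^ k * t ^ k := by
      rw [← mul_pow, ht]
      congr 1
      ring
    have h10 : (115 : ℝ) ≤ 115 ^ k := le_self_pow₀ (by norm_num) (by omega)
    rw [h9]
    have h11 : 0 < x * t ^ k := by positivity
    calc (Set.ncard {p : ℕ | (p : ℝ) ≤ x ∧ StartsChain p k} : ℝ)
        ≤ ((z : ℝ) + 1) + (sifted (⌊x⌋₊ + 1) z k).card := h4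
      _ ≤ 2 * x * t ^ k + 112 * x * t ^ k := add_le_add hsm hb
      _ = 114 * (x * t ^ k) := by ring
      _ ≤ 115 ^ k * (x * t ^ k) := by gcongr; linarith
      _ = x * (115 ^ k * t ^ k) := by ring

/-- **A uniform bound for the number of Cunningham chains.** There is an absolute constant `C`
such that for all `k ≥ 1` and `x ≥ 2` at most `x (C k log (k + 1) / log x)^k` numbers `p ≤ x`
start a Cunningham chain of the first kind of length `k`. -/
theorem result : ∃ C : ℝ, 0 < C ∧ ∀ k : ℕ, 1 ≤ k → ∀ x : ℝ, 2 ≤ x →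
    (Set.ncard {p : ℕ | (p : ℝ) ≤ x ∧ StartsChain p k} : ℝ) ≤
      x * (C * k * Real.log (k + 1) / Real.log x) ^ k :=
  ⟨115 * K0, by have := K0_pos; positivity, fun k hk x hx => main k hk x hx⟩

end Pool.Agent.Results.MP_c77da8_nt.UniformBound
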